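import Pool.Agent.Lib.MP_cef6bb_co.Defs

/-! Concatenation and subdivision for maps of cubes. -/

namespace Pool.Agent.Lib.MP_cef6bb_co

open Set

variable {X : Type} [TopologicalSpace X] (x0 : X)

theorem cl_eq {n : ℕ} (φ : (Fin n → unitInterval) → X) (hc : Continuous φ)
    (hb : ∀ t ∈ Cube.boundary (Fin n), φ t = x0) :
    cl x0 φ = Quotient.mk (GenLoop.Homotopic.setoid (Fin n) x0) ⟨⟨φ, hc⟩, hb⟩ := by
  unfold cl
  rw [dif_pos ⟨hc, hb⟩]

theorem cl_homotopy {n : ℕ} (H : unitInterval × (Fin n → unitInterval) → X)
    (hH : Continuous H) (hb : ∀ s t, t ∈ Cube.boundary (Fin n) → H (s, t) = x0) :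
    cl x0 (fun t => H (0, t)) = cl x0 (fun t => H (1, t)) := by
  have c0 : Continuous (fun t : Fin n → unitInterval => H (0, t)) :=
    hH.comp (continuous_const.prodMk continuous_id)
  have c1 : Continuous (fun t : Fin n → unitInterval => H (1, t)) :=
    hH.comp (continuous_const.prodMk continuous_id)
  rw [cl_eq x0 _ c0 (fun t ht => hb 0 t ht), cl_eq x0 _ c1 (fun t ht => hb 1 t ht)]
  apply Quotient.sound
  refine ⟨⟨⟨⟨H, hH⟩, fun _ => rfl, fun _ => rfl⟩, ?_⟩⟩
  intro s t ht
  exact (hb s t ht).trans (hb 0 t ht).symm

theorem cl_const {n : ℕ} : cl x0 (fun _ : Fin (n + 1) → unitInterval => x0) = 1 := by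
  rw [cl_eq x0 _ continuous_const (fun _ _ => rfl), HomotopyGroup.one_def]
  rfl

theorem cl_genLoop {n : ℕ} (g : GenLoop (Fin n) X x0) :
    cl x0 (fun t => g t) = Quotient.mk (GenLoop.Homotopic.setoid (Fin n) x0) g := by
  rw [cl_eq x0 (fun t => g t) g.1.continuous g.2]
  rfl

theorem continuous_cube_coe {n : ℕ} :
    Continuous (fun (t : Fin n → unitInterval) (k : Fin n) => (t k : ℝ)) :=
  continuous_pi fun k => continuous_subtype_val.comp (continuous_apply k)

theorem coe_update_proj {n : ℕ} (t : Fin n → unitInterval) (i : Fin n) (r : ℝ)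
    (h0 : 0 ≤ r) (h1 : r ≤ 1) :
    (fun k => ((Function.update t i (Set.projIcc 0 1 zero_le_one r) k : unitInterval) : ℝ)) =
      Function.update (fun k => (t k : ℝ)) i r := by
  funext k
  by_cases hk : k = i
  · subst hk
    rw [Function.update_self, Function.update_self, Set.projIcc_of_mem _ ⟨h0, h1⟩]
  · rw [Function.update_of_ne hk, Function.update_of_ne hk]

/-- Concatenation along the coordinate `i`. -/
theorem cl_concat {n : ℕ} (i : Fin (n + 1)) (φ ψ χ : (Fin (n + 1) → ℝ) → X)
    (hφ : Continuous φ) (hψ : Continuous ψ)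
    (bφ : ∀ t ∈ Cube.boundary (Fin (n + 1)), φ (fun k => (t k : ℝ)) = x0)
    (bψ : ∀ t ∈ Cube.boundary (Fin (n + 1)), ψ (fun k => (t k : ℝ)) = x0)
    (h1 : ∀ y : Fin (n + 1) → ℝ, (∀ k, y k ∈ Icc (0 : ℝ) 1) → y i ≤ 1 / 2 →
      χ y = φ (Function.update y i (2 * y i)))
    (h2 : ∀ y : Fin (n + 1) → ℝ, (∀ k, y k ∈ Icc (0 : ℝ) 1) → 1 / 2 ≤ y i →
      χ y = ψ (Function.update y i (2 * y i - 1))) :
    cl x0 (fun t : Fin (n + 1) → unitInterval => χ (fun k => (t k : ℝ))) =
      cl x0 (fun t : Fin (n + 1) → unitInterval => ψ (fun k => (t k : ℝ))) *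
        cl x0 (fun t : Fin (n + 1) → unitInterval => φ (fun k => (t k : ℝ))) := by
  have cφ : Continuous (fun t : Fin (n + 1) → unitInterval => φ (fun k => (t k : ℝ))) :=
    hφ.comp continuous_cube_coe
  have cψ : Continuous (fun t : Fin (n + 1) → unitInterval => ψ (fun k => (t k : ℝ))) :=
    hψ.comp continuous_cube_coe
  let p : GenLoop (Fin (n + 1)) X x0 := ⟨⟨_, cφ⟩, bφ⟩
  let q : GenLoop (Fin (n + 1)) X x0 := ⟨⟨_, cψ⟩, bψ⟩
  have e : (fun t : Fin (n + 1) → unitInterval => χ (fun k => (t k : ℝ))) =
      fun t => GenLoop.transAt i p q t := by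
    funext t
    have ht0 : (0 : ℝ) ≤ t i := (t i).2.1
    have ht1 : (t i : ℝ) ≤ 1 := (t i).2.2
    have hy : ∀ k, (fun k => (t k : ℝ)) k ∈ Icc (0 : ℝ) 1 := fun k => (t k).2
    rw [GenLoop.transAt, GenLoop.coe_copy]
    by_cases h : (t i : ℝ) ≤ 1 / 2
    · rw [if_pos h, h1 _ hy h, ← coe_update_proj t i _ (by linarith) (by linarith)]
      rfl
    · have h' : 1 / 2 ≤ (t i : ℝ) := (not_le.1 h).le
      rw [if_neg h, h2 _ hy h', ← coe_update_proj t i _ (by linarith) (by linarith)]
      rfl
  rw [e, cl_genLoop, cl_eq x0 _ cφ bφ, cl_eq x0 _ cψ bψ]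
  exact (HomotopyGroup.mul_spec (i := i) (p := q) (q := p)).symm

/-- Splitting a box along the coordinate `i` at height `m`. -/
theorem cl_split {n : ℕ} (i : Fin (n + 1)) (F : (Fin (n + 1) → ℝ) → X) (hF : Continuous F)
    (a b : Fin (n + 1) → ℝ) (m : ℝ) (hab : ∀ k, a k ≤ b k) (ham : a i ≤ m) (hmb : m ≤ b i)
    (hw : ∀ y : Fin (n + 1) → ℝ, (∀ k, a k ≤ y k ∧ y k ≤ b k) →
      ((∃ k, y k = a k ∨ y k = b k) ∨ y i = m) → F y = x0) :
    cl x0 (fun t : Fin (n + 1) → unitInterval => F (fun k => a k + (b k - a k) * t k)) =
      cl x0 (fun t : Fin (n + 1) → unitInterval =>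
        F (fun k => Function.update a i m k + (b k - Function.update a i m k) * t k)) *
      cl x0 (fun t : Fin (n + 1) → unitInterval =>
        F (fun k => a k + (Function.update b i m k - a k) * t k)) := by
  let r : ℝ → ℝ := fun s => a i + (m - a i) * min (2 * s) 1 + (b i - m) * max (2 * s - 1) 0
  have hr : Continuous r := by
    simp only [r]
    fun_prop
  let χ : (Fin (n + 1) → ℝ) → X := fun y =>
    F (Function.update (fun k => a k + (b k - a k) * y k) i (r (y i)))
  have key : ∀ (c d : ℝ) (s : unitInterval), c ≤ d → c ≤ c + (d - c) * s ∧ c + (d - c) * s ≤ d := by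
    intro c d s hcd
    have h0 : (0 : ℝ) ≤ s := s.2.1
    have h1 : (s : ℝ) ≤ 1 := s.2.2
    constructor <;> nlinarith
  have hrb : ∀ s : unitInterval, a i ≤ r s ∧ r s ≤ b i := by
    intro s
    have h0 : (0 : ℝ) ≤ s := s.2.1
    have h1 : (s : ℝ) ≤ 1 := s.2.2
    have e1 : 0 ≤ min (2 * (s : ℝ)) 1 := le_min (by linarith) zero_le_one
    have e2 : min (2 * (s : ℝ)) 1 ≤ 1 := min_le_right _ _
    have e3 : 0 ≤ max (2 * (s : ℝ) - 1) 0 := le_max_right _ _
    have e4 : max (2 * (s : ℝ) - 1) 0 ≤ 1 := max_le (by linarith) zero_le_one
    simp only [r]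
    constructor <;> nlinarith
  have step1 : cl x0 (fun t : Fin (n + 1) → unitInterval => F (fun k => a k + (b k - a k) * t k)) =
      cl x0 (fun t : Fin (n + 1) → unitInterval => χ (fun k => (t k : ℝ))) := by
    let H : unitInterval × (Fin (n + 1) → unitInterval) → X := fun z =>
      F (Function.update (fun k => a k + (b k - a k) * z.2 k) i
        ((1 - (z.1 : ℝ)) * (a i + (b i - a i) * z.2 i) + (z.1 : ℝ) * r (z.2 i)))
    have hH : Continuous H := by
      refine hF.comp (Continuous.update (continuous_pi fun k => ?_) i ?_)
      · fun_prop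
      · fun_prop
    have hb : ∀ s t, t ∈ Cube.boundary (Fin (n + 1)) → H (s, t) = x0 := by
      rintro s t ⟨j, hj⟩
      have h0 : (0 : ℝ) ≤ s := s.2.1
      have h1 : (s : ℝ) ≤ 1 := s.2.2
      apply hw
      · intro k
        by_cases hk : k = i
        · subst hk
          rw [Function.update_self]
          have g1 := key (a k) (b k) (t k) (hab k)
          have g2 := hrb (t k)
          constructor <;> nlinarith [g1.1, g1.2, g2.1, g2.2]
        · rw [Function.update_of_ne hk]
          exact key _ _ _ (hab k)
      · left
        refine ⟨j, ?_⟩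
        by_cases hk : j = i
        · subst hk
          rw [Function.update_self]
          rcases hj with hj | hj
          · left
            simp only [hj, r]
            norm_num
            ring
          · right
            simp only [hj, r]
            norm_num
            ring
        · rw [Function.update_of_ne hk]
          rcases hj with hj | hj
          · left
            simp [hj]
          · right
            simp [hj]
    have h := cl_homotopy x0 H hH hb
    have e0 : (fun t => H (0, t)) =
        (fun t : Fin (n + 1) → unitInterval => F (fun k => a k + (b k - a k) * t k)) := by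
      funext t
      simp only [H]
      congr 1
      funext k
      by_cases hk : k = i
      · subst hk
        rw [Function.update_self]
        simp
      · rw [Function.update_of_ne hk]
    have e1 : (fun t => H (1, t)) =
        (fun t : Fin (n + 1) → unitInterval => χ (fun k => (t k : ℝ))) := by
      funext t
      simp only [H, χ]
      congr 2
      simp
    rw [← e0, ← e1]
    exact h
  rw [step1]
  refine cl_concat x0 i (fun y => F (fun k => a k + (Function.update b i m k - a k) * y k))
    (fun y => F (fun k => Function.update a i m k + (b k - Function.update a i m k) * y k)) χ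
    ?_ ?_ ?_ ?_ ?_ ?_
  · exact hF.comp (continuous_pi fun k => by fun_prop)
  · exact hF.comp (continuous_pi fun k => by fun_prop)
  · rintro t ⟨j, hj⟩
    apply hw
    · intro k
      by_cases hk : k = i
      · subst hk
        rw [Function.update_self]
        have g := key (a k) m (t k) ham
        exact ⟨g.1, g.2.trans hmb⟩
      · rw [Function.update_of_ne hk]
        exact key _ _ _ (hab k)
    · by_cases hk : j = i
      · subst hk
        rcases hj with hj | hj
        · left
          exact ⟨j, Or.inl (by simp [hj])⟩
        · right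
          simp [hj]
      · left
        refine ⟨j, ?_⟩
        rw [Function.update_of_ne hk]
        rcases hj with hj | hj
        · left
          simp [hj]
        · right
          simp [hj]
  · rintro t ⟨j, hj⟩
    apply hw
    · intro k
      by_cases hk : k = i
      · subst hk
        rw [Function.update_self]
        have g := key m (b k) (t k) hmb
        exact ⟨ham.trans g.1, g.2⟩
      · rw [Function.update_of_ne hk]
        exact key _ _ _ (hab k)
    · by_cases hk : j = i
      · subst hk
        rcases hj with hj | hj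
        · right
          simp [hj]
        · left
          exact ⟨j, Or.inr (by simp [hj])⟩
      · left
        refine ⟨j, ?_⟩
        rw [Function.update_of_ne hk]
        rcases hj with hj | hj
        · left
          simp [hj]
        · right
          simp [hj]
  · intro y _ hy
    simp only [χ]
    congr 1
    funext k
    by_cases hk : k = i
    · subst hk
      simp only [Function.update_self, r]
      rw [min_eq_left (by linarith), max_eq_right (by linarith)]
      ring
    · simp only [Function.update_of_ne hk]
  · intro y _ hy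
    simp only [χ]
    congr 1
    funext k
    by_cases hk : k = i
    · subst hk
      simp only [Function.update_self, r]
      rw [min_eq_right (by linarith), max_eq_left (by linarith)]
      ring
    · simp only [Function.update_of_ne hk]

/-- Subdivision of an interval. -/
theorem subdiv_one (F : (Fin 1 → ℝ) → X) (hF : Continuous F) (N : ℕ)
    (hw : ∀ m : ℕ, m ≤ N → F (fun _ => (m : ℝ)) = x0)
    (φ : ℕ → HomotopyGroup (Fin 1) X x0)
    (hφ : ∀ m : ℕ, m < N →
      cl x0 (fun t : Fin 1 → unitInterval => F (fun i => (m : ℝ) + t i)) =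
        φ (m + 1) * (φ m)⁻¹) :
    cl x0 (fun t : Fin 1 → unitInterval => F (fun i => (N : ℝ) * t i)) = φ N * (φ 0)⁻¹ := by
  induction N with
  | zero =>
    have e : (fun t : Fin 1 → unitInterval => F (fun i => ((0 : ℕ) : ℝ) * t i)) = fun _ => x0 := by
      funext t
      rw [← hw 0 le_rfl]
      congr 1
      funext k
      simp
    rw [e, mul_inv_cancel]
    exact cl_const (n := 0) x0
  | succ N ih =>
    have ih' := ih (fun m hm => hw m (hm.trans (Nat.le_succ N)))
      (fun m hm => hφ m (hm.trans (Nat.lt_succ_self N)))
    have hN : (0 : ℝ) ≤ N := Nat.cast_nonneg N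
    have hk0 : ∀ k : Fin (0 + 1), k = 0 := fun k => Fin.ext (by simp)
    have hs := cl_split (n := 0) x0 0 F hF (fun _ => 0) (fun _ => ((N + 1 : ℕ) : ℝ)) (N : ℝ)
      (fun _ => Nat.cast_nonneg _) hN (by push_cast; linarith) (by
        intro y _ hy
        have hy0 : y = fun _ => y 0 := by
          funext k
          rw [hk0 k]
        rcases hy with ⟨k, hk | hk⟩ | hk
        · rw [hk0 k] at hk
          rw [hy0, hk, ← hw 0 (Nat.zero_le _)]
          simp
        · rw [hk0 k] at hk
          rw [hy0, hk]
          exact hw _ le_rfl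
        · rw [hy0, hk]
          exact hw _ (Nat.le_succ N))
    have e0 : (fun t : Fin 1 → unitInterval => F (fun i => ((N + 1 : ℕ) : ℝ) * t i)) =
        fun t : Fin (0 + 1) → unitInterval =>
          F (fun k => (0 : ℝ) + (((N + 1 : ℕ) : ℝ) - 0) * t k) := by
      funext t
      congr 1
      funext k
      ring
    have e1 : (fun t : Fin (0 + 1) → unitInterval =>
        F (fun k => Function.update (fun _ => (0 : ℝ)) 0 (N : ℝ) k +
          (((N + 1 : ℕ) : ℝ) - Function.update (fun _ => (0 : ℝ)) 0 (N : ℝ) k) * t k)) =
        fun t : Fin 1 → unitInterval => F (fun i => (N : ℝ) + t i) := by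
      funext t
      congr 1
      funext k
      rw [hk0 k, Function.update_self]
      push_cast
      ring
    have e2 : (fun t : Fin (0 + 1) → unitInterval =>
        F (fun k => (0 : ℝ) +
          (Function.update (fun _ => ((N + 1 : ℕ) : ℝ)) 0 (N : ℝ) k - 0) * t k)) =
        fun t : Fin 1 → unitInterval => F (fun i => (N : ℝ) * t i) := by
      funext t
      congr 1
      funext k
      rw [hk0 k, Function.update_self]
      ring
    rw [e1, e2, ih', hφ N (Nat.lt_succ_self N)] at hs
    rw [e0, hs, mul_assoc, inv_mul_cancel_left]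

theorem subdiv_box {n : ℕ} (F : (Fin (n + 2) → ℝ) → X) (hF : Continuous F) (N : ℕ)
    (hw : ∀ y : Fin (n + 2) → ℝ, (∀ i, y i ∈ Icc (0 : ℝ) N) → (∃ i, ∃ m : ℤ, y i = m) →
      F y = x0) (s : ℕ) :
    ∀ a b : Fin (n + 2) → ℕ, (∀ k, a k ≤ b k) → (∀ k, b k ≤ N) → ∑ k, (b k - a k) ≤ s →
    Additive.ofMul (cl x0 (fun t : Fin (n + 2) → unitInterval =>
        F (fun k => (a k : ℝ) + ((b k : ℝ) - a k) * t k))) =
      ∑ q ∈ Fintype.piFinset (fun k => Finset.Ico (a k) (b k)), Additive.ofMul
        (cl x0 (fun t : Fin (n + 2) → unitInterval => F (fun i => (q i : ℝ) + t i))) := by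
  have key : ∀ (a b : Fin (n + 2) → ℕ) (y : Fin (n + 2) → ℝ), (∀ k, b k ≤ N) →
      (∀ k, (a k : ℝ) ≤ y k ∧ y k ≤ b k) → ∀ i, y i ∈ Icc (0 : ℝ) N := by
    intro a b y hb hy k
    have h1 : ((b k : ℕ) : ℝ) ≤ N := by exact_mod_cast hb k
    exact ⟨(Nat.cast_nonneg _).trans (hy k).1, (hy k).2.trans h1⟩
  have degen : ∀ a b : Fin (n + 2) → ℕ, (∀ k, a k ≤ b k) → (∀ k, b k ≤ N) → (∃ j, a j = b j) →
      Additive.ofMul (cl x0 (fun t : Fin (n + 2) → unitInterval =>
        F (fun k => (a k : ℝ) + ((b k : ℝ) - a k) * t k))) =
      ∑ q ∈ Fintype.piFinset (fun k => Finset.Ico (a k) (b k)), Additive.ofMul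
        (cl x0 (fun t : Fin (n + 2) → unitInterval => F (fun i => (q i : ℝ) + t i))) := by
    rintro a b hab hb ⟨j, hj⟩
    have e : (fun t : Fin (n + 2) → unitInterval =>
        F (fun k => (a k : ℝ) + ((b k : ℝ) - a k) * t k)) = fun _ => x0 := by
      funext t
      apply hw
      · apply key a b _ hb
        intro k
        have h0 : (0 : ℝ) ≤ t k := (t k).2.1
        have h1 : (t k : ℝ) ≤ 1 := (t k).2.2
        have h2 : (a k : ℝ) ≤ b k := by exact_mod_cast hab k
        constructor <;> nlinarith
      · refine ⟨j, a j, ?_⟩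
        simp [hj]
    have e' : Fintype.piFinset (fun k => Finset.Ico (a k) (b k)) = ∅ := by
      rw [Fintype.piFinset_eq_empty]
      exact ⟨j, by rw [hj, Finset.Ico_self]⟩
    rw [e, e', Finset.sum_empty, cl_const (n := n + 1) x0]
    rfl
  induction s with
  | zero =>
    intro a b hab hb hs
    apply degen a b hab hb
    have h0 : b 0 - a 0 ≤ ∑ k, (b k - a k) :=
      Finset.single_le_sum (f := fun k => b k - a k) (fun _ _ => Nat.zero_le _) (Finset.mem_univ 0)
    have h1 := hab 0
    exact ⟨0, by omega⟩
  | succ s ih =>
    intro a b hab hb hs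
    by_cases hd : ∃ j, a j = b j
    · exact degen a b hab hb hd
    by_cases hu : ∀ k, b k = a k + 1
    · have e' : Fintype.piFinset (fun k => Finset.Ico (a k) (b k)) = {a} := by
        ext q
        simp only [Fintype.mem_piFinset, Finset.mem_Ico, Finset.mem_singleton]
        constructor
        · intro h
          funext k
          have h1 := h k
          have h2 := hu k
          omega
        · rintro rfl k
          have h2 := hu k
          omega
      rw [e', Finset.sum_singleton]
      congr 2
      funext t
      congr 1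
      funext k
      rw [hu k]
      push_cast
      ring
    obtain ⟨i, hi⟩ := not_forall.1 hu
    have hi0 : a i ≠ b i := fun h => hd ⟨i, h⟩
    have hi1 := hab i
    have hi2 : a i + 1 < b i := by omega
    have hsplit := cl_split x0 i F hF (fun k => (a k : ℝ)) (fun k => (b k : ℝ))
      ((a i + 1 : ℕ) : ℝ) (fun k => by exact_mod_cast hab k)
      (by exact_mod_cast Nat.le_succ _) (by exact_mod_cast hi2.le) (by
        intro y hy hy'
        apply hw y (key a b y hb hy)
        rcases hy' with ⟨k, hk | hk⟩ | hk
        · exact ⟨k, a k, by rw [hk]; simp⟩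
        · exact ⟨k, b k, by rw [hk]; simp⟩
        · exact ⟨i, (a i + 1 : ℕ), by rw [hk]; simp⟩)
    have hsum : ∀ f : Fin (n + 2) → ℕ,
        ∑ k, f k = f i + ∑ k ∈ Finset.univ.erase i, f k := fun f =>
      (Finset.add_sum_erase _ _ (Finset.mem_univ i)).symm
    have ua : ∀ k, ((Function.update a i (a i + 1) k : ℕ) : ℝ) =
        Function.update (fun k => (a k : ℝ)) i ((a i + 1 : ℕ) : ℝ) k := by
      intro k
      by_cases hk : k = i
      · subst hk
        rw [Function.update_self, Function.update_self]
      · rw [Function.update_of_ne hk, Function.update_of_ne hk]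
    have ub : ∀ k, ((Function.update b i (a i + 1) k : ℕ) : ℝ) =
        Function.update (fun k => (b k : ℝ)) i ((a i + 1 : ℕ) : ℝ) k := by
      intro k
      by_cases hk : k = i
      · subst hk
        rw [Function.update_self, Function.update_self]
      · rw [Function.update_of_ne hk, Function.update_of_ne hk]
    have ih1 := ih (Function.update a i (a i + 1)) b (by
        intro k
        by_cases hk : k = i
        · subst hk
          rw [Function.update_self]
          omega
        · rw [Function.update_of_ne hk]
          exact hab k) hb (by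
        rw [hsum] at hs ⊢
        have e : ∑ k ∈ Finset.univ.erase i, (b k - Function.update a i (a i + 1) k) =
            ∑ k ∈ Finset.univ.erase i, (b k - a k) :=
          Finset.sum_congr rfl fun k hk => by
            rw [Function.update_of_ne (Finset.ne_of_mem_erase hk)]
        rw [e, Function.update_self]
        omega)
    have ih2 := ih a (Function.update b i (a i + 1)) (by
        intro k
        by_cases hk : k = i
        · subst hk
          rw [Function.update_self]
          omega
        · rw [Function.update_of_ne hk]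
          exact hab k) (by
        intro k
        by_cases hk : k = i
        · subst hk
          rw [Function.update_self]
          have := hb k
          omega
        · rw [Function.update_of_ne hk]
          exact hb k) (by
        rw [hsum] at hs ⊢
        have e : ∑ k ∈ Finset.univ.erase i, (Function.update b i (a i + 1) k - a k) =
            ∑ k ∈ Finset.univ.erase i, (b k - a k) :=
          Finset.sum_congr rfl fun k hk => by
            rw [Function.update_of_ne (Finset.ne_of_mem_erase hk)]
        rw [e, Function.update_self]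
        omega)
    simp only [ua] at ih1
    simp only [ub] at ih2
    rw [hsplit, ofMul_mul, ih1, ih2,
      ← Finset.sum_filter_add_sum_filter_not
        (Fintype.piFinset (fun k => Finset.Ico (a k) (b k))) (fun q => a i + 1 ≤ q i)]
    congr 1
    · apply Finset.sum_congr _ (fun _ _ => rfl)
      ext q
      simp only [Fintype.mem_piFinset, Finset.mem_Ico, Finset.mem_filter]
      constructor
      · intro h
        have hi' := h i
        rw [Function.update_self] at hi'
        refine ⟨fun k => ?_, hi'.1⟩
        by_cases hk : k = i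
        · subst hk
          omega
        · have := h k
          rwa [Function.update_of_ne hk] at this
      · rintro ⟨h, h'⟩ k
        by_cases hk : k = i
        · subst hk
          rw [Function.update_self]
          exact ⟨h', (h k).2⟩
        · rw [Function.update_of_ne hk]
          exact h k
    · apply Finset.sum_congr _ (fun _ _ => rfl)
      ext q
      simp only [Fintype.mem_piFinset, Finset.mem_Ico, Finset.mem_filter]
      constructor
      · intro h
        have hi' := h i
        rw [Function.update_self] at hi'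
        refine ⟨fun k => ?_, by omega⟩
        by_cases hk : k = i
        · subst hk
          omega
        · have := h k
          rwa [Function.update_of_ne hk] at this
      · rintro ⟨h, h'⟩ k
        by_cases hk : k = i
        · subst hk
          rw [Function.update_self]
          have := h k
          omega
        · rw [Function.update_of_ne hk]
          exact h k

/-- Subdivision of a cube of dimension at least two. -/
theorem subdiv_comm {n : ℕ} (F : (Fin (n + 2) → ℝ) → X) (hF : Continuous F) (N : ℕ)
    (hw : ∀ y : Fin (n + 2) → ℝ, (∀ i, y i ∈ Icc (0 : ℝ) N) → (∃ i, ∃ m : ℤ, y i = m) →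
      F y = x0) :
    Additive.ofMul (cl x0 (fun t : Fin (n + 2) → unitInterval => F (fun i => (N : ℝ) * t i))) =
      ∑ q : Fin (n + 2) → Fin N, Additive.ofMul
        (cl x0 (fun t : Fin (n + 2) → unitInterval => F (fun i => ((q i : ℕ) : ℝ) + t i))) := by
  have h := subdiv_box x0 F hF N hw _ (fun _ => 0) (fun _ => N) (fun _ => Nat.zero_le _)
    (fun _ => le_rfl) le_rfl
  have e : (fun t : Fin (n + 2) → unitInterval => F (fun i => (N : ℝ) * t i)) =
      fun t : Fin (n + 2) → unitInterval =>
        F (fun k => ((0 : ℕ) : ℝ) + ((N : ℝ) - ((0 : ℕ) : ℝ)) * t k) := by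
    funext t
    congr 1
    funext k
    simp
  rw [e, h]
  symm
  refine Finset.sum_bij (fun q _ => fun i => (q i : ℕ)) ?_ ?_ ?_ ?_
  · intro q _
    simp only [Fintype.mem_piFinset, Finset.mem_Ico]
    exact fun k => ⟨Nat.zero_le _, (q k).2⟩
  · intro q _ q' _ hq
    funext k
    exact Fin.ext (congrFun hq k)
  · intro q hq
    simp only [Fintype.mem_piFinset, Finset.mem_Ico] at hq
    exact ⟨fun k => ⟨q k, (hq k).2⟩, Finset.mem_univ _, rfl⟩
  · intro q _
    rfl

end Pool.Agent.Lib.MP_cef6bb_co
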