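import Pool.Agent.Lib.MP_cef6bb_co.Grid
import Pool.Agent.Lib.MP_cef6bb_co.Loop

/-! Every loop in a realization is homotopic to the interpolation of a grid labelling. -/

namespace Pool.Agent.Lib.MP_cef6bb_co

open Set Metric

open Classical in
/-- A total inverse of the inclusion of a subset. -/
noncomputable def toX {Y : Type} {X : Set Y} (x0 : X) (y : Y) : X :=
  if h : y ∈ X then ⟨y, h⟩ else x0

theorem toX_val {Y : Type} {X : Set Y} (x0 : X) (y : Y) (h : y ∈ X) : (toX x0 y : Y) = y := by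
  simp [toX, h]

theorem toX_cont {Y Z : Type} [TopologicalSpace Y] [TopologicalSpace Z] {X : Set Y} (x0 : X)
    (f : Z → Y) (hf : Continuous f) (hm : ∀ z, f z ∈ X) :
    Continuous (fun z => toX x0 (f z)) := by
  have h : (fun z => toX x0 (f z)) = fun z => (⟨f z, hm z⟩ : X) := by
    funext z
    exact Subtype.ext (toX_val x0 _ (hm z))
  rw [h]
  exact hf.subtype_mk _

theorem approx_big {ι : Type} [Fintype ι] {K : Set (Finset ι)} (a0 : ι) {x : ι → ℝ}
    (hx : x ∈ Rl K) : ∃ a, 1 / (Fintype.card ι : ℝ) ≤ x a := by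
  have hc : (0 : ℝ) < Fintype.card ι := Nat.cast_pos.2 (Fintype.card_pos_iff.2 ⟨a0⟩)
  have h : ∑ _a : ι, 1 / (Fintype.card ι : ℝ) ≤ ∑ a, x a := by
    rw [hx.2.1, Finset.sum_const, Finset.card_univ, nsmul_eq_mul, mul_one_div_cancel hc.ne']
  obtain ⟨a, -, ha⟩ := Finset.exists_le_of_sum_le ⟨a0, Finset.mem_univ _⟩ h
  exact ⟨a, ha⟩

theorem approx_seg {ι : Type} [Fintype ι] {K : Set (Finset ι)} (hK : IsLowerSet K)
    {x y : ι → ℝ} (hx : x ∈ Rl K) (hy : y ∈ Rl K) (h : spt y ⊆ spt x) (s : unitInterval) :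
    (1 - (s : ℝ)) • x + (s : ℝ) • y ∈ Rl K := by
  refine ⟨fun a => ?_, ?_, hK (fun a ha => ?_) hx.2.2⟩
  · exact add_nonneg (mul_nonneg (sub_nonneg.2 s.2.2) (hx.1 a)) (mul_nonneg s.2.1 (hy.1 a))
  · simp only [Pi.add_apply, Pi.smul_apply, smul_eq_mul]
    rw [Finset.sum_add_distrib, ← Finset.mul_sum, ← Finset.mul_sum, hx.2.1, hy.2.1]
    ring
  · by_contra hn
    have h1 : x a = 0 := by simpa [spt] using hn
    have h2 : y a = 0 := by simpa [spt] using fun h3 => hn (h h3)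
    simp [spt, h1, h2] at ha

theorem loop_grid {ι : Type} [Fintype ι] [DecidableEq ι] (K : Set (Finset ι))
    (hK : IsLowerSet K) (a0 : ι) (ha0 : vtx a0 ∈ Rl K) (n : ℕ)
    (g : HomotopyGroup (Fin n) (Rl K) ⟨vtx a0, ha0⟩) :
    ∃ (N : ℕ) (V : (Fin n → ℤ) → ι), (∀ q, labels (cell V q) ∈ K) ∧
      (∀ y, gridmap V y ∈ Rl K) ∧
      (∀ p : Fin n → ℤ, (∃ i, p i = 0 ∨ p i = N) → V p = a0) ∧
      g = cl (⟨vtx a0, ha0⟩ : Rl K) (fun t : Fin n → unitInterval =>
        toX (⟨vtx a0, ha0⟩ : Rl K) (gridmap V (fun i => (N : ℝ) * t i))) := by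
  obtain ⟨γ, rfl⟩ := Quotient.exists_rep g
  have hc : (0 : ℝ) < Fintype.card ι := Nat.cast_pos.2 (Fintype.card_pos_iff.2 ⟨a0⟩)
  obtain ⟨Γ, hΓ⟩ : ∃ Γ : (Fin n → unitInterval) → ι → ℝ, Γ = fun t => (γ t : ι → ℝ) := ⟨_, rfl⟩
  have hΓc : Continuous Γ := by
    rw [hΓ]
    exact continuous_subtype_val.comp γ.1.continuous
  have hΓm : ∀ t, Γ t ∈ Rl K := fun t => by
    rw [hΓ]
    exact (γ t).2
  have hΓb : ∀ t ∈ Cube.boundary (Fin n), Γ t = vtx a0 := fun t ht => by
    rw [hΓ]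
    exact congrArg Subtype.val (γ.2 t ht)
  obtain ⟨δ, hδ, hu⟩ := Metric.uniformContinuous_iff.1
    (CompactSpace.uniformContinuous_of_continuous hΓc) (1 / (Fintype.card ι : ℝ)) (by positivity)
  obtain ⟨M, hM⟩ := exists_nat_one_div_lt hδ
  obtain ⟨N, hN0, hN⟩ : ∃ N : ℕ, (0 : ℝ) < N ∧ 1 / (N : ℝ) < δ :=
    ⟨M + 1, by positivity, by exact_mod_cast hM⟩
  obtain ⟨pr, hpr⟩ : ∃ pr : (Fin n → ℝ) → Fin n → unitInterval,
    pr = fun y i => projIcc (0 : ℝ) 1 zero_le_one (y i / N) := ⟨_, rfl⟩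
  have hclose : ∀ y y' : Fin n → ℝ, (∀ i, |y i - y' i| ≤ 1) → dist (pr y) (pr y') < δ := by
    intro y y' h
    rw [dist_pi_lt_iff hδ]
    intro i
    rw [hpr, Subtype.dist_eq, Real.dist_eq]
    refine (abs_projIcc_sub_projIcc zero_le_one).trans_lt (lt_of_le_of_lt ?_ hN)
    rw [← sub_div, abs_div, abs_of_pos hN0]
    exact div_le_div_of_nonneg_right (h i) hN0.le
  have hprN : ∀ t : Fin n → unitInterval, pr (fun i => (N : ℝ) * t i) = t := by
    intro t
    funext i
    rw [hpr]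
    simp only
    rw [mul_div_cancel_left₀ _ hN0.ne', projIcc_val]
  choose V hV using fun p : Fin n → ℤ => approx_big a0 (hΓm (pr fun i => (p i : ℝ)))
  have hVs : ∀ (p : Fin n → ℤ) (y : Fin n → ℝ), (∀ i, |y i - p i| ≤ 1) →
      V p ∈ spt (Γ (pr y)) := by
    intro p y h
    have h1 := (dist_le_pi_dist _ _ (V p)).trans_lt (hu (hclose y _ h))
    rw [Real.dist_eq] at h1
    have h2 := (abs_lt.1 h1).1
    have h3 := hV p
    refine Finset.mem_filter.2 ⟨Finset.mem_univ _, ne_of_gt ?_⟩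
    linarith
  have hW : ∀ p : Fin n → ℤ, (∃ i, p i = 0 ∨ p i = N) → V p = a0 := by
    rintro p ⟨i, hi⟩
    have h1 : (pr fun i => (p i : ℝ)) ∈ Cube.boundary (Fin n) := by
      refine ⟨i, ?_⟩
      rw [hpr]
      rcases hi with hi | hi
      · left
        simp [hi]
      · right
        simp [hi, div_self hN0.ne']
    have h2 := hV p
    rw [hΓb _ h1] at h2
    by_contra hne
    rw [vtx, Pi.single_eq_of_ne hne] at h2
    exact absurd h2 (not_le.2 (by positivity))
  have hG : ∀ y, spt (gridmap V y) ⊆ spt (Γ (pr y)) := by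
    intro y a ha
    obtain ⟨t, ht, rfl⟩ := gm_supp V y a (Finset.mem_filter.1 ha).2
    refine hVs _ y fun i => abs_le.2 ⟨?_, ?_⟩
    · linarith [Int.floor_le (y i + t), ht.2]
    · linarith [Int.lt_floor_add_one (y i + t), ht.1]
  have hGm : ∀ y, gridmap V y ∈ Rl K := fun y =>
    ⟨gm_nonneg V y, gm_sum V y, hK (hG y) (hΓm _).2.2⟩
  refine ⟨N, V, fun q => hK (fun a ha => ?_) (hΓm (pr fun i => (q i : ℝ))).2.2, hGm, hW, ?_⟩
  · obtain ⟨b, -, rfl⟩ := Finset.mem_image.1 ha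
    refine hVs _ _ fun i => ?_
    split_ifs <;> simp
  · have hm : ∀ z : unitInterval × (Fin n → unitInterval),
        (1 - (z.1 : ℝ)) • Γ z.2 + (z.1 : ℝ) • gridmap V (fun i => (N : ℝ) * z.2 i) ∈ Rl K := by
      intro z
      refine approx_seg hK (hΓm _) (hGm _) ?_ z.1
      have h := hG fun i => (N : ℝ) * z.2 i
      rwa [hprN] at h
    have hcont : Continuous fun z : unitInterval × (Fin n → unitInterval) =>
        (1 - (z.1 : ℝ)) • Γ z.2 + (z.1 : ℝ) • gridmap V (fun i => (N : ℝ) * z.2 i) := by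
      have h1 : Continuous fun z : unitInterval × (Fin n → unitInterval) => (z.1 : ℝ) :=
        continuous_subtype_val.comp continuous_fst
      refine ((continuous_const.sub h1).smul (hΓc.comp continuous_snd)).add
        (h1.smul ((gm_cont V).comp (continuous_pi fun i => continuous_const.mul ?_)))
      exact continuous_subtype_val.comp ((continuous_apply i).comp continuous_snd)
    have h := cl_homotopy (⟨vtx a0, ha0⟩ : Rl K) _ (toX_cont (⟨vtx a0, ha0⟩ : Rl K) _ hcont hm)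
      (by
        intro s t ht
        apply Subtype.ext
        rw [toX_val _ _ (hm (s, t))]
        have h1 : gridmap V (fun i => (N : ℝ) * t i) = vtx a0 := by
          refine gm_const V _ a0 fun τ hτ => hW _ ?_
          obtain ⟨i, hi | hi⟩ := ht
          · refine ⟨i, Or.inl ?_⟩
            rw [Int.floor_eq_iff, hi]
            simp [hτ.1.le, hτ.2]
          · refine ⟨i, Or.inr ?_⟩
            rw [Int.floor_eq_iff, hi]
            simp [hτ.1.le, hτ.2]
        simp only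
        rw [hΓb t ht, h1, ← add_smul, sub_add_cancel, one_smul])
    simp only [Icc.coe_zero, Icc.coe_one, sub_zero, sub_self, one_smul, zero_smul, add_zero,
      zero_add] at h
    rw [← h, ← cl_genLoop]
    congr 1
    funext t
    apply Subtype.ext
    rw [toX_val _ _ (hΓm t), hΓ]

end Pool.Agent.Lib.MP_cef6bb_co
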