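import Pool.Agent.Lib.MP_cef6bb_co.Defs

/-! Exact sequence lemmas, cones, gluing and low degree vanishing for a chain theory. -/

namespace Pool.Agent.Lib.MP_cef6bb_co

open Set

theorem lin_mem {α M : Type} [AddCommGroup M] (s : Set α) (f : (α →₀ ℤ) →ₗ[ℤ] M)
    (N : Submodule ℤ M) (h : ∀ b ∈ s, f (Finsupp.single b 1) ∈ N) {z : α →₀ ℤ}
    (hz : z ∈ Finsupp.supported ℤ ℤ s) : f z ∈ N := by
  rw [Finsupp.supported_eq_span_single] at hz
  have hle : Submodule.span ℤ ((fun i => Finsupp.single i (1 : ℤ)) '' s) ≤ N.comap f := by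
    rw [Submodule.span_le]
    rintro _ ⟨b, hb, rfl⟩
    exact h b hb
  exact hle hz

namespace CT

variable {ι : Type} [DecidableEq ι] (T : CT ι)

theorem In_mono {P Q : Set (Finset ι)} (h : P ⊆ Q) (r : ℕ) : T.In P r ≤ T.In Q r :=
  Finsupp.supported_mono (fun _ hb => ⟨hb.1, h hb.2⟩)

theorem In_union (P Q : Set (Finset ι)) (r : ℕ) : T.In (P ∪ Q) r = T.In P r ⊔ T.In Q r := by
  unfold In
  rw [← Finsupp.supported_union]
  congr 1
  ext b
  simp [and_or_left]

theorem In_inter {P Q : Set (Finset ι)} {r : ℕ} {z : T.B r →₀ ℤ} (h1 : z ∈ T.In P r)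
    (h2 : z ∈ T.In Q r) : z ∈ T.In (P ∩ Q) r := by
  unfold In at *
  rw [Finsupp.mem_supported] at *
  intro b hb
  exact ⟨(h1 hb).1, (h1 hb).2, (h2 hb).2⟩

theorem In_split {P Q : Set (Finset ι)} {r : ℕ} {z : T.B r →₀ ℤ} (h : z ∈ T.In (P ∪ Q) r) :
    ∃ x ∈ T.In P r, ∃ y ∈ T.In Q r, x + y = z := by
  rw [In_union] at h
  exact Submodule.mem_sup.mp h

theorem In_empty {r : ℕ} {z : T.B r →₀ ℤ} (h : z ∈ T.In ∅ r) : z = 0 := by
  unfold In at h
  rw [Finsupp.mem_supported] at h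
  ext b
  by_contra hb
  have hb' : b ∈ z.support := Finsupp.mem_support_iff.mpr (by simpa using hb)
  exact (h hb').2

theorem zero0 (z : T.B 0 →₀ ℤ) : z = 0 := by
  ext b
  exact (T.empty0.false b).elim

theorem d_In {P : Set (Finset ι)} (hP : IsLowerSet P) {r : ℕ} {z : T.B (r + 1) →₀ ℤ}
    (hz : z ∈ T.In P (r + 1)) : T.d r z ∈ T.In P r := by
  refine lin_mem _ (T.d r) _ ?_ hz
  intro b hb
  unfold In
  rw [Finsupp.mem_supported]
  intro b' hb'
  have := T.d_mem r b hb.1 b' hb'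
  exact ⟨this.1, hP this.2 hb.2⟩

theorem dd_In {P : Set (Finset ι)} {r : ℕ} {z : T.B (r + 2) →₀ ℤ}
    (hz : z ∈ T.In P (r + 2)) : T.d r (T.d (r + 1) z) = 0 := by
  have := lin_mem _ (T.d r ∘ₗ T.d (r + 1)) ⊥ (fun b hb => by
    simpa using T.dd r b hb.1) hz
  simpa using this

theorem cone_In {P : Set (Finset ι)} (hP : IsLowerSet P) (a : ι)
    (ha : ∀ σ ∈ P, insert a σ ∈ P) {r : ℕ} {z : T.B r →₀ ℤ} (hz : z ∈ T.In P r) :
    T.cone a r z ∈ T.In P (r + 1) := by
  refine lin_mem _ (T.cone a r) _ ?_ hz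
  intro b hb
  unfold In
  rw [Finsupp.mem_supported]
  intro b' hb'
  have := T.cone_mem a r b hb.1 b' hb'
  exact ⟨this.1, hP this.2 (ha _ hb.2)⟩

theorem cone_d_In {P : Set (Finset ι)} (a : ι) {r : ℕ} {z : T.B (r + 1) →₀ ℤ}
    (hz : z ∈ T.In P (r + 1)) :
    T.d (r + 1) (T.cone a (r + 1) z) + T.cone a r (T.d r z) = z := by
  have := lin_mem _ (T.d (r + 1) ∘ₗ T.cone a (r + 1) + T.cone a r ∘ₗ T.d r - LinearMap.id) ⊥
    (fun b hb => by
      have h := T.cone_d a r b hb.1
      simp only [LinearMap.sub_apply, LinearMap.add_apply, LinearMap.comp_apply,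
        LinearMap.id_apply, Submodule.mem_bot]
      rw [h, sub_self]) hz
  simp only [LinearMap.sub_apply, LinearMap.add_apply, LinearMap.comp_apply,
    LinearMap.id_apply, Submodule.mem_bot] at this
  exact sub_eq_zero.mp this

/-- Vanishing one level below. -/
def RelP (P Q : Set (Finset ι)) (r : ℕ) : Prop := ∀ r', r = r' + 1 → T.Rel P Q r'

theorem rel_self (P : Set (Finset ι)) (r : ℕ) : T.Rel P P r := by
  intro z hz _
  exact ⟨0, Submodule.zero_mem _, by simpa using hz⟩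

theorem rel_cone {P : Set (Finset ι)} (hP : IsLowerSet P) (a : ι)
    (ha : ∀ σ ∈ P, insert a σ ∈ P) (r : ℕ) : T.Rel P ∅ r := by
  intro z hz hd
  refine ⟨T.cone a (r + 1) z, T.cone_In hP a ha hz, ?_⟩
  have h := T.cone_d_In a hz
  rw [T.In_empty hd, map_zero, add_zero] at h
  rw [h, sub_self]
  exact Submodule.zero_mem _

theorem rel_L1 {P Q P' : Set (Finset ι)} (hQ : IsLowerSet Q) (hP' : IsLowerSet P')
    (hsub : P' ⊆ P) {r : ℕ} (h1 : T.Rel P Q r) (h2 : T.RelP P' (P' ∩ Q) r) :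
    T.Rel P (Q ∪ P') r := by
  intro z hz hd
  have key : ∃ u ∈ T.In P' (r + 1), T.d r (z - u) ∈ T.In Q r := by
    cases r with
    | zero =>
      refine ⟨0, Submodule.zero_mem _, ?_⟩
      rw [T.zero0 (T.d 0 (z - 0))]
      exact Submodule.zero_mem _
    | succ r =>
      obtain ⟨x, hx, y, hy, hxy⟩ := T.In_split hd
      have hdd : T.d r (x + y) = 0 := by rw [hxy]; exact T.dd_In hz
      have hdy : T.d r y = -T.d r x := by
        rw [map_add] at hdd
        exact eq_neg_of_add_eq_zero_right hdd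
      have hdy' : T.d r y ∈ T.In (P' ∩ Q) r := by
        refine T.In_inter (T.d_In hP' hy) ?_
        rw [hdy]
        exact Submodule.neg_mem _ (T.d_In hQ hx)
      obtain ⟨u, hu, hv⟩ := h2 r rfl y hy hdy'
      refine ⟨u, hu, ?_⟩
      have e : T.d (r + 1) (z - u) = x + (y - T.d (r + 1) u) := by
        rw [map_sub, ← hxy]; abel
      rw [e]
      exact Submodule.add_mem _ hx (T.In_mono inter_subset_right _ hv)
  obtain ⟨u, hu, hdu⟩ := key
  obtain ⟨w, hw, hr⟩ := h1 (z - u) (Submodule.sub_mem _ hz (T.In_mono hsub _ hu)) hdu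
  refine ⟨w, hw, ?_⟩
  have e : z - T.d (r + 1) w = (z - u - T.d (r + 1) w) + u := by abel
  rw [e]
  exact Submodule.add_mem _ (T.In_mono subset_union_left _ hr)
    (T.In_mono subset_union_right _ hu)

theorem rel_L2 {P Q P' : Set (Finset ι)} (hQ : IsLowerSet Q) (hP' : IsLowerSet P')
    (hsub : P' ⊆ P) {r : ℕ} (h1 : T.Rel P Q r) (h2 : T.Rel P (Q ∪ P') (r + 1)) :
    T.Rel P' (P' ∩ Q) r := by
  intro z hz hd
  obtain ⟨w, hw, hx⟩ := h1 z (T.In_mono hsub _ hz) (T.In_mono inter_subset_right _ hd)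
  have hdw : T.d (r + 1) w ∈ T.In (Q ∪ P') (r + 1) := by
    have e : T.d (r + 1) w = z - (z - T.d (r + 1) w) := by abel
    rw [e]
    exact Submodule.sub_mem _ (T.In_mono subset_union_right _ hz)
      (T.In_mono subset_union_left _ hx)
  obtain ⟨u, hu, hab⟩ := h2 w hw hdw
  obtain ⟨a, ha, b, hb, e⟩ := T.In_split hab
  refine ⟨b, hb, T.In_inter (Submodule.sub_mem _ hz (T.d_In hP' hb)) ?_⟩
  have e2 : T.d (r + 1) a + T.d (r + 1) b = T.d (r + 1) w := by
    rw [← map_add, e, map_sub, T.dd_In hu, sub_zero]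
  have e3 : z - T.d (r + 1) b = (z - T.d (r + 1) w) + T.d (r + 1) a := by
    rw [← e2]; abel
  rw [e3]
  exact Submodule.add_mem _ hx (T.d_In hQ ha)

theorem rel_L3 {P Q P' : Set (Finset ι)} (hQ : IsLowerSet Q) (hP' : IsLowerSet P')
    (hsub : P' ⊆ P) {r : ℕ} (h1 : T.Rel P' (P' ∩ Q) r) (h2 : T.Rel P (Q ∪ P') r) :
    T.Rel P Q r := by
  intro z hz hd
  obtain ⟨w, hw, hab⟩ := h2 z hz (T.In_mono subset_union_left _ hd)
  obtain ⟨a, ha, b, hb, e⟩ := T.In_split hab
  have e2 : T.d r b = T.d r z - T.d r a := by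
    have : T.d r (a + b) = T.d r z := by rw [e, map_sub, T.dd_In hw, sub_zero]
    rw [← this, map_add]; abel
  have hdb : T.d r b ∈ T.In (P' ∩ Q) r := by
    refine T.In_inter (T.d_In hP' hb) ?_
    rw [e2]
    exact Submodule.sub_mem _ hd (T.d_In hQ ha)
  obtain ⟨u, hu, hv⟩ := h1 b hb hdb
  refine ⟨w + u, Submodule.add_mem _ hw (T.In_mono hsub _ hu), ?_⟩
  have e3 : z - T.d (r + 1) (w + u) = a + (b - T.d (r + 1) u) := by
    rw [map_add, ← sub_sub, ← e]; abel
  rw [e3]
  exact Submodule.add_mem _ ha (T.In_mono inter_subset_right _ hv)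

theorem rel_excise {A C : Set (Finset ι)} (hA : IsLowerSet A) (hC : IsLowerSet C) {r : ℕ}
    (h : T.Rel C (A ∩ C) r) : T.Rel (A ∪ C) A r := by
  intro z hz hd
  obtain ⟨a, ha, c, hc, e⟩ := T.In_split hz
  have hdc : T.d r c ∈ T.In (A ∩ C) r := by
    refine T.In_inter ?_ (T.d_In hC hc)
    have e2 : T.d r c = T.d r z - T.d r a := by rw [← e, map_add]; abel
    rw [e2]
    exact Submodule.sub_mem _ hd (T.d_In hA ha)
  obtain ⟨w, hw, hv⟩ := h c hc hdc
  refine ⟨w, T.In_mono subset_union_right _ hw, ?_⟩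
  have e3 : z - T.d (r + 1) w = a + (c - T.d (r + 1) w) := by rw [← e]; abel
  rw [e3]
  exact Submodule.add_mem _ ha (T.In_mono inter_subset_left _ hv)

theorem rel_attach {A C : Set (Finset ι)} (hA : IsLowerSet A) (hC : IsLowerSet C) {r : ℕ}
    (h2 : T.Rel C ∅ r) (h3 : T.RelP (A ∩ C) ∅ r) : T.Rel (A ∪ C) A r := by
  refine T.rel_excise hA hC ?_
  have := T.rel_L1 (P := C) (Q := ∅) (P' := A ∩ C) isLowerSet_empty (hA.inter hC)
    inter_subset_right h2 (by simpa using h3)
  simpa using this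

theorem rel_glue {A C : Set (Finset ι)} (hA : IsLowerSet A) (hC : IsLowerSet C) {r : ℕ}
    (h1 : T.Rel A ∅ r) (h2 : T.Rel C ∅ r) (h3 : T.RelP (A ∩ C) ∅ r) :
    T.Rel (A ∪ C) ∅ r := by
  refine T.rel_L3 (P' := A) isLowerSet_empty hA subset_union_left (by simpa using h1) ?_
  simpa using T.rel_attach hA hC h2 h3

theorem lower_le (S : Finset ι) : IsLowerSet {σ : Finset ι | σ ⊆ S} :=
  fun _ _ h h' => Finset.Subset.trans h h'

theorem lower_lt (S : Finset ι) : IsLowerSet {σ : Finset ι | σ ⊂ S} :=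
  fun _ _ h h' => Finset.ssubset_of_subset_of_ssubset h h'

theorem rel_simplex (S : Finset ι) (hS : S.Nonempty) (r : ℕ) : T.Rel {σ | σ ⊆ S} ∅ r := by
  obtain ⟨a, ha⟩ := hS
  exact T.rel_cone (lower_le S) a (fun σ hσ => Finset.insert_subset ha hσ) r

theorem rel_sphere (r : ℕ) : ∀ S : Finset ι, r + 1 < S.card → T.Rel {σ | σ ⊂ S} ∅ r := by
  induction r using Nat.strong_induction_on with
  | _ r ih =>
    intro S hS
    obtain ⟨v, hv⟩ : S.Nonempty := Finset.card_pos.mp (by omega)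
    have hcard : (S.erase v).card + 1 = S.card := Finset.card_erase_add_one hv
    have hC : IsLowerSet {σ : Finset ι | σ ⊆ S ∧ ¬ S.erase v ⊆ σ} :=
      fun _ _ h h' => ⟨Finset.Subset.trans h h'.1, fun h2 => h'.2 (Finset.Subset.trans h2 h)⟩
    have e1 : {σ : Finset ι | σ ⊂ S} =
        {σ | σ ⊆ S.erase v} ∪ {σ : Finset ι | σ ⊆ S ∧ ¬ S.erase v ⊆ σ} := by
      ext σ
      simp only [mem_setOf_eq, mem_union]
      constructor
      · intro h
        by_cases h2 : S.erase v ⊆ σ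
        · left
          intro x hx
          refine Finset.mem_erase.mpr ⟨?_, h.1 hx⟩
          rintro rfl
          refine h.2 (fun y hy => ?_)
          by_cases hyx : y = x
          · rw [hyx]; exact hx
          · exact h2 (Finset.mem_erase.mpr ⟨hyx, hy⟩)
        · exact Or.inr ⟨h.1, h2⟩
      · rintro (h | h)
        · exact Finset.ssubset_of_subset_of_ssubset h (Finset.erase_ssubset hv)
        · exact ⟨h.1, fun h2 => h.2 (Finset.Subset.trans (Finset.erase_subset v S) h2)⟩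
    have e2 : {σ : Finset ι | σ ⊆ S.erase v} ∩ {σ : Finset ι | σ ⊆ S ∧ ¬ S.erase v ⊆ σ} =
        {σ | σ ⊂ S.erase v} := by
      ext σ
      simp only [mem_setOf_eq, mem_inter_iff]
      constructor
      · intro h
        exact ⟨h.1, h.2.2⟩
      · intro h
        exact ⟨h.1, Finset.Subset.trans h.1 (Finset.erase_subset v S), h.2⟩
    rw [e1]
    refine T.rel_glue (lower_le _) hC (T.rel_simplex _ (Finset.card_pos.mp (by omega)) r) ?_ ?_
    · refine T.rel_cone hC v (fun σ hσ => ⟨Finset.insert_subset hv hσ.1, fun h => hσ.2 ?_⟩) r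
      intro x hx
      rcases Finset.mem_insert.mp (h hx) with h3 | h3
      · exact absurd h3 (Finset.mem_erase.mp hx).1
      · exact h3
    · intro r' hr'
      rw [e2]
      exact ih r' (by omega) _ (by omega)

theorem rel_low [Fintype ι] {Q : Set (Finset ι)} (hQ : IsLowerSet Q) (r : ℕ) (k : ℕ) :
    ∀ P : Set (Finset ι), IsLowerSet P → Q ⊆ P → (P \ Q).ncard = k →
      (∀ σ ∈ P, σ ∉ Q → r < σ.card) → T.Rel P Q r := by
  induction k with
  | zero =>
    intro P _ hsub hk _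
    have h0 : P \ Q = ∅ := (ncard_eq_zero (toFinite _)).mp hk
    have e : P = Q := Subset.antisymm (diff_eq_empty.mp h0) hsub
    rw [e]
    exact T.rel_self Q r
  | succ k ih =>
    intro P hP hsub hk hcard
    have hne : (P \ Q).Nonempty := nonempty_of_ncard_ne_zero (by omega)
    obtain ⟨S, hS, hmax⟩ := exists_max_image (P \ Q) Finset.card (toFinite _) hne
    have hP' : IsLowerSet (P \ {S}) := by
      intro σ τ hle hσ
      refine ⟨hP hle hσ.1, ?_⟩
      intro hτ
      have hτS : τ = S := hτ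
      have hσQ : σ ∉ Q := fun h => hS.2 (hτS ▸ hQ hle h)
      have h1 := hmax σ ⟨hσ.1, hσQ⟩
      have h2 : τ = σ := Finset.eq_of_subset_of_card_le hle (by rw [hτS]; exact h1)
      exact hσ.2 (by rw [← h2]; exact hτ)
    have hsub' : Q ⊆ P \ {S} := fun σ hσ => ⟨hsub hσ, fun h => hS.2 (by
      have h' : σ = S := h
      rw [← h']; exact hσ)⟩
    have hk' : ((P \ {S}) \ Q).ncard = k := by
      have e : (P \ {S}) \ Q = (P \ Q) \ {S} := by
        ext σ; simp only [mem_diff]; tauto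
      rw [e, ncard_diff_singleton_of_mem hS, hk]
      rfl
    have h1 := ih (P \ {S}) hP' hsub' hk' (fun σ hσ h => hcard σ hσ.1 h)
    have hSc := hcard S hS.1 hS.2
    have e1 : (P \ {S}) ∪ {σ | σ ⊆ S} = P := by
      ext σ
      simp only [mem_union, mem_diff, mem_singleton_iff, mem_setOf_eq]
      constructor
      · rintro (h | h)
        · exact h.1
        · exact hP h hS.1
      · intro h
        by_cases h2 : σ = S
        · right; rw [h2]
        · exact Or.inl ⟨h, h2⟩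
    have e2 : (P \ {S}) ∩ {σ | σ ⊆ S} = {σ | σ ⊂ S} := by
      ext σ
      simp only [mem_inter_iff, mem_diff, mem_singleton_iff, mem_setOf_eq]
      constructor
      · intro h
        exact Finset.ssubset_iff_subset_ne.mpr ⟨h.2, h.1.2⟩
      · intro h
        exact ⟨⟨hP h.1 hS.1, h.ne⟩, h.1⟩
    have h2 : T.Rel P (P \ {S}) r := by
      have := T.rel_attach hP' (lower_le S) (r := r)
        (T.rel_simplex S (Finset.card_pos.mp (by omega)) r) (by
          intro r' hr'
          rw [e2]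
          exact T.rel_sphere r' S (by omega))
      rw [e1] at this
      exact this
    refine T.rel_L3 (P' := P \ {S}) hQ hP' diff_subset ?_ ?_
    · rw [inter_eq_right.mpr hsub']
      exact h1
    · rw [union_eq_right.mpr hsub']
      exact h2

end CT

end Pool.Agent.Lib.MP_cef6bb_co
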