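import Pool.Agent.Lib.MP_cef6bb_co.Defs

/-! Cones and gluing for the combinatorial low connectivity notions. -/

namespace Pool.Agent.Lib.MP_cef6bb_co

open Set

/-- The three low levels packaged as one family. -/
def PL {ι : Type} [DecidableEq ι] (Γ : Type) [Group Γ] (G : ι → ι → Prop) :
    ℕ → Finset ι → Prop
  | 0, S => P0 (Ind G S)
  | 1, S => P1 (Ind G S)
  | _ + 2, S => P2 Γ (Ind G S)

section Aux

variable {ι : Type} [DecidableEq ι] {G : ι → ι → Prop}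

omit [DecidableEq ι] in
theorem ind_one (hi : ∀ a, ¬ G a a) {S : Finset ι} {a : ι} :
    ({a} : Finset ι) ∈ Ind G S ↔ a ∈ S := by
  simp [Ind, hi]

theorem ind_two (hs : ∀ a b, G a b → G b a) (hi : ∀ a, ¬ G a a) {S : Finset ι} {a b : ι} :
    ({a, b} : Finset ι) ∈ Ind G S ↔ a ∈ S ∧ b ∈ S ∧ ¬ G a b := by
  simp only [Ind, mem_ofPred_eq, Finset.insert_subset_iff, Finset.singleton_subset_iff,
    Finset.mem_insert, Finset.mem_singleton, forall_eq_or_imp, forall_eq]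
  constructor
  · rintro ⟨⟨h1, h2⟩, ⟨-, h3⟩, -⟩; exact ⟨h1, h2, h3⟩
  · rintro ⟨h1, h2, h3⟩; exact ⟨⟨h1, h2⟩, ⟨hi a, h3⟩, fun h => h3 (hs _ _ h), hi b⟩

theorem ind_three (hs : ∀ a b, G a b → G b a) (hi : ∀ a, ¬ G a a) {S : Finset ι} {a b d : ι}
    (ha : a ∈ S) (hb : b ∈ S) (hd : d ∈ S) (hab : ¬ G a b) (had : ¬ G a d) (hbd : ¬ G b d) :
    ({a, b, d} : Finset ι) ∈ Ind G S := by
  simp only [Ind, mem_ofPred_eq, Finset.insert_subset_iff, Finset.singleton_subset_iff,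
    Finset.mem_insert, Finset.mem_singleton, forall_eq_or_imp, forall_eq]
  exact ⟨⟨ha, hb, hd⟩, ⟨hi a, hab, had⟩, ⟨fun h => hab (hs _ _ h), hi b, hbd⟩,
    fun h => had (hs _ _ h), fun h => hbd (hs _ _ h), hi d⟩

omit [DecidableEq ι] in
theorem ind_mono {S T : Finset ι} (h : S ⊆ T) : Ind G S ⊆ Ind G T :=
  fun _ hσ => ⟨hσ.1.trans h, hσ.2⟩

theorem P1_cone (hs : ∀ a b, G a b → G b a) (hi : ∀ a, ¬ G a a) {S : Finset ι} {u : ι}
    (hu : u ∈ S) (hiso : ∀ w ∈ S, ¬ G u w) : P1 (Ind G S) := by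
  refine ⟨⟨u, (ind_one hi).2 hu⟩, fun φ hφ a b ha hb h => ?_⟩
  rw [ind_one hi] at ha hb
  exact hφ u b ((ind_two hs hi).2 ⟨hu, hb, hiso b hb⟩)
    (hφ a u ((ind_two hs hi).2 ⟨ha, hu, fun h => hiso a ha (hs _ _ h)⟩) h)

theorem P1_glue [DecidableRel G] (hs : ∀ a b, G a b → G b a) (hi : ∀ a, ¬ G a a) {S : Finset ι}
    {v : ι} (hv : v ∈ S) (h1 : P1 (Ind G (S.erase v)))
    (h2 : P0 (Ind G (S.filter (fun w => w ≠ v ∧ ¬ G v w)))) : P1 (Ind G S) := by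
  refine ⟨⟨v, (ind_one hi).2 hv⟩, fun φ hφ a b ha hb h => ?_⟩
  rw [ind_one hi] at ha hb
  obtain ⟨w, hw⟩ := h2
  rw [ind_one hi, Finset.mem_filter] at hw
  have key : ∀ a b, a ∈ S → a ≠ v → b ∈ S → b ≠ v → φ a → φ b := fun a b ha ha' hb hb' =>
    h1.2 φ (fun a b hab => hφ a b (ind_mono (Finset.erase_subset _ _) hab)) a b
      ((ind_one hi).2 (Finset.mem_erase.2 ⟨ha', ha⟩)) ((ind_one hi).2 (Finset.mem_erase.2 ⟨hb', hb⟩))
  have hw' : φ w := by
    by_cases hav : a = v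
    · exact hφ a w ((ind_two hs hi).2 ⟨ha, hw.1, hav ▸ hw.2.2⟩) h
    · exact key a w ha hav hw.1 hw.2.1 h
  by_cases hbv : b = v
  · exact hφ w b ((ind_two hs hi).2 ⟨hw.1, hb, fun h => hw.2.2 (hbv ▸ hs _ _ h)⟩) hw'
  · exact key w b hw.1 hw.2.1 hb hbv hw'

end Aux

theorem PL_cone {ι : Type} [DecidableEq ι] (Γ : Type) [Group Γ] (G : ι → ι → Prop)
    (hs : ∀ a b, G a b → G b a) (hi : ∀ a, ¬ G a a) (m : ℕ) (S : Finset ι) (u : ι)
    (hu : u ∈ S) (hiso : ∀ w ∈ S, ¬ G u w) : PL Γ G m S := by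
  rcases m with _ | _ | m
  · exact ⟨u, (ind_one hi).2 hu⟩
  · exact P1_cone hs hi hu hiso
  · refine ⟨P1_cone hs hi hu hiso, fun c hc => ⟨fun a => c u a, fun a b hab => ?_⟩⟩
    obtain ⟨ha, hb, h⟩ := (ind_two hs hi).1 hab
    exact eq_mul_inv_of_mul_eq (hc u a b (ind_three hs hi hu ha hb (hiso a ha) (hiso b hb) h))

theorem PL_glue {ι : Type} [DecidableEq ι] (Γ : Type) [Group Γ] (G : ι → ι → Prop)
    [DecidableRel G] (hs : ∀ a b, G a b → G b a) (hi : ∀ a, ¬ G a a) (m : ℕ) (S : Finset ι)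
    (v : ι) (hv : v ∈ S) (h1 : PL Γ G m (S.erase v))
    (h2 : ∀ m', m = m' + 1 → PL Γ G m' (S.filter (fun w => w ≠ v ∧ ¬ G v w))) :
    PL Γ G m S := by
  rcases m with _ | _ | m
  · exact ⟨v, (ind_one hi).2 hv⟩
  · exact P1_glue hs hi hv h1 (h2 0 rfl)
  have hl : P1 (Ind G (S.filter (fun w => w ≠ v ∧ ¬ G v w))) := by
    rcases m with _ | m
    · exact h2 1 rfl
    · exact (h2 (m + 2) rfl).1
  refine ⟨P1_glue hs hi hv h1.1 hl.1, fun c hc => ?_⟩
  obtain ⟨φ, hφ⟩ := h1.2 c fun a b d h => hc a b d (ind_mono (Finset.erase_subset _ _) h)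
  obtain ⟨w, hw⟩ := hl.1
  have hφ' : ∀ a b, a ∈ S → a ≠ v → b ∈ S → b ≠ v → ¬ G a b → c a b = φ b * (φ a)⁻¹ :=
    fun a b ha ha' hb hb' h => hφ a b ((ind_two hs hi).2
      ⟨Finset.mem_erase.2 ⟨ha', ha⟩, Finset.mem_erase.2 ⟨hb', hb⟩, h⟩)
  have key : ∀ a ∈ S, a ≠ v → ¬ G v a → (φ a)⁻¹ * c v a = (φ w)⁻¹ * c v w := by
    intro a ha ha' h
    refine hl.2 (fun a => (φ a)⁻¹ * c v a = (φ w)⁻¹ * c v w) (fun a b hab h => ?_) w a hw
      ((ind_one hi).2 (Finset.mem_filter.2 ⟨ha, ha', h⟩)) rfl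
    obtain ⟨ha, hb, hG⟩ := (ind_two hs hi).1 hab
    rw [Finset.mem_filter] at ha hb
    rw [← h, ← hc v a b (ind_three hs hi hv ha.1 hb.1 ha.2.2 hb.2.2 hG),
      hφ' a b ha.1 ha.2.1 hb.1 hb.2.1 hG]
    group
  have hdiag : ∀ a ∈ S, c a a = 1 := fun a ha => by
    have := hc a a a (ind_three hs hi ha ha ha (hi a) (hi a) (hi a))
    exact mul_eq_left.1 this
  refine ⟨Function.update φ v ((φ w)⁻¹ * c v w)⁻¹, fun a b hab => ?_⟩
  obtain ⟨ha, hb, hG⟩ := (ind_two hs hi).1 hab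
  by_cases hav : a = v
  · by_cases hbv : b = v
    · rw [hav, hbv, hdiag v hv, mul_inv_cancel]
    · subst hav
      rw [Function.update_self, Function.update_of_ne hbv, ← key b hb hbv hG]
      group
  · by_cases hbv : b = v
    · subst hbv
      have hG' : ¬ G b a := fun h => hG (hs _ _ h)
      have h3 := hc a b a (ind_three hs hi ha hb ha hG (hi a) hG')
      rw [hdiag a ha] at h3
      rw [Function.update_self, Function.update_of_ne hav, ← key a ha hav hG',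
        eq_inv_of_mul_eq_one_right h3]
      group
    · rw [Function.update_of_ne hav, Function.update_of_ne hbv]
      exact hφ' a b ha hav hb hbv hG

theorem joinedIn_Rl {ι : Type} [Fintype ι] [DecidableEq ι] {K : Set (Finset ι)}
    (hK : IsLowerSet K) {σ : Finset ι} (hσ : σ ∈ K) {x y : ι → ℝ}
    (hx : (∀ a, 0 ≤ x a) ∧ ∑ a, x a = 1) (hy : (∀ a, 0 ≤ y a) ∧ ∑ a, y a = 1)
    (hxσ : spt x ⊆ σ) (hyσ : spt y ⊆ σ) : JoinedIn (Rl K) x y := by
  refine JoinedIn.of_segment_subset ?_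
  rintro z ⟨s, t, hs, ht, hst, rfl⟩
  refine ⟨fun a => ?_, ?_, hK (fun a ha => ?_) hσ⟩
  · have := hx.1 a
    have := hy.1 a
    simp only [Pi.add_apply, Pi.smul_apply, smul_eq_mul]
    positivity
  · simp only [Pi.add_apply, Pi.smul_apply, smul_eq_mul, Finset.sum_add_distrib,
      ← Finset.mul_sum, hx.2, hy.2]
    linarith
  · by_contra h
    have h1 : x a = 0 := by
      by_contra h1; exact h (hxσ (by simpa [spt] using h1))
    have h2 : y a = 0 := by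
      by_contra h2; exact h (hyσ (by simpa [spt] using h2))
    simp [spt, h1, h2] at ha

theorem vtx_facts {ι : Type} [Fintype ι] [DecidableEq ι] (a : ι) :
    ((∀ b, 0 ≤ vtx a b) ∧ ∑ b, vtx a b = 1) ∧ spt (vtx a) ⊆ {a} := by
  refine ⟨⟨fun b => ?_, by simp [vtx]⟩, fun b hb => ?_⟩
  · by_cases h : b = a <;> simp [vtx, h]
  · by_contra h
    have : b ≠ a := by simpa using h
    simp [spt, vtx, this] at hb

/-- Combinatorial connectedness gives path connectedness. -/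
theorem pathConnected_of_P1 {ι : Type} [Fintype ι] [DecidableEq ι] (K : Set (Finset ι))
    (hK : IsLowerSet K) (h : P1 K) : IsPathConnected (Rl K) := by
  obtain ⟨a, ha⟩ := h.1
  refine ⟨vtx a, ⟨(vtx_facts a).1.1, (vtx_facts a).1.2, hK (vtx_facts a).2 ha⟩, fun {y} hy => ?_⟩
  obtain ⟨b, hb⟩ : ∃ b, b ∈ spt y := by
    by_contra h0
    push Not at h0
    have : ∑ b, y b = 0 := Finset.sum_eq_zero fun b _ => by simpa [spt] using h0 b
    rw [hy.2.1] at this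
    exact one_ne_zero this
  have hb' : ({b} : Finset ι) ⊆ spt y := Finset.singleton_subset_iff.2 hb
  have h1 : JoinedIn (Rl K) (vtx a) (vtx b) :=
    h.2 (fun b => JoinedIn (Rl K) (vtx a) (vtx b)) (fun b c hbc h => h.trans
      (joinedIn_Rl hK hbc (vtx_facts b).1 (vtx_facts c).1 ((vtx_facts b).2.trans (by simp))
        ((vtx_facts c).2.trans (by simp)))) a b ha (hK hb' hy.2.2)
      (joinedIn_Rl hK ha (vtx_facts a).1 (vtx_facts a).1 (vtx_facts a).2 (vtx_facts a).2)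
  exact h1.trans (joinedIn_Rl hK hy.2.2 (vtx_facts b).1 ⟨hy.1, hy.2.1⟩
    ((vtx_facts b).2.trans hb') subset_rfl)

end Pool.Agent.Lib.MP_cef6bb_co
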