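import Pool.Agent.Lib.MP_cef6bb_co.Defs

/-! Normalized cubical chains of labelled cubes form a chain theory with carriers. -/

namespace Pool.Agent.Lib.MP_cef6bb_co

open Set

section aux

variable {ι : Type}

/-- Coboundary of a function on cubes. -/
def cob {A : Type} [AddCommGroup A] {r : ℕ} (c : Cube ι r → A) (w : Cube ι (r + 1)) : A :=
  ∑ i : Fin (r + 1), (-1 : ℤ) ^ (i : ℕ) • (c (face i true w) - c (face i false w))

open Classical in
/-- The class of a cube in normalized chains. -/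
noncomputable def pc {r : ℕ} (w : Cube ι r) : Cube ι r →₀ ℤ :=
  if Degen w then 0 else Finsupp.single w 1

/-- Cone over a cube. -/
def cn (a : ι) {r : ℕ} (w : Cube ι r) : Cube ι (r + 1) :=
  fun b => if b 0 then w (Fin.tail b) else a

lemma map_cob {A A' : Type} [AddCommGroup A] [AddCommGroup A'] (L : A →ₗ[ℤ] A') {r : ℕ}
    (c : Cube ι r → A) (w : Cube ι (r + 1)) : L (cob c w) = cob (fun u => L (c u)) w := by
  simp only [cob, map_sum, map_zsmul, map_sub]

lemma pc_degen {r : ℕ} (w : Cube ι r) (h : Degen w) : pc w = 0 := by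
  unfold pc; rw [if_pos h]

lemma pc_good {r : ℕ} (w : Cube ι r) (h : ¬ Degen w) : pc w = Finsupp.single w 1 := by
  unfold pc; rw [if_neg h]

lemma ev_pc {A : Type} [AddCommGroup A] {r : ℕ} (c : Cube ι r → A)
    (hc : ∀ w, Degen w → c w = 0) (w : Cube ι r) :
    Finsupp.linearCombination ℤ c (pc w) = c w := by
  by_cases h : Degen w
  · rw [pc_degen w h, map_zero, hc w h]
  · rw [pc_good w h, Finsupp.linearCombination_single, one_smul]

lemma not_degen_zero (w : Cube ι 0) : ¬ Degen w := by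
  rintro ⟨i, _⟩
  exact i.elim0

lemma degen_const {r : ℕ} (a : ι) : Degen (fun _ => a : Cube ι (r + 1)) :=
  ⟨0, fun _ _ _ => rfl⟩

lemma face_degen {r : ℕ} (w : Cube ι (r + 1)) (i : Fin (r + 1)) (k : Fin r) (ε : Bool)
    (h : ∀ b b' : Fin (r + 1) → Bool, (∀ m, m ≠ i.succAbove k → b m = b' m) → w b = w b') :
    Degen (face i ε w) := by
  refine ⟨k, fun b b' hb => h _ _ fun m hm => ?_⟩
  cases m using Fin.succAboveCases i with
  | x => simp
  | p l =>
    simp only [Fin.insertNth_apply_succAbove]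
    exact hb l fun e => hm (by rw [e])

lemma cob_degen {A : Type} [AddCommGroup A] {r : ℕ} (c : Cube ι r → A)
    (hc : ∀ w, Degen w → c w = 0) (w : Cube ι (r + 1)) (h : Degen w) : cob c w = 0 := by
  obtain ⟨k, hk⟩ := h
  refine Finset.sum_eq_zero fun i _ => ?_
  by_cases e : k = i
  · subst e
    have : face k true w = face k false w := by
      funext b
      refine hk _ _ fun m hm => ?_
      obtain ⟨l, rfl⟩ := Fin.exists_succAbove_eq hm
      simp only [Fin.insertNth_apply_succAbove]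
    rw [this, sub_self, smul_zero]
  · obtain ⟨l, rfl⟩ := Fin.exists_succAbove_eq e
    rw [hc _ (face_degen w i l true hk), hc _ (face_degen w i l false hk), sub_self, smul_zero]

lemma face_face {r : ℕ} (w : Cube ι (r + 2)) (i : Fin (r + 2)) (j : Fin (r + 1)) (ε η : Bool) :
    face (j.predAbove i) ε (face (i.succAbove j) η w) = face j η (face i ε w) := by
  funext b
  unfold face
  refine congrArg w ?_
  funext m
  cases m using Fin.succAboveCases i with
  | x =>
    rw [Fin.insertNth_apply_same]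
    conv_lhs => rw [← Fin.succAbove_succAbove_predAbove i j]
    simp only [Fin.succAbove_succAbove_predAbove]
    have := Fin.insertNth_apply_succAbove (α := fun _ => Bool) (i.succAbove j) η
      (Fin.insertNth (α := fun _ => Bool) (j.predAbove i) ε b) (j.predAbove i)
    rw [Fin.succAbove_succAbove_predAbove] at this
    rw [this, Fin.insertNth_apply_same]
  | p l =>
    rw [Fin.insertNth_apply_succAbove]
    cases l using Fin.succAboveCases j with
    | x => rw [Fin.insertNth_apply_same, Fin.insertNth_apply_same]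
    | p k =>
      rw [Fin.insertNth_apply_succAbove, ← Fin.succAbove_succAbove_succAbove_predAbove,
        Fin.insertNth_apply_succAbove, Fin.insertNth_apply_succAbove]

lemma cob_cob {A : Type} [AddCommGroup A] {r : ℕ} (c : Cube ι r → A) (w : Cube ι (r + 2)) :
    cob (cob c) w = 0 := by
  let g : Fin (r + 2) × Fin (r + 1) → A := fun x =>
    (-1 : ℤ) ^ ((x.1 : ℕ) + (x.2 : ℕ)) •
      (c (face x.2 true (face x.1 true w)) - c (face x.2 false (face x.1 true w))
        - (c (face x.2 true (face x.1 false w)) - c (face x.2 false (face x.1 false w))))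
  have e : cob (cob c) w = ∑ x, g x := by
    rw [Fintype.sum_prod_type]
    unfold cob
    refine Finset.sum_congr rfl fun i _ => ?_
    rw [← Finset.sum_sub_distrib, Finset.smul_sum]
    refine Finset.sum_congr rfl fun j _ => ?_
    simp only [g, pow_add, mul_smul, smul_sub]
  rw [e]
  refine Finset.sum_involution (fun x _ => (x.1.succAbove x.2, x.2.predAbove x.1)) ?_ ?_
    (fun _ _ => Finset.mem_univ _) ?_
  · rintro ⟨i, j⟩ _
    simp only [g, face_face, Fin.neg_one_pow_succAbove_add_predAbove, neg_smul]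
    rw [← sub_eq_add_neg, ← smul_sub]
    have : c (face j true (face i true w)) - c (face j false (face i true w)) -
          (c (face j true (face i false w)) - c (face j false (face i false w))) -
        (c (face j true (face i true w)) - c (face j true (face i false w)) -
          (c (face j false (face i true w)) - c (face j false (face i false w)))) = 0 := by
      abel
    rw [this, smul_zero]
  · rintro ⟨i, j⟩ _ _ h
    exact Fin.succAbove_ne i j (congrArg Prod.fst h)
  · rintro ⟨i, j⟩ _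
    simp only [Fin.succAbove_succAbove_predAbove, Fin.predAbove_predAbove_succAbove]

lemma cn_degen (a : ι) {r : ℕ} (w : Cube ι r) (h : Degen w) : Degen (cn a w) := by
  obtain ⟨i, hi⟩ := h
  refine ⟨i.succ, fun b b' hb => ?_⟩
  unfold cn
  rw [hb 0 (Fin.succ_ne_zero i).symm]
  rw [hi (Fin.tail b) (Fin.tail b') fun k hk => hb k.succ fun e => hk (Fin.succ_injective _ e)]

lemma face_zero_true (a : ι) {r : ℕ} (w : Cube ι r) : face 0 true (cn a w) = w := by
  funext b
  simp [face, cn]

lemma face_zero_false (a : ι) {r : ℕ} (w : Cube ι r) : face 0 false (cn a w) = fun _ => a := by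
  funext b
  simp [face, cn]

lemma face_succ_cn (a : ι) {r : ℕ} (w : Cube ι (r + 1)) (i : Fin (r + 1)) (ε : Bool) :
    face i.succ ε (cn a w) = cn a (face i ε w) := by
  funext b
  rw [← Fin.cons_self_tail b]
  simp only [face, cn, Fin.insertNth_succ_cons, Fin.cons_zero, Fin.tail_cons]

lemma cob_cn {A : Type} [AddCommGroup A] {r : ℕ} (c : Cube ι (r + 1) → A) (a : ι)
    (w : Cube ι (r + 1)) :
    cob c (cn a w) + cob (fun u => c (cn a u)) w = c w - c (fun _ => a) := by
  unfold cob
  rw [Fin.sum_univ_succ, face_zero_true, face_zero_false, add_assoc, ← Finset.sum_add_distrib]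
  have : ∑ i : Fin (r + 1), ((-1 : ℤ) ^ ((i.succ : Fin (r + 2)) : ℕ) •
      (c (face i.succ true (cn a w)) - c (face i.succ false (cn a w))) +
      (-1 : ℤ) ^ (i : ℕ) • (c (cn a (face i true w)) - c (cn a (face i false w)))) = 0 := by
    refine Finset.sum_eq_zero fun i _ => ?_
    rw [face_succ_cn, face_succ_cn, Fin.val_succ, pow_succ, mul_neg, mul_one, neg_smul,
      neg_add_cancel]
  rw [this]
  simp

lemma cob_cn_zero {A : Type} [AddCommGroup A] (c : Cube ι 0 → A) (a : ι) (w : Cube ι 0) :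
    cob c (cn a w) = c w - c (fun _ => a) := by
  unfold cob
  rw [Fin.sum_univ_succ, face_zero_true, face_zero_false]
  simp

lemma labels_face [DecidableEq ι] {r : ℕ} (i : Fin (r + 1)) (ε : Bool) (w : Cube ι (r + 1)) :
    labels (face i ε w) ⊆ labels w := by
  intro x hx
  obtain ⟨b, _, rfl⟩ := Finset.mem_image.1 hx
  exact Finset.mem_image.2 ⟨_, Finset.mem_univ _, rfl⟩

lemma labels_cn [DecidableEq ι] {r : ℕ} (a : ι) (w : Cube ι r) :
    labels (cn a w) ⊆ insert a (labels w) := by
  intro x hx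
  obtain ⟨b, _, rfl⟩ := Finset.mem_image.1 hx
  unfold cn
  split_ifs
  · exact Finset.mem_insert_of_mem (Finset.mem_image.2 ⟨_, Finset.mem_univ _, rfl⟩)
  · exact Finset.mem_insert_self _ _

lemma pc_mem {r : ℕ} (P : Cube ι r → Prop) (w : Cube ι r) (h : P w) :
    pc w ∈ Finsupp.supported ℤ ℤ {u : Cube ι r | ¬ Degen u ∧ P u} := by
  by_cases hd : Degen w
  · rw [pc_degen w hd]; exact Submodule.zero_mem _
  · rw [pc_good w hd]
    exact Finsupp.single_mem_supported ℤ 1 ⟨hd, h⟩

lemma cob_pc_mem [DecidableEq ι] {r : ℕ} (w : Cube ι (r + 1)) :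
    cob pc w ∈ Finsupp.supported ℤ ℤ {u : Cube ι r | ¬ Degen u ∧ labels u ⊆ labels w} := by
  refine Submodule.sum_mem _ fun i _ => Submodule.smul_mem _ _ (Submodule.sub_mem _ ?_ ?_)
  · exact pc_mem (fun u => labels u ⊆ labels w) _ (labels_face i true w)
  · exact pc_mem (fun u => labels u ⊆ labels w) _ (labels_face i false w)

/-- A slice of the grid. -/
def slice {r : ℕ} (V : (Fin (r + 1) → ℤ) → ι) (i : Fin (r + 1)) (q : Fin r → ℤ) (t : ℤ) :
    Cube ι r :=
  fun b => V (Fin.insertNth (α := fun _ => ℤ) i t (fun l => q l + if b l then 1 else 0))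

lemma face_cell {r N : ℕ} (V : (Fin (r + 1) → ℤ) → ι) (i : Fin (r + 1)) (m : Fin N)
    (q : Fin r → Fin N) (ε : Bool) :
    face i ε (cell V (fun k => ((Fin.insertNth (α := fun _ => Fin N) i m q k : ℕ) : ℤ))) =
      slice V i (fun l => ((q l : ℕ) : ℤ)) (((m : ℕ) : ℤ) + if ε then 1 else 0) := by
  funext b
  unfold face cell slice
  refine congrArg V ?_
  funext k
  cases k using Fin.succAboveCases i with
  | x => simp only [Fin.insertNth_apply_same]
  | p l => simp only [Fin.insertNth_apply_succAbove]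

lemma sum_cob_cell {A : Type} [AddCommGroup A] {r : ℕ} (c : Cube ι (r + 1) → A)
    (hc : ∀ w, Degen w → c w = 0) (N : ℕ) (V : (Fin (r + 2) → ℤ) → ι) (a0 : ι)
    (hV : ∀ p : Fin (r + 2) → ℤ, (∃ i, p i = 0 ∨ p i = N) → V p = a0) :
    ∑ q : Fin (r + 2) → Fin N, cob c (cell V (fun i => ((q i : ℕ) : ℤ))) = 0 := by
  unfold cob
  rw [Finset.sum_comm]
  refine Finset.sum_eq_zero fun i _ => ?_
  rw [← Finset.smul_sum, ← (Fin.insertNthEquiv (fun _ => Fin N) i).sum_comp,
    Fintype.sum_prod_type, Finset.sum_comm]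
  have : ∀ q : Fin (r + 1) → Fin N, ∑ m : Fin N,
      (c (face i true (cell V (fun k => ((Fin.insertNth (α := fun _ => Fin N) i m q k : ℕ) : ℤ))))
      - c (face i false
        (cell V (fun k => ((Fin.insertNth (α := fun _ => Fin N) i m q k : ℕ) : ℤ))))) = 0 := by
    intro q
    let F : ℕ → A := fun t => c (slice V i (fun l => ((q l : ℕ) : ℤ)) (t : ℤ))
    have h1 : ∀ m : Fin N,
        c (face i true (cell V (fun k => ((Fin.insertNth (α := fun _ => Fin N) i m q k : ℕ) : ℤ))))
        - c (face i false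
          (cell V (fun k => ((Fin.insertNth (α := fun _ => Fin N) i m q k : ℕ) : ℤ)))) =
        F (m + 1) - F m := by
      intro m
      rw [face_cell, face_cell]
      simp [F]
    have h2 : ∀ t : ℕ, t = 0 ∨ t = N → F t = 0 := by
      intro t ht
      have : slice V i (fun l => ((q l : ℕ) : ℤ)) (t : ℤ) = fun _ => a0 := by
        funext b
        refine hV _ ⟨i, ?_⟩
        rw [Fin.insertNth_apply_same]
        rcases ht with ht | ht
        · left; rw [ht]; rfl
        · right; rw [ht]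
      simp only [F]
      rw [this]
      exact hc _ (degen_const a0)
    rw [Finset.sum_congr rfl fun m _ => h1 m,
      Fin.sum_univ_eq_sum_range (fun m => F (m + 1) - F m) N, Finset.sum_range_sub,
      h2 N (Or.inr rfl), h2 0 (Or.inl rfl), sub_self]
  have h0 : ∑ q : Fin (r + 1) → Fin N, ∑ m : Fin N,
      (c (face i true (cell V (fun k => ((Fin.insertNth (α := fun _ => Fin N) i m q k : ℕ) : ℤ))))
      - c (face i false
        (cell V (fun k => ((Fin.insertNth (α := fun _ => Fin N) i m q k : ℕ) : ℤ))))) = 0 :=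
    Finset.sum_eq_zero fun q _ => this q
  exact (congrArg _ h0).trans (smul_zero _)

lemma lc_single {X A : Type} [AddCommGroup A] (c : X → A) (x : X) :
    Finsupp.linearCombination ℤ c (Finsupp.single x 1) = c x := by
  rw [Finsupp.linearCombination_single, one_smul]

/-- Augmentation. -/
noncomputable def dA (ι : Type) : (Cube ι 0 →₀ ℤ) →ₗ[ℤ] (Unit →₀ ℤ) :=
  Finsupp.linearCombination ℤ (fun _ => Finsupp.single () 1)

/-- Normalized boundary. -/
noncomputable def dN (ι : Type) (r : ℕ) : (Cube ι (r + 1) →₀ ℤ) →ₗ[ℤ] (Cube ι r →₀ ℤ) :=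
  Finsupp.linearCombination ℤ (cob pc)

/-- Cone over the empty cell. -/
noncomputable def cA (a : ι) : (Unit →₀ ℤ) →ₗ[ℤ] (Cube ι 0 →₀ ℤ) :=
  Finsupp.linearCombination ℤ (fun _ => Finsupp.single (fun _ => a) 1)

/-- Normalized cone. -/
noncomputable def cN (a : ι) (r : ℕ) : (Cube ι r →₀ ℤ) →ₗ[ℤ] (Cube ι (r + 1) →₀ ℤ) :=
  Finsupp.linearCombination ℤ (fun w => pc (cn a w))

lemma dA_single (w : Cube ι 0) : dA ι (Finsupp.single w 1) = Finsupp.single () 1 := lc_single _ _

lemma dN_single {r : ℕ} (w : Cube ι (r + 1)) : dN ι r (Finsupp.single w 1) = cob pc w :=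
  lc_single _ _

lemma dN_pc {r : ℕ} (w : Cube ι (r + 1)) : dN ι r (pc w) = cob pc w :=
  ev_pc _ (cob_degen _ pc_degen) _

lemma cA_single (a : ι) (u : Unit) :
    cA a (Finsupp.single u 1) = Finsupp.single (fun _ => a) 1 := lc_single _ _

lemma cN_single (a : ι) {r : ℕ} (w : Cube ι r) : cN a r (Finsupp.single w 1) = pc (cn a w) :=
  lc_single _ _

lemma cN_pc (a : ι) {r : ℕ} (w : Cube ι r) : cN a r (pc w) = pc (cn a w) :=
  ev_pc _ (fun w hw => pc_degen _ (cn_degen a w hw)) _

lemma dN_mem [DecidableEq ι] {r : ℕ} (b : Cube ι (r + 1)) (b' : Cube ι r)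
    (h : b' ∈ (dN ι r (Finsupp.single b 1)).support) : ¬ Degen b' ∧ labels b' ⊆ labels b := by
  rw [dN_single] at h
  exact (Finsupp.mem_supported ℤ _).1 (cob_pc_mem b) h

lemma cA_mem [DecidableEq ι] (a : ι) (b : Unit) (b' : Cube ι 0)
    (h : b' ∈ (cA a (Finsupp.single b 1)).support) :
    ¬ Degen b' ∧ labels b' ⊆ insert a ∅ := by
  rw [cA_single] at h
  have := Finsupp.support_single_subset h
  rw [Finset.mem_singleton] at this
  subst this
  refine ⟨not_degen_zero _, fun x hx => ?_⟩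
  obtain ⟨_, _, rfl⟩ := Finset.mem_image.1 hx
  exact Finset.mem_insert_self _ _

lemma cN_mem [DecidableEq ι] (a : ι) {r : ℕ} (b : Cube ι r) (b' : Cube ι (r + 1))
    (h : b' ∈ (cN a r (Finsupp.single b 1)).support) :
    ¬ Degen b' ∧ labels b' ⊆ insert a (labels b) := by
  rw [cN_single] at h
  exact (Finsupp.mem_supported ℤ _).1
    (pc_mem (fun u => labels u ⊆ insert a (labels b)) _ (labels_cn a b)) h

lemma dA_dN (b : Cube ι 1) : dA ι (dN ι 0 (Finsupp.single b 1)) = 0 := by
  rw [dN_single, map_cob]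
  refine Finset.sum_eq_zero fun i _ => ?_
  simp only [pc_good _ (not_degen_zero _), dA_single, sub_self, smul_zero]

lemma dN_dN {r : ℕ} (b : Cube ι (r + 2)) : dN ι r (dN ι (r + 1) (Finsupp.single b 1)) = 0 := by
  rw [dN_single, map_cob]
  simp only [dN_pc]
  exact cob_cob _ _

lemma cone_zero (a : ι) (b : Unit) :
    dA ι (cA a (Finsupp.single b 1)) + 0 = Finsupp.single b 1 := by
  rw [cA_single, dA_single, add_zero]

lemma cone_one (a : ι) (b : Cube ι 0) :
    dN ι 0 (cN a 0 (Finsupp.single b 1)) + cA a (dA ι (Finsupp.single b 1)) =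
      Finsupp.single b 1 := by
  rw [cN_single, dN_pc, dA_single, cA_single, cob_cn_zero, pc_good _ (not_degen_zero _),
    pc_good _ (not_degen_zero _), sub_add_cancel]

lemma cone_succ (a : ι) {r : ℕ} (b : Cube ι (r + 1)) (hb : ¬ Degen b) :
    dN ι (r + 1) (cN a (r + 1) (Finsupp.single b 1)) + cN a r (dN ι r (Finsupp.single b 1)) =
      Finsupp.single b 1 := by
  rw [cN_single, dN_pc, dN_single, map_cob]
  simp only [cN_pc]
  rw [cob_cn, pc_degen _ (degen_const a), pc_good _ hb, sub_zero]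

/-- Cells of the cubical theory. -/
def cB (ι : Type) : ℕ → Type
  | 0 => Empty
  | 1 => Unit
  | (r + 2) => Cube ι r

/-- Nondegenerate cells. -/
def cGood (ι : Type) : ∀ r, cB ι r → Prop
  | 0 => fun _ => True
  | 1 => fun _ => True
  | (_ + 2) => fun w => ¬ Degen w

/-- Carrier of a cell. -/
def cSupp (ι : Type) [DecidableEq ι] : ∀ r, cB ι r → Finset ι
  | 0 => fun _ => ∅
  | 1 => fun _ => ∅
  | (_ + 2) => fun w => labels w

/-- Boundary. -/
noncomputable def cD (ι : Type) : ∀ r, (cB ι (r + 1) →₀ ℤ) →ₗ[ℤ] (cB ι r →₀ ℤ)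
  | 0 => 0
  | 1 => dA ι
  | (r + 2) => dN ι r

/-- Cone operator. -/
noncomputable def cCone (ι : Type) (a : ι) : ∀ r, (cB ι r →₀ ℤ) →ₗ[ℤ] (cB ι (r + 1) →₀ ℤ)
  | 0 => 0
  | 1 => cA a
  | (r + 2) => cN a r

/-- The cubical chain theory. -/
noncomputable def cubeCT (ι : Type) [DecidableEq ι] : CT ι where
  B := cB ι
  good := cGood ι
  supp := cSupp ι
  d := cD ι
  cone := cCone ι
  empty0 := inferInstanceAs (IsEmpty Empty)
  d_mem := fun r b _ b' hb' =>
    match r, b, b', hb' with
    | 0, _, b', _ => Empty.elim b'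
    | 1, _, _, _ => ⟨trivial, Finset.empty_subset _⟩
    | (_ + 2), b, b', hb' => dN_mem b b' hb'
  cone_mem := fun a r b _ b' hb' =>
    match r, b, b', hb' with
    | 0, b, _, _ => Empty.elim b
    | 1, b, b', hb' => cA_mem a b b' hb'
    | (_ + 2), b, b', hb' => cN_mem a b b' hb'
  dd := fun r b _ =>
    match r, b with
    | 0, _ => rfl
    | 1, b => dA_dN b
    | (_ + 2), b => dN_dN b
  cone_d := fun a r b hb =>
    match r, b, hb with
    | 0, b, _ => cone_zero a b
    | 1, b, _ => cone_one a b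
    | (_ + 2), b, hb => cone_succ a b hb

lemma final_step [DecidableEq ι] (K : Set (Finset ι)) (n : ℕ)
    (hrel : ∀ z ∈ Finsupp.supported ℤ ℤ {u : Cube ι (n + 2) | ¬ Degen u ∧ labels u ∈ K},
      dN ι (n + 1) z ∈ Finsupp.supported ℤ ℤ
        {u : Cube ι (n + 1) | ¬ Degen u ∧ labels u ∈ (∅ : Set (Finset ι))} →
      ∃ w ∈ Finsupp.supported ℤ ℤ {u : Cube ι (n + 3) | ¬ Degen u ∧ labels u ∈ K},
        z - dN ι (n + 2) w ∈ Finsupp.supported ℤ ℤ
          {u : Cube ι (n + 2) | ¬ Degen u ∧ labels u ∈ (∅ : Set (Finset ι))})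
    (A : Type) [AddCommGroup A] (c : Cube ι (n + 2) → A) (hc : ∀ w, Degen w → c w = 0)
    (hco : ∀ w : Cube ι (n + 3), labels w ∈ K → cob c w = 0)
    (N : ℕ) (V : (Fin (n + 2) → ℤ) → ι) (a0 : ι) (hK : ∀ q, labels (cell V q) ∈ K)
    (hV : ∀ p : Fin (n + 2) → ℤ, (∃ i, p i = 0 ∨ p i = N) → V p = a0) :
    ∑ q : Fin (n + 2) → Fin N, c (cell V (fun i => ((q i : ℕ) : ℤ))) = 0 := by
  let z : Cube ι (n + 2) →₀ ℤ := ∑ q : Fin (n + 2) → Fin N, pc (cell V (fun i => ((q i : ℕ) : ℤ)))
  have hz : z ∈ Finsupp.supported ℤ ℤ {u : Cube ι (n + 2) | ¬ Degen u ∧ labels u ∈ K} :=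
    Submodule.sum_mem _ fun q _ => pc_mem (fun u => labels u ∈ K) _ (hK _)
  have hdz : dN ι (n + 1) z = 0 := by
    simp only [z, map_sum, dN_pc]
    exact sum_cob_cell pc pc_degen N V a0 hV
  obtain ⟨w, hw, hzw⟩ := hrel z hz (by rw [hdz]; exact Submodule.zero_mem _)
  have h0 : z - dN ι (n + 2) w = 0 := by
    have := (Finsupp.mem_supported ℤ _).1 hzw
    rw [← Finsupp.support_eq_empty, Finset.eq_empty_iff_forall_notMem]
    intro x hx
    exact (this hx).2
  have h2 : Finsupp.linearCombination ℤ c z =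
      ∑ q : Fin (n + 2) → Fin N, c (cell V (fun i => ((q i : ℕ) : ℤ))) := by
    simp only [z, map_sum, ev_pc c hc]
  have h3 : dN ι (n + 2) w = ∑ u ∈ w.support, w u • cob pc u :=
    Finsupp.linearCombination_apply ℤ w
  rw [← h2, sub_eq_zero.1 h0, h3, map_sum]
  refine Finset.sum_eq_zero fun u hu => ?_
  rw [map_zsmul, map_cob]
  simp only [ev_pc c hc]
  rw [hco u ((Finsupp.mem_supported ℤ _).1 hw hu).2, smul_zero]

end aux

theorem exists_cubeCT (ι : Type) [DecidableEq ι] : ∃ T : CT ι,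
    ∀ (K : Set (Finset ι)) (_ : IsLowerSet K) (n : ℕ) (_ : T.Rel K ∅ (n + 3))
      (A : Type) [AddCommGroup A] (c : Cube ι (n + 2) → A)
      (_ : ∀ w, Degen w → c w = 0)
      (_ : ∀ w : Cube ι (n + 3), labels w ∈ K →
        ∑ i : Fin (n + 3), (-1 : ℤ) ^ (i : ℕ) • (c (face i true w) - c (face i false w)) = 0)
      (N : ℕ) (V : (Fin (n + 2) → ℤ) → ι) (a0 : ι)
      (_ : ∀ q, labels (cell V q) ∈ K)
      (_ : ∀ p : Fin (n + 2) → ℤ, (∃ i, p i = 0 ∨ p i = N) → V p = a0),
      ∑ q : Fin (n + 2) → Fin N, c (cell V (fun i => ((q i : ℕ) : ℤ))) = 0 := by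
  refine ⟨cubeCT ι, ?_⟩
  intro K _ n hrel A _ c hc hco N V a0 hK hV
  exact final_step K n hrel A c hc hco N V a0 hK hV

end Pool.Agent.Lib.MP_cef6bb_co
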