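import Mathlib

/-! Shared definitions for the matching complex problem. -/

namespace Pool.Agent.Lib.MP_cef6bb_co

open Set Metric

/-- Support of a point of `ι → ℝ`. -/
noncomputable def spt {ι : Type} [Fintype ι] (x : ι → ℝ) : Finset ι :=
  Finset.univ.filter (fun a => x a ≠ 0)

/-- Geometric realization of a family of faces. -/
def Rl {ι : Type} [Fintype ι] (K : Set (Finset ι)) : Set (ι → ℝ) :=
  {x | (∀ a, 0 ≤ x a) ∧ ∑ a, x a = 1 ∧ spt x ∈ K}

/-- The vertex of the standard simplex indexed by `a`. -/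
def vtx {ι : Type} [DecidableEq ι] (a : ι) : ι → ℝ := Pi.single a 1

/-- Every map of the unit sphere of `ℝ^d` into `X` extends over the unit ball. -/
def SExt {Y : Type} [TopologicalSpace Y] (d : ℕ) (X : Set Y) : Prop :=
  ∀ f : EuclideanSpace ℝ (Fin d) → Y, ContinuousOn f (sphere 0 1) → MapsTo f (sphere 0 1) X →
    ∃ F : EuclideanSpace ℝ (Fin d) → Y, ContinuousOn F (closedBall 0 1) ∧
      MapsTo F (closedBall 0 1) X ∧ EqOn F f (sphere 0 1)

/-- Independence complex of the relation `G` on the vertex set `S`. -/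
def Ind {ι : Type} (G : ι → ι → Prop) (S : Finset ι) : Set (Finset ι) :=
  {σ | σ ⊆ S ∧ ∀ a ∈ σ, ∀ b ∈ σ, ¬ G a b}

/-- Combinatorial nonemptiness. -/
def P0 {ι : Type} (K : Set (Finset ι)) : Prop := ∃ a, ({a} : Finset ι) ∈ K

/-- Combinatorial connectedness. -/
def P1 {ι : Type} [DecidableEq ι] (K : Set (Finset ι)) : Prop :=
  P0 K ∧ ∀ φ : ι → Prop, (∀ a b, ({a, b} : Finset ι) ∈ K → φ a → φ b) →
    ∀ a b, ({a} : Finset ι) ∈ K → ({b} : Finset ι) ∈ K → φ a → φ b

/-- Combinatorial simple connectedness, tested against the group `Γ`. -/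
def P2 {ι : Type} [DecidableEq ι] (Γ : Type) [Group Γ] (K : Set (Finset ι)) : Prop :=
  P1 K ∧ ∀ c : ι → ι → Γ,
    (∀ a b d, ({a, b, d} : Finset ι) ∈ K → c b d * c a b = c a d) →
    ∃ φ : ι → Γ, ∀ a b, ({a, b} : Finset ι) ∈ K → c a b = φ b * (φ a)⁻¹

/-- Labelled cubes. -/
abbrev Cube (ι : Type) (r : ℕ) : Type := (Fin r → Bool) → ι

/-- Face of a labelled cube. -/
def face {ι : Type} {r : ℕ} (i : Fin (r + 1)) (ε : Bool) (w : Cube ι (r + 1)) : Cube ι r :=
  fun b => w (Fin.insertNth (α := fun _ => Bool) i ε b)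

/-- A labelled cube is degenerate if it does not depend on some coordinate. -/
def Degen {ι : Type} {r : ℕ} (w : Cube ι r) : Prop :=
  ∃ i, ∀ b b' : Fin r → Bool, (∀ k, k ≠ i → b k = b' k) → w b = w b'

/-- The set of labels of a cube. -/
def labels {ι : Type} [DecidableEq ι] {r : ℕ} (w : Cube ι r) : Finset ι :=
  Finset.univ.image w

/-- The cell of a labelled integer grid with least corner `q`. -/
def cell {ι : Type} {r : ℕ} (V : (Fin r → ℤ) → ι) (q : Fin r → ℤ) : Cube ι r :=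
  fun b => V (fun i => q i + if b i then 1 else 0)

/-- An abstract augmented chain theory with carriers; `B (r + 1)` are the cells with `r`
vertices. -/
structure CT (ι : Type) [DecidableEq ι] where
  B : ℕ → Type
  good : ∀ r, B r → Prop
  supp : ∀ r, B r → Finset ι
  d : ∀ r, (B (r + 1) →₀ ℤ) →ₗ[ℤ] (B r →₀ ℤ)
  cone : ι → ∀ r, (B r →₀ ℤ) →ₗ[ℤ] (B (r + 1) →₀ ℤ)
  empty0 : IsEmpty (B 0)
  d_mem : ∀ r b, good (r + 1) b → ∀ b' ∈ (d r (Finsupp.single b 1)).support,
    good r b' ∧ supp r b' ⊆ supp (r + 1) b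
  cone_mem : ∀ a r b, good r b → ∀ b' ∈ (cone a r (Finsupp.single b 1)).support,
    good (r + 1) b' ∧ supp (r + 1) b' ⊆ insert a (supp r b)
  dd : ∀ r b, good (r + 2) b → d r (d (r + 1) (Finsupp.single b 1)) = 0
  cone_d : ∀ a r b, good (r + 1) b →
    d (r + 1) (cone a (r + 1) (Finsupp.single b 1)) + cone a r (d r (Finsupp.single b 1)) =
      Finsupp.single b 1

/-- Chains carried by the family `P`. -/
def CT.In {ι : Type} [DecidableEq ι] (T : CT ι) (P : Set (Finset ι)) (r : ℕ) :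
    Submodule ℤ (T.B r →₀ ℤ) :=
  Finsupp.supported ℤ ℤ {b | T.good r b ∧ T.supp r b ∈ P}

/-- Vanishing of the relative homology of `(P, Q)` for cells with `r` vertices. -/
def CT.Rel {ι : Type} [DecidableEq ι] (T : CT ι) (P Q : Set (Finset ι)) (r : ℕ) : Prop :=
  ∀ z ∈ T.In P (r + 1), T.d r z ∈ T.In Q r →
    ∃ w ∈ T.In P (r + 2), z - T.d (r + 1) w ∈ T.In Q (r + 1)

/-- Piecewise linear interpolation of a labelling of the integer grid. -/
noncomputable def gridmap {ι : Type} [DecidableEq ι] {n : ℕ} (V : (Fin n → ℤ) → ι)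
    (y : Fin n → ℝ) : ι → ℝ :=
  fun a => ∫ t in Ioo (0 : ℝ) 1, if V (fun i => ⌊y i + t⌋) = a then (1 : ℝ) else 0

open Classical in
/-- Homotopy class of a map of the cube that sends the boundary to the base point. -/
noncomputable def cl {X : Type} [TopologicalSpace X] (x0 : X) {n : ℕ}
    (φ : (Fin n → unitInterval) → X) : HomotopyGroup (Fin n) X x0 :=
  if h : Continuous φ ∧ ∀ t ∈ Cube.boundary (Fin n), φ t = x0 then
    Quotient.mk (GenLoop.Homotopic.setoid (Fin n) x0) ⟨⟨φ, h.1⟩, h.2⟩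
  else default

/-- The real number attached to a Boolean. -/
def br (ε : Bool) : ℝ := if ε then 1 else 0

end Pool.Agent.Lib.MP_cef6bb_co
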