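import Pool.Agent.Lib.MP_cef6bb_co.Loop

/-! Homotopy addition for maps of cubes. -/

namespace Pool.Agent.Lib.MP_cef6bb_co

open Set

variable {X : Type} [TopologicalSpace X] (x0 : X)

/-- A point of the unit cube. -/
def fdIn {m : ℕ} (y : Fin m → ℝ) : Prop := ∀ i, y i ∈ Icc (0 : ℝ) 1

/-- An end point of the unit interval. -/
def fdE (r : ℝ) : Prop := r = 0 ∨ r = 1

/-- The codimension two skeleton goes to the base point. -/
def fdH2 {m : ℕ} (F : (Fin m → ℝ) → X) : Prop :=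
  ∀ y : Fin m → ℝ, fdIn y → ∀ i k, i ≠ k → fdE (y i) → fdE (y k) → F y = x0

/-- Insert a coordinate. -/
def fdIns {m : ℕ} (k : Fin (m + 1)) (r : ℝ) (t : Fin m → ℝ) : Fin (m + 1) → ℝ :=
  Fin.insertNth (α := fun _ => ℝ) k r t

/-- The class of a face. -/
noncomputable def fdD {m : ℕ} (F : (Fin (m + 1) → ℝ) → X) (k : Fin (m + 1)) (ε : Bool) :
    HomotopyGroup (Fin m) X x0 :=
  cl x0 (fun t : Fin m → unitInterval => F (fdIns k (br ε) (fun j => (t j : ℝ))))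

/-- Change the two adjacent coordinates. -/
def fdPsi {m : ℕ} (i : Fin m) (p q : ℝ → ℝ → ℝ) (y : Fin (m + 1) → ℝ) : Fin (m + 1) → ℝ :=
  Function.update (Function.update y i.castSucc (p (y i.castSucc) (y i.succ))) i.succ
    (q (y i.castSucc) (y i.succ))

theorem fdIns_same {m : ℕ} (k : Fin (m + 1)) (r : ℝ) (t : Fin m → ℝ) : fdIns k r t k = r := by
  simp [fdIns]

theorem fdIns_succAbove {m : ℕ} (k : Fin (m + 1)) (r : ℝ) (t : Fin m → ℝ) (j : Fin m) :
    fdIns k r t (k.succAbove j) = t j := by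
  simp [fdIns]

theorem fdIns_cont {m : ℕ} {Z : Type} [TopologicalSpace Z] (k : Fin (m + 1)) (r : Z → ℝ)
    (t : Z → Fin m → ℝ) (hr : Continuous r) (ht : Continuous t) :
    Continuous (fun z => fdIns k (r z) (t z)) :=
  Continuous.finInsertNth (A := fun _ => ℝ) k hr ht

theorem fdIns_in {m : ℕ} (k : Fin (m + 1)) (r : ℝ) (t : Fin m → ℝ) (hr : r ∈ Icc (0 : ℝ) 1)
    (ht : fdIn t) : fdIn (fdIns k r t) := by
  intro j
  refine Fin.succAboveCases k ?_ (fun j => ?_) j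
  · rw [fdIns_same]; exact hr
  · rw [fdIns_succAbove]; exact ht j

theorem fd_br_E (ε : Bool) : fdE (br ε) := by
  cases ε <;> simp [fdE, br]

theorem fdE_mem {r : ℝ} (h : fdE r) : r ∈ Icc (0 : ℝ) 1 := by
  rcases h with h | h <;> simp [h]

theorem fd_coe_in {m : ℕ} (t : Fin m → unitInterval) : fdIn (fun j => (t j : ℝ)) :=
  fun j => (t j).2

theorem fd_coe_cont {m : ℕ} :
    Continuous (fun t : Fin m → unitInterval => (fun j => (t j : ℝ))) := by
  fun_prop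

theorem fd_bdry {m : ℕ} {t : Fin m → unitInterval} (ht : t ∈ Cube.boundary (Fin m)) :
    ∃ j, fdE (t j : ℝ) := by
  obtain ⟨j, hj⟩ := ht
  refine ⟨j, ?_⟩
  rcases hj with hj | hj
  · left; rw [hj]; rfl
  · right; rw [hj]; rfl

theorem fd_ne {m : ℕ} (i : Fin m) : i.castSucc ≠ i.succ := (Fin.castSucc_lt_succ).ne

theorem fdPsi_a {m : ℕ} (i : Fin m) (p q : ℝ → ℝ → ℝ) (y : Fin (m + 1) → ℝ) :
    fdPsi i p q y i.castSucc = p (y i.castSucc) (y i.succ) := by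
  simp [fdPsi, Function.update_of_ne (fd_ne i)]

theorem fdPsi_b {m : ℕ} (i : Fin m) (p q : ℝ → ℝ → ℝ) (y : Fin (m + 1) → ℝ) :
    fdPsi i p q y i.succ = q (y i.castSucc) (y i.succ) := by
  simp [fdPsi]

theorem fdPsi_o {m : ℕ} (i : Fin m) (p q : ℝ → ℝ → ℝ) (y : Fin (m + 1) → ℝ) (k : Fin (m + 1))
    (ha : k ≠ i.castSucc) (hb : k ≠ i.succ) : fdPsi i p q y k = y k := by
  simp [fdPsi, Function.update_of_ne ha, Function.update_of_ne hb]

theorem fd_sa_eq {m : ℕ} (i j : Fin m) (h : j ≠ i) :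
    i.castSucc.succAbove j = i.succ.succAbove j := by
  rcases lt_or_gt_of_ne h with h | h
  · rw [Fin.succAbove_castSucc_of_lt _ _ h, Fin.succAbove_succ_of_le _ _ h.le]
  · rw [Fin.succAbove_castSucc_of_le _ _ h.le, Fin.succAbove_succ_of_lt _ _ h]

theorem fd_cases {m : ℕ} (i : Fin m) (k : Fin (m + 1)) :
    k = i.castSucc ∨ k = i.succ ∨ ∃ j, j ≠ i ∧ k = i.castSucc.succAbove j := by
  refine Fin.succAboveCases i.castSucc ?_ (fun j => ?_) k
  · exact Or.inl rfl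
  · by_cases h : j = i
    · subst h
      right; left
      exact Fin.succAbove_castSucc_self j
    · exact Or.inr (Or.inr ⟨j, h, rfl⟩)

theorem fdIns_b_a {m : ℕ} (i : Fin m) (r : ℝ) (t : Fin m → ℝ) :
    fdIns i.succ r t i.castSucc = t i := by
  rw [← Fin.succAbove_succ_self, fdIns_succAbove]

theorem fdIns_a_b {m : ℕ} (i : Fin m) (r : ℝ) (t : Fin m → ℝ) :
    fdIns i.castSucc r t i.succ = t i := by
  rw [← Fin.succAbove_castSucc_self, fdIns_succAbove]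

theorem fdPsi_ins_a {m : ℕ} (i : Fin m) (p q : ℝ → ℝ → ℝ) (r : ℝ) (t : Fin m → ℝ) :
    fdPsi i p q (fdIns i.succ r t) =
      fdIns i.castSucc (p (t i) r) (Function.update t i (q (t i) r)) := by
  funext k
  rcases fd_cases i k with rfl | rfl | ⟨j, hj, rfl⟩
  · rw [fdPsi_a, fdIns_same, fdIns_same, fdIns_b_a]
  · rw [fdPsi_b, fdIns_same, fdIns_a_b, fdIns_b_a, Function.update_self]
  · rw [fdPsi_o _ _ _ _ _ (Fin.succAbove_ne _ _)
      (by rw [fd_sa_eq _ _ hj]; exact Fin.succAbove_ne _ _), fdIns_succAbove,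
      fd_sa_eq _ _ hj, fdIns_succAbove, Function.update_of_ne hj]

theorem fdPsi_ins_b {m : ℕ} (i : Fin m) (p q : ℝ → ℝ → ℝ) (r : ℝ) (t : Fin m → ℝ) :
    fdPsi i p q (fdIns i.succ r t) =
      fdIns i.succ (q (t i) r) (Function.update t i (p (t i) r)) := by
  funext k
  rcases fd_cases i k with rfl | rfl | ⟨j, hj, rfl⟩
  · rw [fdPsi_a, fdIns_same, fdIns_b_a, fdIns_b_a, Function.update_self]
  · rw [fdPsi_b, fdIns_same, fdIns_same, fdIns_b_a]
  · rw [fdPsi_o _ _ _ _ _ (Fin.succAbove_ne _ _)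
      (by rw [fd_sa_eq _ _ hj]; exact Fin.succAbove_ne _ _),
      fd_sa_eq _ _ hj, fdIns_succAbove, fdIns_succAbove, Function.update_of_ne hj]

theorem fdPsi_cont {m : ℕ} {Z : Type} [TopologicalSpace Z] (i : Fin m)
    (p q : Z → ℝ → ℝ → ℝ) (y : Z → Fin (m + 1) → ℝ)
    (hp : Continuous (fun z : Z × ℝ × ℝ => p z.1 z.2.1 z.2.2))
    (hq : Continuous (fun z : Z × ℝ × ℝ => q z.1 z.2.1 z.2.2)) (hy : Continuous y) :
    Continuous (fun z => fdPsi i (p z) (q z) (y z)) := by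
  have h3 : Continuous (fun z : Z => (z, y z i.castSucc, y z i.succ)) := by fun_prop
  exact (hy.update _ (hp.comp h3)).update _ (hq.comp h3)

/-- A pair of functions that maps the square to the square and the boundary to the boundary. -/
def fdSq (p q : ℝ → ℝ → ℝ) : Prop :=
  ∀ w ∈ Icc (0 : ℝ) 1, ∀ u ∈ Icc (0 : ℝ) 1, p w u ∈ Icc (0 : ℝ) 1 ∧ q w u ∈ Icc (0 : ℝ) 1 ∧
    (fdE w ∨ fdE u → fdE (p w u) ∨ fdE (q w u))

theorem fdPsi_in {m : ℕ} (i : Fin m) {p q : ℝ → ℝ → ℝ} (h : fdSq p q) {y : Fin (m + 1) → ℝ}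
    (hy : fdIn y) : fdIn (fdPsi i p q y) := by
  intro k
  by_cases ha : k = i.castSucc
  · rw [ha, fdPsi_a]; exact (h _ (hy _) _ (hy _)).1
  by_cases hb : k = i.succ
  · rw [hb, fdPsi_b]; exact (h _ (hy _) _ (hy _)).2.1
  rw [fdPsi_o _ _ _ _ _ ha hb]; exact hy k

theorem fdPsi_base {m : ℕ} (F : (Fin (m + 1) → ℝ) → X) (h2 : fdH2 x0 F) (i : Fin m)
    {p q : ℝ → ℝ → ℝ} (h : fdSq p q) {y : Fin (m + 1) → ℝ} (hy : fdIn y)
    (k l : Fin (m + 1)) (hkl : k ≠ l) (ha : k ≠ i.castSucc) (hb : k ≠ i.succ)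
    (hk : fdE (y k)) (hl : fdE (y l)) : F (fdPsi i p q y) = x0 := by
  have hk' : fdE (fdPsi i p q y k) := by rw [fdPsi_o _ _ _ _ _ ha hb]; exact hk
  by_cases hl' : l = i.castSucc ∨ l = i.succ
  · have : fdE (y i.castSucc) ∨ fdE (y i.succ) := by
      rcases hl' with rfl | rfl
      · exact Or.inl hl
      · exact Or.inr hl
    rcases (h _ (hy _) _ (hy _)).2.2 this with h' | h'
    · exact h2 _ (fdPsi_in i h hy) k _ ha hk' (by rw [fdPsi_a]; exact h')
    · exact h2 _ (fdPsi_in i h hy) k _ hb hk' (by rw [fdPsi_b]; exact h')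
  · rw [not_or] at hl'
    exact h2 _ (fdPsi_in i h hy) k l hkl hk' (by rw [fdPsi_o _ _ _ _ _ hl'.1 hl'.2]; exact hl)

theorem fdD_other {m : ℕ} (F : (Fin (m + 1) → ℝ) → X) (hF : Continuous F) (h2 : fdH2 x0 F)
    (i : Fin m) (p q : ℝ → ℝ → ℝ → ℝ)
    (hp : Continuous (fun z : ℝ × ℝ × ℝ => p z.1 z.2.1 z.2.2))
    (hq : Continuous (fun z : ℝ × ℝ × ℝ => q z.1 z.2.1 z.2.2))
    (h : ∀ s ∈ Icc (0 : ℝ) 1, fdSq (p s) (q s)) (k : Fin (m + 1)) (ha : k ≠ i.castSucc)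
    (hb : k ≠ i.succ) (ε : Bool) :
    fdD x0 (fun y => F (fdPsi i (p 0) (q 0) y)) k ε =
      fdD x0 (fun y => F (fdPsi i (p 1) (q 1) y)) k ε := by
  have h3 : Continuous (fun z : (unitInterval × (Fin m → unitInterval)) × ℝ × ℝ =>
      ((z.1.1 : ℝ), z.2.1, z.2.2)) := by fun_prop
  refine cl_homotopy x0 (fun z => F (fdPsi i (p z.1) (q z.1)
    (fdIns k (br ε) (fun j => (z.2 j : ℝ))))) ?_ ?_
  · refine hF.comp (fdPsi_cont i (fun z : unitInterval × (Fin m → unitInterval) => p z.1)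
      (fun z => q z.1) _ (hp.comp h3) (hq.comp h3) ?_)
    exact fdIns_cont k _ _ continuous_const (fd_coe_cont.comp continuous_snd)
  · intro s t ht
    obtain ⟨j, hj⟩ := fd_bdry ht
    refine fdPsi_base x0 F h2 i (h s s.2) (fdIns_in _ _ _ (fdE_mem (fd_br_E ε)) (fd_coe_in t))
      k (k.succAbove j) (Fin.succAbove_ne _ _).symm ha hb ?_ ?_
    · rw [fdIns_same]; exact fd_br_E ε
    · rw [fdIns_succAbove]; exact hj

/-- First coordinate of the folding map. -/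
noncomputable def fdP (w u : ℝ) : ℝ := (1 - u) * min (2 * w) 1 + u * max (2 * w - 1) 0

/-- Second coordinate of the folding map. -/
noncomputable def fdQ (w u : ℝ) : ℝ := (1 - u) * max (2 * w - 1) 0 + u * min (2 * w) 1

theorem fd_comb {a b s : ℝ} (ha : a ∈ Icc (0 : ℝ) 1) (hb : b ∈ Icc (0 : ℝ) 1)
    (hs : s ∈ Icc (0 : ℝ) 1) : (1 - s) * a + s * b ∈ Icc (0 : ℝ) 1 := by
  obtain ⟨a0, a1⟩ := ha
  obtain ⟨b0, b1⟩ := hb
  obtain ⟨s0, s1⟩ := hs
  constructor <;> nlinarith [mul_nonneg s0 b0, mul_nonneg (sub_nonneg.2 s1) a0,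
    mul_nonneg s0 (sub_nonneg.2 b1), mul_nonneg (sub_nonneg.2 s1) (sub_nonneg.2 a1)]

theorem fd_min_mem {w : ℝ} (hw : w ∈ Icc (0 : ℝ) 1) : min (2 * w) 1 ∈ Icc (0 : ℝ) 1 :=
  ⟨le_min (by linarith [hw.1]) zero_le_one, min_le_right _ _⟩

theorem fd_max_mem {w : ℝ} (hw : w ∈ Icc (0 : ℝ) 1) : max (2 * w - 1) 0 ∈ Icc (0 : ℝ) 1 :=
  ⟨le_max_right _ _, max_le (by linarith [hw.2]) zero_le_one⟩

theorem fdP_mem {w u : ℝ} (hw : w ∈ Icc (0 : ℝ) 1) (hu : u ∈ Icc (0 : ℝ) 1) :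
    fdP w u ∈ Icc (0 : ℝ) 1 := fd_comb (fd_min_mem hw) (fd_max_mem hw) hu

theorem fdQ_mem {w u : ℝ} (hw : w ∈ Icc (0 : ℝ) 1) (hu : u ∈ Icc (0 : ℝ) 1) :
    fdQ w u ∈ Icc (0 : ℝ) 1 := fd_comb (fd_max_mem hw) (fd_min_mem hw) hu

theorem fdPQ_end {w : ℝ} (hw : fdE w) (u : ℝ) : fdP w u = w ∧ fdQ w u = w := by
  rcases hw with rfl | rfl
  · constructor <;> norm_num [fdP, fdQ]
  · constructor <;> norm_num [fdP, fdQ]

theorem fdPQ_lo {w : ℝ} (hw : w ≤ 1 / 2) :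
    fdP w 0 = 2 * w ∧ fdQ w 0 = 0 ∧ fdP w 1 = 0 ∧ fdQ w 1 = 2 * w := by
  have e1 : min (2 * w) 1 = 2 * w := min_eq_left (by linarith)
  have e2 : max (2 * w - 1) 0 = 0 := max_eq_right (by linarith)
  simp [fdP, fdQ, e1, e2]

theorem fdPQ_hi {w : ℝ} (hw : 1 / 2 ≤ w) :
    fdP w 0 = 1 ∧ fdQ w 0 = 2 * w - 1 ∧ fdP w 1 = 2 * w - 1 ∧ fdQ w 1 = 1 := by
  have e1 : min (2 * w) 1 = 1 := min_eq_right (by linarith)
  have e2 : max (2 * w - 1) 0 = 2 * w - 1 := max_eq_left (by linarith)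
  simp [fdP, fdQ, e1, e2]

theorem fdSq_one (s : ℝ) (hs : s ∈ Icc (0 : ℝ) 1) :
    fdSq (fun w u => (1 - s) * w + s * fdP w u) (fun _ u => u) := by
  intro w hw u hu
  refine ⟨fd_comb hw (fdP_mem hw hu) hs, hu, ?_⟩
  rintro (h | h)
  · left
    have : (1 - s) * w + s * fdP w u = w := by rw [(fdPQ_end h u).1]; ring
    show fdE ((1 - s) * w + s * fdP w u)
    rw [this]; exact h
  · exact Or.inr h

theorem fdSq_two (s : ℝ) (hs : s ∈ Icc (0 : ℝ) 1) :
    fdSq fdP (fun w u => (1 - s) * u + s * fdQ w u) := by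
  intro w hw u hu
  refine ⟨fdP_mem hw hu, fd_comb hu (fdQ_mem hw hu) hs, ?_⟩
  rintro (h | h)
  · left
    rw [(fdPQ_end h u).1]; exact h
  · show fdE (fdP w u) ∨ fdE ((1 - s) * u + s * fdQ w u)
    rcases le_total w (1 / 2) with hw' | hw'
    · obtain ⟨_, e2, e3, _⟩ := fdPQ_lo hw'
      rcases h with rfl | rfl
      · right; left; rw [e2]; ring
      · left; left; exact e3
    · obtain ⟨e1, _, _, e4⟩ := fdPQ_hi hw'
      rcases h with rfl | rfl
      · left; right; exact e1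
      · right; right; rw [e4]; ring

theorem fdSq_PQ : fdSq fdP fdQ := by
  have := fdSq_two 1 ⟨zero_le_one, le_rfl⟩
  simpa using this

theorem fdP_cont : Continuous (fun z : ℝ × ℝ => fdP z.1 z.2) := by
  unfold fdP; fun_prop

theorem fdQ_cont : Continuous (fun z : ℝ × ℝ => fdQ z.1 z.2) := by
  unfold fdQ; fun_prop

/-- The folded map. -/
noncomputable def fdFold {m : ℕ} (i : Fin m) (F : (Fin (m + 1) → ℝ) → X) :
    (Fin (m + 1) → ℝ) → X := fun y => F (fdPsi i fdP fdQ y)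

theorem fdFold_cont {m : ℕ} (i : Fin m) (F : (Fin (m + 1) → ℝ) → X) (hF : Continuous F) :
    Continuous (fdFold i F) :=
  hF.comp (fdPsi_cont i (fun _ => fdP) (fun _ => fdQ) id (fdP_cont.comp continuous_snd)
    (fdQ_cont.comp continuous_snd) continuous_id)

theorem fdFold_a {m : ℕ} (i : Fin m) (F : (Fin (m + 1) → ℝ) → X) (h2 : fdH2 x0 F)
    (y : Fin (m + 1) → ℝ) (hy : fdIn y) (h : fdE (y i.castSucc)) : fdFold i F y = x0 := by
  refine h2 _ (fdPsi_in i fdSq_PQ hy) _ _ (fd_ne i) ?_ ?_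
  · rw [fdPsi_a, (fdPQ_end h _).1]; exact h
  · rw [fdPsi_b, (fdPQ_end h _).2]; exact h

theorem fdFold_h2 {m : ℕ} (i : Fin m) (F : (Fin (m + 1) → ℝ) → X) (h2 : fdH2 x0 F) :
    fdH2 x0 (fdFold i F) := by
  intro y hy k l hkl hk hl
  by_cases ka : k = i.castSucc
  · exact fdFold_a x0 i F h2 y hy (ka ▸ hk)
  by_cases la : l = i.castSucc
  · exact fdFold_a x0 i F h2 y hy (la ▸ hl)
  by_cases kb : k = i.succ
  · have lb : l ≠ i.succ := fun e => hkl (kb.trans e.symm)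
    exact fdPsi_base x0 F h2 i fdSq_PQ hy l k hkl.symm la lb hl hk
  · exact fdPsi_base x0 F h2 i fdSq_PQ hy k l hkl ka kb hk hl

theorem fdFold_other {m : ℕ} (i : Fin m) (F : (Fin (m + 1) → ℝ) → X) (hF : Continuous F)
    (h2 : fdH2 x0 F) (k : Fin (m + 1)) (ha : k ≠ i.castSucc) (hb : k ≠ i.succ) (ε : Bool) :
    fdD x0 (fdFold i F) k ε = fdD x0 F k ε := by
  have c1 : Continuous (fun z : ℝ × ℝ × ℝ => (1 - z.1) * z.2.1 + z.1 * fdP z.2.1 z.2.2) := by
    have := fdP_cont.comp (continuous_snd (X := ℝ) (Y := ℝ × ℝ))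
    exact ((continuous_const.sub continuous_fst).mul (continuous_fst.comp continuous_snd)).add
      (continuous_fst.mul this)
  have c2 : Continuous (fun z : ℝ × ℝ × ℝ => (1 - z.1) * z.2.2 + z.1 * fdQ z.2.1 z.2.2) := by
    have := fdQ_cont.comp (continuous_snd (X := ℝ) (Y := ℝ × ℝ))
    exact ((continuous_const.sub continuous_fst).mul (continuous_snd.comp continuous_snd)).add
      (continuous_fst.mul this)
  have e1 := fdD_other x0 F hF h2 i (fun s w u => (1 - s) * w + s * fdP w u) (fun _ _ u => u)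
    c1 (continuous_snd.comp continuous_snd) fdSq_one k ha hb ε
  have e2 := fdD_other x0 F hF h2 i (fun _ => fdP) (fun s w u => (1 - s) * u + s * fdQ w u)
    (fdP_cont.comp continuous_snd) c2 fdSq_two k ha hb ε
  have z0 : (fun y => F (fdPsi i (fun w u => (1 - 0) * w + 0 * fdP w u) (fun _ u => u) y)) = F := by
    funext y
    simp [fdPsi]
  have z1 : (fun w u : ℝ => (1 - 1) * w + 1 * fdP w u) = fdP := by
    funext w u; ring
  have z2 : (fun w u : ℝ => (1 - 0) * u + 0 * fdQ w u) = fun _ u => u := by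
    funext w u; ring
  have z3 : (fun w u : ℝ => (1 - 1) * u + 1 * fdQ w u) = fdQ := by
    funext w u; ring
  simp only [z0, z1] at e1
  simp only [z2, z3] at e2
  exact (e1.trans e2).symm

theorem fd_face_bd {m : ℕ} (F : (Fin (m + 1) → ℝ) → X) (h2 : fdH2 x0 F) (k : Fin (m + 1))
    (ε : Bool) (t : Fin m → unitInterval) (ht : t ∈ Cube.boundary (Fin m)) :
    F (fdIns k (br ε) (fun j => (t j : ℝ))) = x0 := by
  obtain ⟨j, hj⟩ := fd_bdry ht
  refine h2 _ (fdIns_in _ _ _ (fdE_mem (fd_br_E ε)) (fd_coe_in t)) k (k.succAbove j)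
    (Fin.succAbove_ne _ _).symm ?_ ?_
  · rw [fdIns_same]; exact fd_br_E ε
  · rw [fdIns_succAbove]; exact hj

theorem fdFold_true {n : ℕ} (i : Fin (n + 1)) (F : (Fin (n + 2) → ℝ) → X) (hF : Continuous F)
    (h2 : fdH2 x0 F) :
    fdD x0 (fdFold i F) i.succ true = fdD x0 F i.succ true * fdD x0 F i.castSucc false := by
  refine cl_concat x0 i (fun y => F (fdIns i.castSucc (br false) y))
    (fun y => F (fdIns i.succ (br true) y)) (fun y => fdFold i F (fdIns i.succ (br true) y))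
    (hF.comp (fdIns_cont _ _ _ continuous_const continuous_id))
    (hF.comp (fdIns_cont _ _ _ continuous_const continuous_id))
    (fd_face_bd x0 F h2 _ _) (fd_face_bd x0 F h2 _ _) ?_ ?_
  · intro y _ hy
    obtain ⟨_, _, e3, e4⟩ := fdPQ_lo hy
    show F (fdPsi i fdP fdQ (fdIns i.succ 1 y)) = F (fdIns i.castSucc 0 _)
    rw [fdPsi_ins_a, e3, e4]
  · intro y _ hy
    obtain ⟨_, _, e3, e4⟩ := fdPQ_hi hy
    show F (fdPsi i fdP fdQ (fdIns i.succ 1 y)) = F (fdIns i.succ 1 _)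
    rw [fdPsi_ins_b, e3, e4]

theorem fdFold_false {n : ℕ} (i : Fin (n + 1)) (F : (Fin (n + 2) → ℝ) → X) (hF : Continuous F)
    (h2 : fdH2 x0 F) :
    fdD x0 (fdFold i F) i.succ false = fdD x0 F i.castSucc true * fdD x0 F i.succ false := by
  refine cl_concat x0 i (fun y => F (fdIns i.succ (br false) y))
    (fun y => F (fdIns i.castSucc (br true) y)) (fun y => fdFold i F (fdIns i.succ (br false) y))
    (hF.comp (fdIns_cont _ _ _ continuous_const continuous_id))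
    (hF.comp (fdIns_cont _ _ _ continuous_const continuous_id))
    (fd_face_bd x0 F h2 _ _) (fd_face_bd x0 F h2 _ _) ?_ ?_
  · intro y _ hy
    obtain ⟨e1, e2, _, _⟩ := fdPQ_lo hy
    show F (fdPsi i fdP fdQ (fdIns i.succ 0 y)) = F (fdIns i.succ 0 _)
    rw [fdPsi_ins_b, e1, e2]
  · intro y _ hy
    obtain ⟨e1, e2, _, _⟩ := fdPQ_hi hy
    show F (fdPsi i fdP fdQ (fdIns i.succ 0 y)) = F (fdIns i.castSucc 1 _)
    rw [fdPsi_ins_a, e1, e2]

/-- The faces in the directions below `r` go to the base point. -/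
def fdLow {m : ℕ} (r : ℕ) (F : (Fin m → ℝ) → X) : Prop :=
  ∀ y : Fin m → ℝ, fdIn y → ∀ k : Fin m, (k : ℕ) < r → fdE (y k) → F y = x0

theorem fdFold_low {m : ℕ} (i : Fin m) (F : (Fin (m + 1) → ℝ) → X) (h2 : fdH2 x0 F)
    (hl : fdLow x0 (i : ℕ) F) : fdLow x0 ((i : ℕ) + 1) (fdFold i F) := by
  intro y hy k hk he
  by_cases ka : k = i.castSucc
  · exact fdFold_a x0 i F h2 y hy (ka ▸ he)
  have ka' : (k : ℕ) ≠ i := fun e => ka (Fin.ext e)
  have kb : k ≠ i.succ := by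
    intro e
    rw [e, Fin.val_succ] at hk
    omega
  refine hl _ (fdPsi_in i fdSq_PQ hy) k (by omega) ?_
  rw [fdPsi_o _ _ _ _ _ ka kb]; exact he

theorem fdD_low {n : ℕ} (r : ℕ) (F : (Fin (n + 2) → ℝ) → X) (hl : fdLow x0 r F)
    (k : Fin (n + 2)) (hk : (k : ℕ) < r) (ε : Bool) : fdD x0 F k ε = 1 := by
  rw [← cl_const x0]
  unfold fdD
  congr 1
  funext t
  refine hl _ (fdIns_in _ _ _ (fdE_mem (fd_br_E ε)) (fd_coe_in t)) k hk ?_
  rw [fdIns_same]; exact fd_br_E ε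

theorem fdD_last {m : ℕ} (F : (Fin (m + 1) → ℝ) → X) (hF : Continuous F) (hl : fdLow x0 m F) :
    fdD x0 F (Fin.last m) false = fdD x0 F (Fin.last m) true := by
  refine cl_homotopy x0 (fun z => F (fdIns (Fin.last m) (z.1 : ℝ) (fun j => (z.2 j : ℝ)))) ?_ ?_
  · exact hF.comp (fdIns_cont _ _ _ (continuous_subtype_val.comp continuous_fst)
      (fd_coe_cont.comp continuous_snd))
  · intro s t ht
    obtain ⟨j, hj⟩ := fd_bdry ht
    refine hl _ (fdIns_in _ _ _ s.2 (fd_coe_in t)) ((Fin.last m).succAbove j) ?_ ?_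
    · rw [Fin.succAbove_last]; exact j.2
    · rw [fdIns_succAbove]; exact hj

/-- Homotopy addition for a square. -/
theorem hal_one (F : (Fin 2 → ℝ) → X) (hF : Continuous F)
    (h2 : ∀ y : Fin 2 → ℝ, (y 0 = 0 ∨ y 0 = 1) → (y 1 = 0 ∨ y 1 = 1) → F y = x0) :
    cl x0 (fun t : Fin 1 → unitInterval =>
        F (Fin.insertNth (α := fun _ => ℝ) 1 (br true) (fun k => (t k : ℝ)))) *
      cl x0 (fun t : Fin 1 → unitInterval =>
        F (Fin.insertNth (α := fun _ => ℝ) 0 (br false) (fun k => (t k : ℝ)))) =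
    cl x0 (fun t : Fin 1 → unitInterval =>
        F (Fin.insertNth (α := fun _ => ℝ) 0 (br true) (fun k => (t k : ℝ)))) *
      cl x0 (fun t : Fin 1 → unitInterval =>
        F (Fin.insertNth (α := fun _ => ℝ) 1 (br false) (fun k => (t k : ℝ)))) := by
  have h2' : fdH2 x0 F := by
    intro y _ i k hik hi hk
    fin_cases i <;> fin_cases k
    · exact absurd rfl hik
    · exact h2 y hi hk
    · exact h2 y hk hi
    · exact absurd rfl hik
  have e1 := fdFold_true x0 (0 : Fin 1) F hF h2'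
  have e2 := fdFold_false x0 (0 : Fin 1) F hF h2'
  have e3 := fdD_last x0 (fdFold (0 : Fin 1) F) (fdFold_cont _ F hF)
    (fdFold_low x0 (0 : Fin 1) F h2' (fun _ _ _ hk => absurd hk (Nat.not_lt_zero _)))
  exact e1.symm.trans (e3.symm.trans e2)

/-- The alternating sum of the faces. -/
noncomputable def fdS {n : ℕ} (F : (Fin (n + 3) → ℝ) → X) :
    Additive (HomotopyGroup (Fin (n + 2)) X x0) :=
  ∑ i : Fin (n + 3), (-1 : ℤ) ^ (i : ℕ) •
    (Additive.ofMul (fdD x0 F i true) - Additive.ofMul (fdD x0 F i false))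

theorem fdS_fold {n : ℕ} (i : Fin (n + 2)) (F : (Fin (n + 3) → ℝ) → X) (hF : Continuous F)
    (h2 : fdH2 x0 F) (hl : fdLow x0 (i : ℕ) F) : fdS x0 (fdFold i F) = fdS x0 F := by
  have hl' := fdFold_low x0 i F h2 hl
  unfold fdS
  rw [← sub_eq_zero, ← Finset.sum_sub_distrib,
    Finset.sum_eq_add_of_mem i.castSucc i.succ (Finset.mem_univ _) (Finset.mem_univ _) (fd_ne i)]
  · rw [fdD_low x0 _ _ hl' i.castSucc (by simp) true, fdD_low x0 _ _ hl' i.castSucc (by simp) false,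
      fdFold_true x0 i F hF h2, fdFold_false x0 i F hF h2, ofMul_mul, ofMul_mul, Fin.val_succ,
      Fin.val_castSucc, pow_succ]
    module
  · intro k _ hk
    rw [fdFold_other x0 i F hF h2 k hk.1 hk.2, fdFold_other x0 i F hF h2 k hk.1 hk.2, sub_self]

theorem fdS_zero {n : ℕ} (r : ℕ) : ∀ s : ℕ, s + r = n + 2 → ∀ F : (Fin (n + 3) → ℝ) → X,
    Continuous F → fdH2 x0 F → fdLow x0 s F → fdS x0 F = 0 := by
  induction r with
  | zero =>
    intro s hs F hF _ hl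
    have hs' : s = n + 2 := by omega
    subst hs'
    unfold fdS
    refine Finset.sum_eq_zero (fun k _ => ?_)
    by_cases hk : k = Fin.last _
    · rw [hk, fdD_last x0 F hF hl, sub_self, smul_zero]
    · have : (k : ℕ) < n + 2 := Fin.val_lt_last hk
      rw [fdD_low x0 _ F hl k this, fdD_low x0 _ F hl k this, sub_self, smul_zero]
  | succ r ih =>
    intro s hs F hF h2 hl
    have hs' : s < n + 2 := by omega
    rw [← fdS_fold x0 ⟨s, hs'⟩ F hF h2 hl]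
    exact ih (s + 1) (by omega) _ (fdFold_cont _ F hF) (fdFold_h2 x0 _ F h2)
      (fdFold_low x0 ⟨s, hs'⟩ F h2 hl)

/-- Homotopy addition for a cube of dimension at least three. -/
theorem hal_comm {n : ℕ} (F : (Fin (n + 3) → ℝ) → X) (hF : Continuous F)
    (h2 : ∀ y : Fin (n + 3) → ℝ, (∀ i, y i ∈ Icc (0 : ℝ) 1) → ∀ i k, i ≠ k →
      (y i = 0 ∨ y i = 1) → (y k = 0 ∨ y k = 1) → F y = x0) :
    ∑ i : Fin (n + 3), (-1 : ℤ) ^ (i : ℕ) •
      (Additive.ofMul (cl x0 (fun t : Fin (n + 2) → unitInterval =>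
          F (Fin.insertNth (α := fun _ => ℝ) i (br true) (fun k => (t k : ℝ))))) -
        Additive.ofMul (cl x0 (fun t : Fin (n + 2) → unitInterval =>
          F (Fin.insertNth (α := fun _ => ℝ) i (br false) (fun k => (t k : ℝ)))))) = 0 :=
  fdS_zero x0 (n + 2) 0 (by omega) F hF h2 (fun _ _ _ hk => absurd hk (Nat.not_lt_zero _))

end Pool.Agent.Lib.MP_cef6bb_co
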