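import Pool.Agent.Lib.MP_cef6bb_co.Defs

/-! The vector representation bound by vertex deletion. -/

namespace Pool.Agent.Lib.MP_cef6bb_co

open Set

/-- Positive semidefiniteness passes to a subset of the index set. -/
theorem game_psd_sub {ι : Type} [DecidableEq ι] (S T : Finset ι) (hT : T ⊆ S) (M : ι → ι → ℝ)
    (hpsd : ∀ y : ι → ℝ, 0 ≤ ∑ a ∈ S, ∑ b ∈ S, y a * M a b * y b) (y : ι → ℝ) :
    0 ≤ ∑ a ∈ T, ∑ b ∈ T, y a * M a b * y b := by
  have h := hpsd (fun a => if a ∈ T then y a else 0)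
  have e : ∑ a ∈ S, ∑ b ∈ S, (if a ∈ T then y a else 0) * M a b * (if b ∈ T then y b else 0) =
      ∑ a ∈ T, ∑ b ∈ T, y a * M a b * y b := by
    rw [← Finset.sum_subset hT]
    · refine Finset.sum_congr rfl (fun a ha => ?_)
      rw [← Finset.sum_subset hT]
      · refine Finset.sum_congr rfl (fun b hb => ?_)
        rw [if_pos ha, if_pos hb]
      · intro b _ hb
        rw [if_neg hb, mul_zero]
    · intro a _ ha
      refine Finset.sum_eq_zero (fun b _ => ?_)
      rw [if_neg ha, zero_mul, zero_mul]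
  rw [e] at h
  exact h

/-- A vector on which a positive semidefinite form vanishes lies in the kernel. -/
theorem game_ker {ι : Type} [DecidableEq ι] (S : Finset ι) (M : ι → ι → ℝ)
    (hsymm : ∀ a b, M a b = M b a)
    (hpsd : ∀ y : ι → ℝ, 0 ≤ ∑ a ∈ S, ∑ b ∈ S, y a * M a b * y b) (y : ι → ℝ)
    (hy : ∑ a ∈ S, ∑ b ∈ S, y a * M a b * y b = 0) (w : ι) (hw : w ∈ S) :
    ∑ b ∈ S, M w b * y b = 0 := by
  set c := ∑ b ∈ S, M w b * y b with hc
  have key : ∀ t : ℝ, 0 ≤ M w w * (t * t) + (2 * c) * t + 0 := by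
    intro t
    have h := hpsd (fun a => y a + if a = w then t else 0)
    have e1 : ∀ a, ∑ b ∈ S, (y a + if a = w then t else 0) * M a b * (y b + if b = w then t else 0)
        = ∑ b ∈ S, y a * M a b * y b + y a * M a w * t +
          (if a = w then t * c + t * M w w * t else 0) := by
      intro a
      have e2 : ∀ b, (y a + if a = w then t else 0) * M a b * (y b + if b = w then t else 0) =
          (y a + if a = w then t else 0) * M a b * y b +
            (if b = w then (y a + if a = w then t else 0) * M a w * t else 0) := by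
        intro b
        by_cases hb : b = w
        · rw [if_pos hb, if_pos hb, hb]; ring
        · rw [if_neg hb, if_neg hb]; ring
      rw [Finset.sum_congr rfl (fun b _ => e2 b), Finset.sum_add_distrib, Finset.sum_ite_eq' S w,
        if_pos hw]
      by_cases ha : a = w
      · rw [if_pos ha, if_pos ha, ha, hc, Finset.mul_sum]
        have e3 : ∀ b, (y w + t) * M w b * y b = y w * M w b * y b + t * (M w b * y b) := by
          intro b; ring
        rw [Finset.sum_congr rfl (fun b _ => e3 b), Finset.sum_add_distrib]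
        ring
      · rw [if_neg ha, if_neg ha]
        simp only [add_zero]
    rw [Finset.sum_congr rfl (fun a _ => e1 a), Finset.sum_add_distrib, Finset.sum_add_distrib,
      hy, Finset.sum_ite_eq' S w, if_pos hw] at h
    have e4 : ∑ a ∈ S, y a * M a w * t = c * t := by
      rw [hc, Finset.sum_mul]
      refine Finset.sum_congr rfl (fun a _ => ?_)
      rw [hsymm a w]; ring
    rw [e4] at h
    linarith
  have hd := discrim_le_zero key
  unfold discrim at hd
  have h2 : c ^ 2 ≤ 0 := by nlinarith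
  exact pow_eq_zero_iff (two_ne_zero) |>.1 (le_antisymm h2 (sq_nonneg c))

/-- The minimum of a quadratic form on the unit sphere. -/
theorem game_min {ι : Type} [Fintype ι] [DecidableEq ι] (S : Finset ι) (hS : S.Nonempty)
    (M : ι → ι → ℝ) :
    ∃ y : ι → ℝ, ∑ a ∈ S, y a ^ 2 = 1 ∧ ∀ z : ι → ℝ,
      (∑ a ∈ S, ∑ b ∈ S, y a * M a b * y b) * ∑ a ∈ S, z a ^ 2 ≤
        ∑ a ∈ S, ∑ b ∈ S, z a * M a b * z b := by
  let K : Set (ι → ℝ) := Metric.closedBall 0 1 ∩ {y | ∑ a ∈ S, y a ^ 2 = 1}
  have hK : IsCompact K := by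
    refine (isCompact_closedBall (0 : ι → ℝ) 1).inter_right ?_
    exact isClosed_eq (by fun_prop) continuous_const
  have hmem : ∀ z : ι → ℝ, ∑ a ∈ S, z a ^ 2 = 1 → (fun a => if a ∈ S then z a else 0) ∈ K := by
    intro z hz
    refine ⟨?_, ?_⟩
    · rw [mem_closedBall_zero_iff, pi_norm_le_iff_of_nonneg zero_le_one]
      intro a
      by_cases ha : a ∈ S
      · simp only [if_pos ha]
        have h1 : z a ^ 2 ≤ 1 := by
          rw [← hz]
          exact Finset.single_le_sum (f := fun a => z a ^ 2) (fun b _ => sq_nonneg _) ha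
        rw [Real.norm_eq_abs]
        exact (sq_le_one_iff_abs_le_one _).1 h1
      · simp only [if_neg ha]
        simp
    · show ∑ a ∈ S, (if a ∈ S then z a else 0) ^ 2 = 1
      rw [← hz]
      refine Finset.sum_congr rfl (fun a ha => ?_)
      rw [if_pos ha]
  have hne : K.Nonempty := by
    obtain ⟨a0, ha0⟩ := hS
    refine ⟨_, hmem (fun a => if a = a0 then 1 else 0) ?_⟩
    have e : ∀ a, (if a = a0 then (1 : ℝ) else 0) ^ 2 = if a = a0 then 1 else 0 := by
      intro a
      by_cases h : a = a0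
      · rw [if_pos h]; ring
      · rw [if_neg h]; ring
    rw [Finset.sum_congr rfl (fun a _ => e a), Finset.sum_ite_eq' S a0, if_pos ha0]
  have hcont : Continuous (fun y : ι → ℝ => ∑ a ∈ S, ∑ b ∈ S, y a * M a b * y b) := by
    fun_prop
  obtain ⟨y, hyK, hmin⟩ := hK.exists_isMinOn hne hcont.continuousOn
  refine ⟨y, hyK.2, ?_⟩
  have h1 : ∀ z : ι → ℝ, ∑ a ∈ S, z a ^ 2 = 1 →
      ∑ a ∈ S, ∑ b ∈ S, y a * M a b * y b ≤ ∑ a ∈ S, ∑ b ∈ S, z a * M a b * z b := by
    intro z hz
    have h := hmin (hmem z hz)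
    have e : ∑ a ∈ S, ∑ b ∈ S, (if a ∈ S then z a else 0) * M a b * (if b ∈ S then z b else 0) =
        ∑ a ∈ S, ∑ b ∈ S, z a * M a b * z b := by
      refine Finset.sum_congr rfl (fun a ha => Finset.sum_congr rfl (fun b hb => ?_))
      rw [if_pos ha, if_pos hb]
    simp only [Set.mem_ofPred_eq] at h
    rw [e] at h
    exact h
  intro z
  set s := ∑ a ∈ S, z a ^ 2 with hs
  have hs0 : 0 ≤ s := Finset.sum_nonneg (fun a _ => sq_nonneg _)
  rcases hs0.eq_or_lt with h0 | hpos
  · have hz : ∀ a ∈ S, z a = 0 := by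
      intro a ha
      have h2 := (Finset.sum_eq_zero_iff_of_nonneg (fun a _ => sq_nonneg (z a))).1 h0.symm a ha
      exact pow_eq_zero_iff (two_ne_zero) |>.1 h2
    have e : ∑ a ∈ S, ∑ b ∈ S, z a * M a b * z b = 0 := by
      refine Finset.sum_eq_zero (fun a ha => Finset.sum_eq_zero (fun b _ => ?_))
      rw [hz a ha, zero_mul, zero_mul]
    rw [e, ← h0, mul_zero]
  · have hr : 0 < Real.sqrt s := Real.sqrt_pos.2 hpos
    have hr2 : Real.sqrt s ^ 2 = s := Real.sq_sqrt hs0
    have h2 := h1 (fun a => z a / Real.sqrt s) (by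
      have e : ∀ a, (z a / Real.sqrt s) ^ 2 = z a ^ 2 / s := by
        intro a; rw [div_pow, hr2]
      rw [Finset.sum_congr rfl (fun a _ => e a), ← Finset.sum_div, ← hs]
      exact div_self hpos.ne')
    have e : ∑ a ∈ S, ∑ b ∈ S, z a / Real.sqrt s * M a b * (z b / Real.sqrt s) =
        (∑ a ∈ S, ∑ b ∈ S, z a * M a b * z b) / s := by
      rw [Finset.sum_div]
      refine Finset.sum_congr rfl (fun a _ => ?_)
      rw [Finset.sum_div]
      refine Finset.sum_congr rfl (fun b _ => ?_)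
      have e3 : z a / Real.sqrt s * M a b * (z b / Real.sqrt s) =
          z a * M a b * z b / Real.sqrt s ^ 2 := by
        field_simp
      rw [e3, hr2]
    rw [e, le_div_iff₀ hpos] at h2
    exact h2

theorem gamma_game {ι : Type} [Fintype ι] [DecidableEq ι] (G : ι → ι → Prop) [DecidableRel G]
    (hi : ∀ a, ¬ G a a) (P : ℕ → Finset ι → Prop)
    (hcone : ∀ m S u, u ∈ S → (∀ w ∈ S, ¬ G u w) → P m S)
    (hglue : ∀ m S v, v ∈ S → P m (S.erase v) →
      (∀ m', m = m' + 1 → P m' (S.filter (fun w => w ≠ v ∧ ¬ G v w))) → P m S)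
    (S : Finset ι) (M : ι → ι → ℝ) (β : ι → ℝ)
    (hsymm : ∀ a b, M a b = M b a)
    (hpsd : ∀ y : ι → ℝ, 0 ≤ ∑ a ∈ S, ∑ b ∈ S, y a * M a b * y b)
    (hnn : ∀ a ∈ S, ∀ b ∈ S, 0 ≤ M a b)
    (hG : ∀ a ∈ S, ∀ b ∈ S, G a b → 1 ≤ M a b)
    (hβ : ∀ a ∈ S, 0 ≤ β a)
    (hle : ∀ a ∈ S, ∑ b ∈ S, M a b * β b ≤ 1)
    (m : ℕ) (hm : (m : ℝ) < ∑ a ∈ S, β a) : P m S := by
  induction S using Finset.strongInduction generalizing M β m with
  | H S ih =>
  have caseA : ∀ (M : ι → ι → ℝ) (β : ι → ℝ), (∀ a b, M a b = M b a) →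
      (∀ y : ι → ℝ, 0 ≤ ∑ a ∈ S, ∑ b ∈ S, y a * M a b * y b) →
      (∀ a ∈ S, ∀ b ∈ S, 0 ≤ M a b) → (∀ a ∈ S, ∀ b ∈ S, G a b → 1 ≤ M a b) →
      (∀ a ∈ S, 0 ≤ β a) → (∀ a ∈ S, ∑ b ∈ S, M a b * β b ≤ 1) →
      (m : ℝ) < ∑ a ∈ S, β a → ∀ v ∈ S, β v = 0 → P m S := by
    intro M β hsymm hpsd hnn hG hβ hle hm v hv hv0
    have sub : ∀ T : Finset ι, T ⊂ S → ∀ k : ℕ, (k : ℝ) < ∑ a ∈ T, β a → P k T := by
      intro T hT k hk
      have hTS : T ⊆ S := hT.subset
      refine ih T hT M β hsymm (game_psd_sub S T hTS M hpsd)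
        (fun a ha b hb => hnn a (hTS ha) b (hTS hb))
        (fun a ha b hb => hG a (hTS ha) b (hTS hb))
        (fun a ha => hβ a (hTS ha)) (fun a ha => ?_) k hk
      refine le_trans ?_ (hle a (hTS ha))
      exact Finset.sum_le_sum_of_subset_of_nonneg hTS
        (fun b hb _ => mul_nonneg (hnn a (hTS ha) b hb) (hβ b hb))
    refine hglue m S v hv (sub _ (Finset.erase_ssubset hv) m ?_) (fun m' hm' => ?_)
    · rw [Finset.sum_erase S hv0]
      exact hm
    · refine sub _ ?_ m' ?_
      · refine Finset.ssubset_iff_subset_ne.2 ⟨Finset.filter_subset _ _, fun h => ?_⟩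
        rw [← h] at hv
        exact (Finset.mem_filter.1 hv).2.1 rfl
      · have h1 := Finset.sum_filter_add_sum_filter_not S (fun w => w ≠ v ∧ ¬ G v w) β
        have h2 : ∑ a ∈ S.filter (fun w => ¬ (w ≠ v ∧ ¬ G v w)), β a ≤
            ∑ b ∈ S, M v b * β b := by
          rw [Finset.sum_filter]
          refine Finset.sum_le_sum (fun b hb => ?_)
          have hb0 := mul_nonneg (hnn v hv b hb) (hβ b hb)
          by_cases hc : ¬ (b ≠ v ∧ ¬ G v b)
          · rw [if_pos hc]
            by_cases hbv : b = v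
            · rw [hbv, hv0, mul_zero]
            · have hg : G v b := by
                by_contra hg
                exact hc ⟨hbv, hg⟩
              have h3 := hG v hv b hb hg
              have h4 := hβ b hb
              nlinarith
          · rw [if_neg hc]
            exact hb0
        have h3 := hle v hv
        rw [hm'] at hm
        push_cast at hm
        linarith
  have hS : S.Nonempty := by
    rw [Finset.nonempty_iff_ne_empty]
    intro h
    rw [h, Finset.sum_empty] at hm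
    exact absurd hm (not_lt.2 (Nat.cast_nonneg m))
  obtain ⟨y0, hy1, hy2⟩ := game_min S hS M
  set lam := ∑ a ∈ S, ∑ b ∈ S, y0 a * M a b * y0 b with hlam
  have hlam0 : 0 ≤ lam := hpsd y0
  let M' : ι → ι → ℝ := fun a b => M a b - if a = b then lam else 0
  have hrow : ∀ a ∈ S, ∀ z : ι → ℝ, ∑ b ∈ S, M' a b * z b = ∑ b ∈ S, M a b * z b - lam * z a := by
    intro a ha z
    have e : ∀ b, M' a b * z b = M a b * z b - if a = b then lam * z b else 0 := by
      intro b
      by_cases h : a = b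
      · simp only [M', if_pos h]; ring
      · simp only [M', if_neg h]; ring
    rw [Finset.sum_congr rfl (fun b _ => e b), Finset.sum_sub_distrib, Finset.sum_ite_eq S a,
      if_pos ha]
  have hquad : ∀ z : ι → ℝ, ∑ a ∈ S, ∑ b ∈ S, z a * M' a b * z b =
      ∑ a ∈ S, ∑ b ∈ S, z a * M a b * z b - lam * ∑ a ∈ S, z a ^ 2 := by
    intro z
    rw [Finset.mul_sum, ← Finset.sum_sub_distrib]
    refine Finset.sum_congr rfl (fun a ha => ?_)
    have e1 : ∑ b ∈ S, z a * M' a b * z b = z a * ∑ b ∈ S, M' a b * z b := by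
      rw [Finset.mul_sum]
      exact Finset.sum_congr rfl (fun b _ => mul_assoc _ _ _)
    have e2 : ∑ b ∈ S, z a * M a b * z b = z a * ∑ b ∈ S, M a b * z b := by
      rw [Finset.mul_sum]
      exact Finset.sum_congr rfl (fun b _ => mul_assoc _ _ _)
    rw [e1, e2, hrow a ha z]
    ring
  have hsymm' : ∀ a b, M' a b = M' b a := by
    intro a b
    by_cases h : a = b
    · rw [h]
    · simp only [M', if_neg h, if_neg (Ne.symm h), hsymm a b]
  have hpsd' : ∀ z : ι → ℝ, 0 ≤ ∑ a ∈ S, ∑ b ∈ S, z a * M' a b * z b := by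
    intro z
    rw [hquad z]
    have := hy2 z
    linarith
  have hnn' : ∀ a ∈ S, ∀ b ∈ S, 0 ≤ M' a b := by
    intro a ha b hb
    by_cases h : a = b
    · have h1 := game_psd_sub S {a} (Finset.singleton_subset_iff.2 ha) M' hpsd' (fun _ => 1)
      rw [Finset.sum_singleton, Finset.sum_singleton, one_mul, mul_one] at h1
      rw [← h]
      exact h1
    · simp only [M', if_neg h, sub_zero]
      exact hnn a ha b hb
  have hG' : ∀ a ∈ S, ∀ b ∈ S, G a b → 1 ≤ M' a b := by
    intro a ha b hb hg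
    have h : a ≠ b := by
      intro h
      rw [h] at hg
      exact hi b hg
    simp only [M', if_neg h, sub_zero]
    exact hG a ha b hb hg
  have hle' : ∀ a ∈ S, ∑ b ∈ S, M' a b * β b ≤ 1 := by
    intro a ha
    rw [hrow a ha β]
    have h1 := hle a ha
    have h2 := mul_nonneg hlam0 (hβ a ha)
    linarith
  have hker0 : ∀ w ∈ S, ∑ b ∈ S, M' w b * y0 b = 0 := by
    refine game_ker S M' hsymm' hpsd' y0 ?_
    rw [hquad y0, hy1, mul_one, ← hlam, sub_self]
  obtain ⟨y, hker, hsum, u0, hu0, hyu0⟩ : ∃ y : ι → ℝ, (∀ w ∈ S, ∑ b ∈ S, M' w b * y b = 0) ∧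
      0 ≤ ∑ a ∈ S, y a ∧ ∃ u ∈ S, y u ≠ 0 := by
    have hex : ∃ u ∈ S, y0 u ≠ 0 := by
      by_contra hcon
      have h0 : ∑ a ∈ S, y0 a ^ 2 = 0 := by
        refine Finset.sum_eq_zero (fun a ha => ?_)
        have h1 : y0 a = 0 := by
          by_contra h1
          exact hcon ⟨a, ha, h1⟩
        rw [h1]; ring
      rw [hy1] at h0
      exact one_ne_zero h0
    rcases le_total 0 (∑ a ∈ S, y0 a) with h | h
    · exact ⟨y0, hker0, h, hex⟩
    · refine ⟨fun a => - y0 a, fun w hw => ?_, ?_, ?_⟩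
      · have e : ∀ b, M' w b * - y0 b = - (M' w b * y0 b) := fun b => by ring
        rw [Finset.sum_congr rfl (fun b _ => e b), Finset.sum_neg_distrib, hker0 w hw, neg_zero]
      · rw [Finset.sum_neg_distrib]
        linarith
      · obtain ⟨u, hu, hu'⟩ := hex
        exact ⟨u, hu, neg_ne_zero.2 hu'⟩
  by_cases hneg : ∀ a ∈ S, 0 ≤ y a
  · refine hcone m S u0 hu0 (fun w hw hg => ?_)
    have h1 : M' w u0 * y u0 ≤ ∑ b ∈ S, M' w b * y b :=
      Finset.single_le_sum (f := fun b => M' w b * y b)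
        (fun b hb => mul_nonneg (hnn' w hw b hb) (hneg b hb)) hu0
    have h2 : 1 ≤ M' w u0 := by
      rw [hsymm' w u0]
      exact hG' u0 hu0 w hw hg
    have h3 : 0 < y u0 := lt_of_le_of_ne (hneg u0 hu0) (Ne.symm hyu0)
    rw [hker w hw] at h1
    nlinarith
  · have hN : (S.filter (fun a => y a < 0)).Nonempty := by
      by_contra hcon
      apply hneg
      intro a ha
      by_contra h
      exact hcon ⟨a, Finset.mem_filter.2 ⟨ha, not_le.1 h⟩⟩
    obtain ⟨v, hv, hvmin⟩ := Finset.exists_min_image _ (fun a => β a / (- y a)) hN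
    obtain ⟨hvS, hvy⟩ := Finset.mem_filter.1 hv
    set t := β v / (- y v) with ht
    have ht0 : 0 ≤ t := div_nonneg (hβ v hvS) (by linarith)
    refine caseA M' (fun a => β a + t * y a) hsymm' hpsd' hnn' hG' (fun a ha => ?_)
      (fun a ha => ?_) ?_ v hvS ?_
    · by_cases h : y a < 0
      · have h1 := hvmin a (Finset.mem_filter.2 ⟨ha, h⟩)
        rw [le_div_iff₀ (by linarith)] at h1
        linarith
      · have h1 := mul_nonneg ht0 (not_lt.1 h)
        have h2 := hβ a ha
        linarith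
    · have e : ∀ b, M' a b * (β b + t * y b) = M' a b * β b + t * (M' a b * y b) :=
        fun b => by ring
      rw [Finset.sum_congr rfl (fun b _ => e b), Finset.sum_add_distrib, ← Finset.mul_sum,
        hker a ha, mul_zero, add_zero]
      exact hle' a ha
    · rw [Finset.sum_add_distrib, ← Finset.mul_sum]
      have h1 := mul_nonneg ht0 hsum
      linarith
    · have h1 : y v ≠ 0 := hvy.ne
      show β v + t * y v = 0
      rw [ht]
      field_simp
      ring

end Pool.Agent.Lib.MP_cef6bb_co
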