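import Pool.Agent.Lib.MP_cef6bb_co.Defs

/-! Properties of the piecewise linear interpolation of a grid labelling. -/

namespace Pool.Agent.Lib.MP_cef6bb_co

open Set MeasureTheory

variable {ι : Type} [DecidableEq ι] {n : ℕ}

theorem gm_meas (V : (Fin n → ℤ) → ι) (y : Fin n → ℝ) (a : ι) :
    Measurable (fun t : ℝ => if V (fun i => ⌊y i + t⌋) = a then (1 : ℝ) else 0) := by
  have h1 : Measurable (fun t : ℝ => (fun i => ⌊y i + t⌋ : Fin n → ℤ)) := by
    refine measurable_pi_lambda _ (fun i => ?_)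
    exact Int.measurable_floor.comp (measurable_const.add measurable_id)
  have h2 : Measurable (fun z : Fin n → ℤ => if V z = a then (1 : ℝ) else 0) :=
    measurable_of_countable _
  exact h2.comp h1

theorem gm_bound (p : Prop) [Decidable p] : ‖(if p then (1 : ℝ) else 0)‖ ≤ 1 := by
  split_ifs <;> simp

theorem gm_int (V : (Fin n → ℤ) → ι) (y : Fin n → ℝ) (a : ι) :
    Integrable (fun t : ℝ => if V (fun i => ⌊y i + t⌋) = a then (1 : ℝ) else 0)
      (volume.restrict (Ioo (0 : ℝ) 1)) := by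
  refine Integrable.of_bound (gm_meas V y a).aestronglyMeasurable 1 ?_
  exact Filter.Eventually.of_forall (fun t => gm_bound _)

theorem gm_one : ∫ _ in Ioo (0 : ℝ) 1, (1 : ℝ) = 1 := by
  simp

theorem gm_floor_eventually (y : Fin n → ℝ) (t : ℝ) (i : Fin n)
    (h : ∀ k : ℤ, y i + t ≠ k) :
    ∀ᶠ x in nhds y, ⌊x i + t⌋ = ⌊y i + t⌋ := by
  have hc : Continuous (fun x : Fin n → ℝ => x i + t) := by fun_prop
  have h1 : ((⌊y i + t⌋ : ℤ) : ℝ) < y i + t :=
    lt_of_le_of_ne (Int.floor_le _) (h _).symm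
  have h2 : y i + t < ((⌊y i + t⌋ : ℤ) : ℝ) + 1 := Int.lt_floor_add_one _
  have h3 : ∀ᶠ x in nhds y, ((⌊y i + t⌋ : ℤ) : ℝ) < x i + t :=
    continuousAt_const.eventually_lt hc.continuousAt h1
  have h4 : ∀ᶠ x in nhds y, x i + t < ((⌊y i + t⌋ : ℤ) : ℝ) + 1 :=
    hc.continuousAt.eventually_lt continuousAt_const h2
  filter_upwards [h3, h4] with x hx3 hx4
  exact Int.floor_eq_iff.2 ⟨hx3.le, hx4⟩

theorem gm_cont (V : (Fin n → ℤ) → ι) : Continuous (gridmap V) := by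
  refine continuous_pi (fun a => ?_)
  refine continuous_iff_continuousAt.2 (fun y => ?_)
  unfold gridmap
  refine continuousAt_of_dominated (bound := fun _ => (1 : ℝ)) ?_ ?_ ?_ ?_
  · exact Filter.Eventually.of_forall (fun x => (gm_meas V x a).aestronglyMeasurable)
  · exact Filter.Eventually.of_forall
      (fun x => Filter.Eventually.of_forall (fun t => gm_bound _))
  · exact integrable_const _
  · have hc : (⋃ i : Fin n, ⋃ k : ℤ, ({(k : ℝ) - y i} : Set ℝ)).Countable :=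
      countable_iUnion (fun i => countable_iUnion (fun k => countable_singleton _))
    have hae : ∀ᵐ t ∂(volume.restrict (Ioo (0 : ℝ) 1)),
        t ∉ (⋃ i : Fin n, ⋃ k : ℤ, ({(k : ℝ) - y i} : Set ℝ)) :=
      ae_restrict_of_ae (hc.ae_notMem volume)
    filter_upwards [hae] with t ht
    have hne : ∀ i, ∀ k : ℤ, y i + t ≠ k := by
      intro i k hk
      apply ht
      refine mem_iUnion.2 ⟨i, mem_iUnion.2 ⟨k, ?_⟩⟩
      rw [mem_singleton_iff, ← hk]; ring
    have hev : ∀ᶠ x in nhds y, ∀ i, ⌊x i + t⌋ = ⌊y i + t⌋ :=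
      Filter.eventually_all.2 (fun i => gm_floor_eventually y t i (hne i))
    refine (continuousAt_const (y := if V (fun i => ⌊y i + t⌋) = a then (1 : ℝ) else 0)).congr ?_
    filter_upwards [hev] with x hx
    have : (fun i => ⌊x i + t⌋) = (fun i => ⌊y i + t⌋) := funext hx
    rw [this]

theorem gm_nonneg (V : (Fin n → ℤ) → ι) (y : Fin n → ℝ) (a : ι) : 0 ≤ gridmap V y a := by
  unfold gridmap
  refine integral_nonneg (fun t => ?_)
  show (0 : ℝ) ≤ if V (fun i => ⌊y i + t⌋) = a then (1 : ℝ) else 0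
  split_ifs <;> norm_num

theorem gm_sum [Fintype ι] (V : (Fin n → ℤ) → ι) (y : Fin n → ℝ) :
    ∑ a, gridmap V y a = 1 := by
  unfold gridmap
  rw [← integral_finsetSum _ (fun a _ => gm_int V y a)]
  have : (fun t : ℝ => ∑ a : ι, if V (fun i => ⌊y i + t⌋) = a then (1 : ℝ) else 0) =
      fun _ => 1 := by
    funext t
    simp
  rw [this]
  exact gm_one

theorem gm_supp (V : (Fin n → ℤ) → ι) (y : Fin n → ℝ) (a : ι) (h : gridmap V y a ≠ 0) :
    ∃ t ∈ Ioo (0 : ℝ) 1, V (fun i => ⌊y i + t⌋) = a := by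
  by_contra hn
  apply h
  unfold gridmap
  rw [setIntegral_congr_fun measurableSet_Ioo (g := fun _ => (0 : ℝ))]
  · simp
  · intro t ht
    have : V (fun i => ⌊y i + t⌋) ≠ a := fun e => hn ⟨t, ht, e⟩
    simp [this]

theorem gm_congr {m : ℕ} (V : (Fin n → ℤ) → ι) (V' : (Fin m → ℤ) → ι) (y : Fin n → ℝ)
    (y' : Fin m → ℝ)
    (h : ∀ t ∈ Ioo (0 : ℝ) 1, V (fun i => ⌊y i + t⌋) = V' (fun i => ⌊y' i + t⌋)) :
    gridmap V y = gridmap V' y' := by
  funext a
  unfold gridmap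
  refine setIntegral_congr_fun measurableSet_Ioo (fun t ht => ?_)
  show (if V (fun i => ⌊y i + t⌋) = a then (1 : ℝ) else 0) =
    if V' (fun i => ⌊y' i + t⌋) = a then (1 : ℝ) else 0
  rw [h t ht]

theorem gm_const (V : (Fin n → ℤ) → ι) (y : Fin n → ℝ) (a : ι)
    (h : ∀ t ∈ Ioo (0 : ℝ) 1, V (fun i => ⌊y i + t⌋) = a) : gridmap V y = vtx a := by
  funext b
  unfold gridmap vtx
  rw [setIntegral_congr_fun measurableSet_Ioo (g := fun _ => if a = b then (1 : ℝ) else 0)]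
  · by_cases hab : a = b
    · subst hab
      simp
    · simp [hab, Ne.symm hab]
  · intro t ht
    show (if V (fun i => ⌊y i + t⌋) = b then (1 : ℝ) else 0) = if a = b then (1 : ℝ) else 0
    rw [h t ht]

theorem gm_card [Fintype ι] (V : (Fin n → ℤ) → ι) (y : Fin n → ℝ) (D : Finset (Fin n))
    (h : ∀ t ∈ Ioo (0 : ℝ) 1, ∀ t' ∈ Ioo (0 : ℝ) 1, (∀ i ∈ D, ⌊y i + t⌋ = ⌊y i + t'⌋) →
      V (fun i => ⌊y i + t⌋) = V (fun i => ⌊y i + t'⌋)) :
    (spt (gridmap V y)).card ≤ D.card + 1 := by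
  classical
  have hex : ∀ a ∈ spt (gridmap V y), ∃ t ∈ Ioo (0 : ℝ) 1, V (fun i => ⌊y i + t⌋) = a := by
    intro a ha
    exact gm_supp V y a (Finset.mem_filter.1 ha).2
  choose! τ hτ1 hτ2 using hex
  let s : ℝ → ℤ := fun t => ∑ i ∈ D, (⌊y i + t⌋ - ⌊y i⌋)
  have hkey : ∀ t t' : ℝ, t ≤ t' → s t = s t' → ∀ i ∈ D, ⌊y i + t⌋ = ⌊y i + t'⌋ := by
    intro t t' hle hs i hi
    have hmono : ∀ j ∈ D, ⌊y j + t⌋ - ⌊y j⌋ ≤ ⌊y j + t'⌋ - ⌊y j⌋ := by
      intro j _
      have : ⌊y j + t⌋ ≤ ⌊y j + t'⌋ := Int.floor_mono (by linarith)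
      omega
    have := (Finset.sum_eq_sum_iff_of_le hmono).1 hs i hi
    omega
  have hmaps : ∀ a ∈ spt (gridmap V y), s (τ a) ∈ Finset.Icc (0 : ℤ) (D.card : ℤ) := by
    intro a ha
    obtain ⟨h0, h1⟩ := hτ1 a ha
    refine Finset.mem_Icc.2 ⟨Finset.sum_nonneg (fun i _ => ?_), ?_⟩
    · have : ⌊y i⌋ ≤ ⌊y i + τ a⌋ := Int.floor_mono (by linarith)
      omega
    · have hb : ∀ i ∈ D, ⌊y i + τ a⌋ - ⌊y i⌋ ≤ 1 := by
        intro i _
        have : ⌊y i + τ a⌋ ≤ ⌊y i + 1⌋ := Int.floor_mono (by linarith)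
        rw [Int.floor_add_one] at this
        omega
      have := Finset.sum_le_card_nsmul D _ 1 hb
      rw [nsmul_eq_mul, mul_one] at this
      exact this
  have hinj : Set.InjOn (fun a => s (τ a)) (spt (gridmap V y) : Set ι) := by
    intro a ha b hb hab
    have ha' : a ∈ spt (gridmap V y) := ha
    have hb' : b ∈ spt (gridmap V y) := hb
    have hfl : ∀ i ∈ D, ⌊y i + τ a⌋ = ⌊y i + τ b⌋ := by
      rcases le_total (τ a) (τ b) with hle | hle
      · exact hkey _ _ hle hab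
      · intro i hi
        exact (hkey _ _ hle hab.symm i hi).symm
    rw [← hτ2 a ha', ← hτ2 b hb']
    exact h _ (hτ1 a ha') _ (hτ1 b hb') hfl
  have hc := Finset.card_le_card_of_injOn (fun a => s (τ a)) hmaps hinj
  simpa using hc

end Pool.Agent.Lib.MP_cef6bb_co
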