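import Pool.Agent.Lib.MP_cef6bb_co.Simplex

/-! A deformation of the realization that contracts a skeleton to a vertex, and a deformation
that moves a point to a vertex. -/

namespace Pool.Agent.Lib.MP_cef6bb_co

open Set Metric

theorem retract_mem_spt {ι : Type} [Fintype ι] {x : ι → ℝ} {a : ι} : a ∈ spt x ↔ x a ≠ 0 := by
  simp [spt]

theorem retract_comb {ι : Type} [Fintype ι] [DecidableEq ι] {x : ι → ℝ} (a0 : ι) {μ : ℝ}
    (h0 : 0 ≤ μ) (h1 : μ ≤ 1) (hx : ∀ a, 0 ≤ x a) (hs : ∑ a, x a = 1) :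
    (∀ a, 0 ≤ ((1 - μ) • x + μ • vtx a0) a) ∧ ∑ a, ((1 - μ) • x + μ • vtx a0) a = 1 ∧
      ∀ a ∈ spt ((1 - μ) • x + μ • vtx a0), a ∈ spt x ∨ (a = a0 ∧ μ ≠ 0) := by
  simp only [Pi.add_apply, Pi.smul_apply, smul_eq_mul, retract_mem_spt, vtx]
  refine ⟨fun a => add_nonneg (mul_nonneg (sub_nonneg.2 h1) (hx a)) (mul_nonneg h0 ?_), ?_,
    fun a ha => ?_⟩
  · rw [Pi.single_apply]
    split_ifs <;> norm_num
  · simp [Finset.sum_add_distrib, ← Finset.mul_sum, hs]
  · by_contra h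
    push Not at h
    by_cases e : a = a0
    · simp [h.1, h.2 e] at ha
    · simp [h.1, e] at ha

theorem exists_G {ι : Type} [Fintype ι] [DecidableEq ι] (K : Set (Finset ι))
    (hK : IsLowerSet K) (n : ℕ) (hX : ∀ d ≤ n, SExt d (Rl K)) (a0 : ι)
    (ha0 : vtx a0 ∈ Rl K) :
    ∃ G : ℝ × (ι → ℝ) → (ι → ℝ), ContinuousOn G (Icc (0 : ℝ) 1 ×ˢ Rl K) ∧
      MapsTo G (Icc (0 : ℝ) 1 ×ˢ Rl K) (Rl K) ∧ (∀ x ∈ Rl K, G (0, x) = x) ∧
      (∀ t ∈ Icc (0 : ℝ) 1, G (t, vtx a0) = vtx a0) ∧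
      (∀ x ∈ Rl K, (spt x).card ≤ n → G (1, x) = vtx a0) := by
  obtain ⟨ρ, c1, c2, c3⟩ := cw_ext (Rl K) n hX (K ∪ {σ | σ.card ≤ n + 1}) K
    (hK.union fun _ _ h h' => (Finset.card_le_card h).trans h') hK subset_union_left
    (fun σ h h' => h.resolve_left h') id continuousOn_id (mapsTo_id _)
  obtain ⟨ε, e0, e1⟩ : ∃ ε : ℝ, 0 < ε ∧ Fintype.card ι * ε < 1 :=
    ⟨1 / (Fintype.card ι + 1), by positivity, by
      rw [mul_one_div, div_lt_one (by positivity)]; exact lt_add_one _⟩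
  let S : Set (ι → ℝ) := {y | (spt y).card ≤ n}
  let s : ℝ × (ι → ℝ) → ℝ := fun z => ∑ a, max (z.2 a - z.1 * ε) 0
  let x' : ℝ × (ι → ℝ) → ι → ℝ := fun z a => max (z.2 a - z.1 * ε) 0 / s z
  let μ : ℝ × (ι → ℝ) → ℝ := fun z => max (z.1 * ε - infDist z.2 S) 0 / ε
  have s0 : ∀ z ∈ Icc (0 : ℝ) 1 ×ˢ Rl K, 0 < s z := fun z hz => by
    refine lt_of_lt_of_le ?_ (Finset.sum_le_sum fun a _ => le_max_left _ _)
    rw [Finset.sum_sub_distrib, hz.2.2.1, Finset.sum_const, Finset.card_univ, nsmul_eq_mul]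
    nlinarith [hz.1.2, mul_nonneg (Nat.cast_nonneg (α := ℝ) (Fintype.card ι)) e0.le]
  have cs : Continuous s := by fun_prop
  have cμ : Continuous μ := by
    have := continuous_infDist_pt S
    fun_prop
  have cx : ContinuousOn x' (Icc (0 : ℝ) 1 ×ˢ Rl K) := continuousOn_pi.2 fun a =>
    ContinuousOn.div (by fun_prop) cs.continuousOn fun z hz => (s0 z hz).ne'
  have x1 : ∀ z a, a ∈ spt (x' z) → z.1 * ε < z.2 a := fun z a ha => by
    by_contra h
    exact retract_mem_spt.1 ha (by simp only [x']; rw [max_eq_right (by linarith), zero_div])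
  have hm : MapsTo (fun z => (1 - μ z) • x' z + μ z • vtx a0) (Icc (0 : ℝ) 1 ×ˢ Rl K)
      (Rl (K ∪ {σ | σ.card ≤ n + 1})) := fun z hz => by
    have t0 := mul_nonneg hz.1.1 e0.le
    obtain ⟨g1, g2, g3⟩ := retract_comb (x := x' z) (μ := μ z) a0 (by positivity)
      ((div_le_one e0).2 (max_le (by nlinarith [infDist_nonneg (x := z.2) (s := S), hz.1.2]) e0.le))
      (fun a => div_nonneg (le_max_right _ _) (s0 z hz).le)
      (by rw [← Finset.sum_div, div_self (s0 z hz).ne'])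
    refine ⟨g1, g2, ?_⟩
    by_cases h : μ z = 0
    · refine Or.inl (hK (fun a ha => ?_) hz.2.2.2)
      exact retract_mem_spt.2 (t0.trans_lt (x1 z a ((g3 a ha).resolve_right fun e => e.2 h))).ne'
    · have h1 : infDist z.2 S < z.1 * ε := by
        by_contra h1
        exact h (by simp only [μ]; rw [max_eq_right (by linarith), zero_div])
      obtain ⟨y, hy, h2⟩ := (infDist_lt_iff ⟨0, by simp [S, spt]⟩).1 h1
      refine Or.inr (le_trans (Finset.card_le_card (t := insert a0 (spt y)) fun a ha => ?_)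
        ((Finset.card_insert_le _ _).trans (Nat.succ_le_succ hy)))
      rcases g3 a ha with h3 | h3
      · refine Finset.mem_insert_of_mem (retract_mem_spt.2 fun h4 => ?_)
        have h5 := (dist_le_pi_dist z.2 y a).trans_lt h2
        rw [h4, Real.dist_eq, sub_zero] at h5
        exact absurd ((le_abs_self _).trans_lt h5) (x1 z a h3).not_gt
      · exact h3.1 ▸ Finset.mem_insert_self _ _
  refine ⟨fun z => ρ ((1 - μ z) • x' z + μ z • vtx a0), c1.comp ?_ hm, c2.comp hm, fun x hx => ?_,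
    fun t ht => ?_, fun x hx h => ?_⟩
  · exact ((continuousOn_const.sub cμ.continuousOn).smul cx).add
      (cμ.continuousOn.smul continuousOn_const)
  · have h1 : μ (0, x) = 0 := by simp [μ, infDist_nonneg]
    have h2 : x' (0, x) = x := by
      funext a
      simp [x', s, hx.1, hx.2.1]
    simpa [h1, h2] using c3 hx
  · have h0 := s0 (t, vtx a0) ⟨ht, ha0⟩
    have h1 : ∀ a, a ≠ a0 → max (vtx a0 a - t * ε) 0 = 0 := fun a ha => by
      simp [vtx, ha, mul_nonneg ht.1 e0.le]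
    have h2 : x' (t, vtx a0) = vtx a0 := by
      funext a
      by_cases h : a = a0
      · subst h
        refine (div_eq_iff h0.ne').2 ?_
        simp only [s]
        rw [Finset.sum_eq_single a (fun b _ hb => h1 b hb) (by simp)]
        simp [vtx]
      · simp only [x', h1 a h, zero_div]
        simp [vtx, h]
    simp only [h2, ← add_smul, sub_add_cancel, one_smul]
    exact c3 ha0
  · have h1 : μ (1, x) = 1 := by simp [μ, infDist_zero_of_mem (show x ∈ S from h), e0.le, e0.ne']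
    simpa [h1] using c3 ha0

theorem exists_move {ι : Type} [Fintype ι] [DecidableEq ι] (K : Set (Finset ι))
    (hK : IsLowerSet K) (y : Rl K) :
    ∃ (a0 : ι) (P : unitInterval × Rl K → Rl K), Continuous P ∧ (∀ x, P (0, x) = x) ∧
      (P (1, y) : ι → ℝ) = vtx a0 := by
  obtain ⟨a0, -, h0⟩ := Finset.exists_ne_zero_of_sum_ne_zero (y.2.2.1.trans_ne one_ne_zero)
  have h1 := (y.2.1 a0).lt_of_ne' h0
  let θ : unitInterval × Rl K → ℝ := fun z => z.1 * min 1 (z.2.1 a0 / y.1 a0)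
  have h2 : ∀ z, (1 - θ z) • z.2.1 + θ z • vtx a0 ∈ Rl K := fun z => by
    have h3 : 0 ≤ min 1 (z.2.1 a0 / y.1 a0) := le_min zero_le_one (div_nonneg (z.2.2.1 a0) h1.le)
    obtain ⟨g1, g2, g3⟩ := retract_comb (μ := θ z) a0 (mul_nonneg z.1.2.1 h3)
      (mul_le_one₀ z.1.2.2 h3 (min_le_left _ _)) z.2.2.1 z.2.2.2.1
    refine ⟨g1, g2, hK (fun a ha => ?_) z.2.2.2.2⟩
    rcases g3 a ha with h | ⟨rfl, h⟩
    · exact h
    · exact retract_mem_spt.2 fun e => h (by simp [θ, e])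
  have h4 : Continuous fun z : unitInterval × Rl K => z.2.1 a0 :=
    (continuous_apply a0).comp (continuous_subtype_val.comp continuous_snd)
  have h5 : Continuous θ := (continuous_subtype_val.comp continuous_fst).mul
    (continuous_const.min (h4.div_const _))
  refine ⟨a0, fun z => ⟨_, h2 z⟩, Continuous.subtype_mk (by fun_prop) _, fun x => ?_, ?_⟩
  · simp [θ]
  · simp [θ, h0]

end Pool.Agent.Lib.MP_cef6bb_co
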