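import Pool.Agent.Lib.MP_cef6bb_co.Defs

/-! From homotopy groups to extensions over balls, and from balls to simplices. -/

namespace Pool.Agent.Lib.MP_cef6bb_co

open Set Metric

theorem sph_descend {A B X : Type} [TopologicalSpace A] [TopologicalSpace B] [TopologicalSpace X]
    [CompactSpace A] [T2Space B] {q : A → B} (hq : Continuous q) (hs : Function.Surjective q)
    {φ : A → X} (hφ : Continuous φ) (h : ∀ a a', q a = q a' → φ a = φ a') :
    ∃ ψ : B → X, Continuous ψ ∧ ∀ a, ψ (q a) = φ a := by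
  have e : ∀ a, φ (Function.surjInv hs (q a)) = φ a := fun a =>
    h _ _ (Function.surjInv_eq hs (q a))
  refine ⟨fun b => φ (Function.surjInv hs b), ?_, e⟩
  rw [(hq.isClosedMap.isQuotientMap hq hs).continuous_iff]
  exact hφ.congr fun a => (e a).symm

theorem sph_cone {Y : Type} [TopologicalSpace Y] {X : Set Y} {d : ℕ}
    (f : EuclideanSpace ℝ (Fin (d + 1)) → Y)
    (H : unitInterval × sphere (0 : EuclideanSpace ℝ (Fin (d + 1))) 1 → X) (hH : Continuous H)
    (h0 : ∀ x x', H (0, x) = H (0, x')) (h1 : ∀ x, (H (1, x) : Y) = f x) :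
    ∃ F : EuclideanSpace ℝ (Fin (d + 1)) → Y, ContinuousOn F (closedBall 0 1) ∧
      MapsTo F (closedBall 0 1) X ∧ EqOn F f (sphere 0 1) := by
  classical
  have hn : ∀ p : unitInterval × sphere (0 : EuclideanSpace ℝ (Fin (d + 1))) 1,
      ‖(p.1 : ℝ) • (p.2 : EuclideanSpace ℝ (Fin (d + 1)))‖ = p.1 := fun p => by
    rw [norm_smul, norm_eq_of_mem_sphere, mul_one, Real.norm_eq_abs, abs_of_nonneg p.1.2.1]
  obtain ⟨ψ, hψ, e⟩ := sph_descend
    (B := closedBall (0 : EuclideanSpace ℝ (Fin (d + 1))) 1)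
    (q := fun p : unitInterval × sphere (0 : EuclideanSpace ℝ (Fin (d + 1))) 1 =>
      ⟨(p.1 : ℝ) • (p.2 : EuclideanSpace ℝ (Fin (d + 1))), by
        rw [mem_closedBall_zero_iff, hn]; exact p.1.2.2⟩)
    (by fun_prop) (fun y => by
      by_cases hy : (y : EuclideanSpace ℝ (Fin (d + 1))) = 0
      · refine ⟨(0, ⟨EuclideanSpace.single 0 1, by simp⟩), Subtype.ext ?_⟩
        simp [hy]
      · have hpos : 0 < ‖(y : EuclideanSpace ℝ (Fin (d + 1)))‖ := norm_pos_iff.2 hy
        refine ⟨(⟨‖(y : EuclideanSpace ℝ (Fin (d + 1)))‖, hpos.le,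
          mem_closedBall_zero_iff.1 y.2⟩, ⟨‖(y : EuclideanSpace ℝ (Fin (d + 1)))‖⁻¹ • y, by
            rw [mem_sphere_zero_iff_norm, norm_smul, norm_inv, norm_norm,
              inv_mul_cancel₀ hpos.ne']⟩), Subtype.ext ?_⟩
        simp only [smul_smul, mul_inv_cancel₀ hpos.ne', one_smul]) hH (by
      rintro ⟨s, x⟩ ⟨s', x'⟩ h
      have h2 : (s : ℝ) • (x : EuclideanSpace ℝ (Fin (d + 1))) = (s' : ℝ) • x' :=
        congrArg Subtype.val h
      have h3 : s = s' := Subtype.ext (by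
        have := congrArg norm h2
        rwa [hn (s, x), hn (s', x')] at this)
      subst h3
      by_cases hs : s = 0
      · rw [hs]; exact h0 x x'
      · have : (s : ℝ) ≠ 0 := fun k => hs (Subtype.ext k)
        rw [Subtype.ext (smul_right_injective _ this h2)])
  refine ⟨fun y => if h : y ∈ closedBall (0 : EuclideanSpace ℝ (Fin (d + 1))) 1 then ψ ⟨y, h⟩
    else f y, ?_, fun y hy => ?_, fun y hy => ?_⟩
  · rw [continuousOn_iff_continuous_domRestrict]
    refine (continuous_subtype_val.comp hψ).congr fun y => ?_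
    simp only [Function.comp_apply, Set.domRestrict_apply, dif_pos y.2]
  · simp only [dif_pos hy]; exact (ψ _).2
  · simp only [dif_pos (sphere_subset_closedBall hy)]
    rw [← h1 ⟨y, hy⟩, ← e (1, ⟨y, hy⟩)]
    congr 2
    simp

theorem sext_zero {Y : Type} [TopologicalSpace Y] (X : Set Y) (h : X.Nonempty) : SExt 0 X := by
  intro f _ _
  obtain ⟨x, hx⟩ := h
  refine ⟨fun _ => x, continuousOn_const, fun _ _ => hx, fun y hy => ?_⟩
  rw [Subsingleton.elim y 0] at hy
  simp at hy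

theorem sext_one {Y : Type} [TopologicalSpace Y] (X : Set Y) (h : IsPathConnected X) :
    SExt 1 X := by
  intro f _ hf
  obtain ⟨c, hc, hj⟩ := h
  have hfin : (sphere (0 : EuclideanSpace ℝ (Fin (0 + 1))) 1).Finite := by
    refine (toFinite {EuclideanSpace.single 0 (1 : ℝ), EuclideanSpace.single 0 (-1 : ℝ)}).subset
      fun x hx => ?_
    rw [mem_sphere_zero_iff_norm, EuclideanSpace.norm_eq] at hx
    have h1 : |x 0| = 1 := by simpa [Real.sqrt_sq_eq_abs] using hx
    rcases (abs_eq zero_le_one).1 h1 with h2 | h2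
    · left; ext i; rw [Fin.fin_one_eq_zero i]; simpa using h2
    · right; ext i; rw [Fin.fin_one_eq_zero i]; simpa using h2
  have := hfin.to_subtype
  choose γ hγ using fun x : sphere (0 : EuclideanSpace ℝ (Fin (0 + 1))) 1 => hj (hf x.2)
  refine sph_cone (d := 0) f (fun p => ⟨γ p.2 p.1, hγ p.2 p.1⟩) ?_ (fun x x' => ?_) fun x => ?_
  · rw [continuous_prod_of_discrete_right]
    exact fun x => (γ x).continuous.subtype_mk _
  · simp
  · simp

/-- The centred cube coordinates. -/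
def sphY {m : ℕ} (t : Fin m → unitInterval) : Fin m → ℝ := fun i => 2 * (t i : ℝ) - 1

/-- A nonzero vector that points to the pole exactly on the boundary of the cube. -/
noncomputable def sphW {m : ℕ} (t : Fin m → unitInterval) : EuclideanSpace ℝ (Fin (m + 1)) :=
  WithLp.toLp 2 (Fin.cons (2 * ‖sphY t‖ - 1) fun i => (1 - ‖sphY t‖) * sphY t i)

theorem sphY_cont {m : ℕ} : Continuous (sphY (m := m)) := by
  unfold sphY; fun_prop

theorem sphW_cont {m : ℕ} : Continuous (sphW (m := m)) := by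
  have := sphY_cont (m := m)
  refine (PiLp.continuous_toLp 2 _).comp (continuous_pi fun i => ?_)
  refine Fin.cases ?_ (fun j => ?_) i
  · simp only [Fin.cons_zero]; fun_prop
  · simp only [Fin.cons_succ]; fun_prop

theorem sphY_le {m : ℕ} (t : Fin m → unitInterval) : ‖sphY t‖ ≤ 1 := by
  refine (pi_norm_le_iff_of_nonneg zero_le_one).2 fun i => ?_
  rw [Real.norm_eq_abs, abs_le, sphY]
  constructor <;> linarith [(t i).2.1, (t i).2.2]

theorem sphY_bd {m : ℕ} (t : Fin m → unitInterval) :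
    t ∈ Cube.boundary (Fin m) ↔ ‖sphY t‖ = 1 := by
  constructor
  · rintro ⟨i, hi⟩
    refine le_antisymm (sphY_le t) (le_trans ?_ (norm_le_pi_norm _ i))
    rcases hi with hi | hi <;> norm_num [sphY, hi]
  · intro h
    by_contra hc
    refine absurd h (ne_of_lt ((pi_norm_lt_iff one_pos).2 fun i => ?_))
    have h0 : (t i : ℝ) ≠ 0 := fun k => hc ⟨i, Or.inl (Subtype.ext k)⟩
    have h1 : (t i : ℝ) ≠ 1 := fun k => hc ⟨i, Or.inr (Subtype.ext k)⟩
    rw [Real.norm_eq_abs, abs_lt, sphY]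
    constructor
    · linarith [lt_of_le_of_ne (t i).2.1 h0.symm]
    · linarith [lt_of_le_of_ne (t i).2.2 h1]

theorem sphW_smul {m : ℕ} {t t' : Fin m → unitInterval} {a : ℝ} (h : sphW t = a • sphW t') :
    2 * ‖sphY t‖ - 1 = a * (2 * ‖sphY t'‖ - 1) ∧
      (1 - ‖sphY t‖) • sphY t = (a * (1 - ‖sphY t'‖)) • sphY t' := by
  constructor
  · simpa [sphW] using congrArg (fun v => v 0) h
  · funext i
    have := congrArg (fun v => v i.succ) h
    simpa [sphW, mul_assoc] using this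

theorem sphW_ne {m : ℕ} (t : Fin m → unitInterval) : sphW t ≠ 0 := fun h => by
  obtain ⟨h1, h2⟩ := sphW_smul (t := t) (t' := t) (a := 0) (by rw [h]; simp)
  have h3 := congrArg norm h2
  rw [zero_mul, zero_smul, norm_zero, norm_smul, Real.norm_eq_abs, show ‖sphY t‖ = 1 / 2 by
    linarith] at h3
  norm_num at h3

theorem sphW_inj {m : ℕ} {t t' : Fin m → unitInterval} {a : ℝ} (ha : 0 < a)
    (h : sphW t = a • sphW t') :
    t = t' ∨ (t ∈ Cube.boundary (Fin m) ∧ t' ∈ Cube.boundary (Fin m)) := by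
  obtain ⟨h1, h2⟩ := sphW_smul h
  have r0 := norm_nonneg (sphY t)
  have r0' := norm_nonneg (sphY t')
  have r1 := sphY_le t
  have r1' := sphY_le t'
  have h3 := congrArg norm h2
  rw [norm_smul, norm_smul, Real.norm_eq_abs, Real.norm_eq_abs, abs_of_nonneg (by linarith),
    abs_of_nonneg (mul_nonneg ha.le (by linarith))] at h3
  obtain ⟨r, hr⟩ : ∃ r, r = ‖sphY t‖ := ⟨_, rfl⟩
  obtain ⟨s, hs⟩ : ∃ s, s = ‖sphY t'‖ := ⟨_, rfl⟩
  rw [sphY_bd, sphY_bd]
  rw [← hr, ← hs] at h1 h2 h3 ⊢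
  rw [← hr] at r0 r1
  rw [← hs] at r0' r1'
  have h4 : (r - s) * (r * s + (1 - r) * (1 - s)) = 0 := by
    linear_combination ((1 - s) * s) * h1 - (2 * s - 1) * h3
  have h5 : r = s := by
    rcases mul_eq_zero.1 h4 with k | k
    · linarith
    · exfalso
      have k1 : 0 ≤ r * s := mul_nonneg r0 r0'
      have k2 : 0 ≤ (1 - r) * (1 - s) := mul_nonneg (by linarith) (by linarith)
      have k3 : r * s = 0 := by linarith
      have k4 : (1 - r) * (1 - s) = 0 := by linarith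
      rcases mul_eq_zero.1 k3 with k5 | k5
      · have k6 : s = 1 := by rw [k5] at k4; linarith
        rw [k5, k6] at h1; linarith
      · have k6 : r = 1 := by rw [k5] at k4; linarith
        rw [k5, k6] at h1; linarith
  subst h5
  by_cases k : r = 1
  · exact Or.inr ⟨k, k⟩
  · left
    have ha1 : a = 1 := by
      by_contra k2
      have k3 : 2 * r - 1 = 0 := by
        have : (a - 1) * (2 * r - 1) = 0 := by linarith
        exact (mul_eq_zero.1 this).resolve_left (sub_ne_zero.2 k2)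
      have k4 : r = 1 / 2 := by linarith
      rw [k4] at h3
      exact k2 (by linarith)
    rw [ha1, one_mul] at h2
    have h6 := smul_right_injective _ (sub_ne_zero.2 (Ne.symm k)) h2
    funext i
    have := congrFun h6 i
    simp only [sphY] at this
    exact Subtype.ext (by linarith)

theorem sphW_surj {m : ℕ} (x : EuclideanSpace ℝ (Fin (m + 2))) (hx : x ≠ 0) :
    ∃ (t : Fin (m + 1) → unitInterval) (a : ℝ), 0 < a ∧ sphW t = a • x := by
  have key : ∀ (y : Fin (m + 1) → ℝ) (a : ℝ), ‖y‖ ≤ 1 → 0 < a → 2 * ‖y‖ - 1 = a * x 0 →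
      (∀ i, (1 - ‖y‖) * y i = a * x i.succ) →
      ∃ (t : Fin (m + 1) → unitInterval) (a : ℝ), 0 < a ∧ sphW t = a • x := by
    intro y a hy ha h1 h2
    have hb : ∀ i, |y i| ≤ 1 := fun i => (norm_le_pi_norm y i).trans hy
    obtain ⟨t, ht⟩ : ∃ t : Fin (m + 1) → unitInterval, sphY t = y :=
      ⟨fun i => ⟨(y i + 1) / 2, by linarith [(abs_le.1 (hb i)).1],
        by linarith [(abs_le.1 (hb i)).2]⟩, by funext i; simp only [sphY]; ring⟩
    refine ⟨t, a, ha, ?_⟩
    ext i
    refine Fin.cases ?_ (fun j => ?_) i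
    · simpa [sphW, ht] using h1
    · simpa [sphW, ht] using h2 j
  obtain ⟨v, hv⟩ : ∃ v : Fin (m + 1) → ℝ, v = fun i => x i.succ := ⟨_, rfl⟩
  have hv' : ∀ i, x i.succ = v i := fun i => by rw [hv]
  by_cases h0 : v = 0
  · have h1 : x 0 ≠ 0 := fun k => hx (by
      ext i
      refine Fin.cases k (fun j => ?_) i
      rw [hv', h0]; rfl)
    rcases lt_or_gt_of_ne h1 with k | k
    · exact key 0 (-(x 0)⁻¹) (by simp) (by simpa using k) (by simp [h1])
        fun i => by simp [hv', h0]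
    · exact key 1 (x 0)⁻¹ (by simp) (by simpa using k) (by norm_num [h1])
        fun i => by simp [hv', h0]
  · have hm : 0 < ‖v‖ := norm_pos_iff.2 h0
    obtain ⟨r, hr, e⟩ := intermediate_value_Ioo (zero_le_one' ℝ)
      (f := fun r : ℝ => (2 * r - 1) * ‖v‖ - x 0 * (r * (1 - r))) (by fun_prop)
      (show (0 : ℝ) ∈ Ioo _ _ from ⟨by simp only; linarith, by simp only; linarith⟩)
    have hn : ‖(r / ‖v‖) • v‖ = r := by
      rw [norm_smul, Real.norm_eq_abs, abs_of_pos (div_pos hr.1 hm)]; field_simp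
    refine key ((r / ‖v‖) • v) ((1 - r) * (r / ‖v‖)) (by rw [hn]; exact hr.2.le)
      (mul_pos (by linarith [hr.2]) (div_pos hr.1 hm)) ?_ fun i => ?_
    · rw [hn]
      simp only at e
      field_simp
      linarith
    · rw [hn, hv', Pi.smul_apply, smul_eq_mul]; ring

theorem exists_cube_sphere (m : ℕ) :
    ∃ (q : (Fin (m + 1) → unitInterval) → sphere (0 : EuclideanSpace ℝ (Fin (m + 2))) 1)
      (s0 : sphere (0 : EuclideanSpace ℝ (Fin (m + 2))) 1), Continuous q ∧
      Function.Surjective q ∧ (∀ t ∈ Cube.boundary (Fin (m + 1)), q t = s0) ∧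
      ∀ t t', q t = q t' →
        t = t' ∨ (t ∈ Cube.boundary (Fin (m + 1)) ∧ t' ∈ Cube.boundary (Fin (m + 1))) := by
  have hp : ∀ t : Fin (m + 1) → unitInterval, 0 < ‖sphW t‖ := fun t => norm_pos_iff.2 (sphW_ne t)
  have hq : ∀ (t : Fin (m + 1) → unitInterval) (a : ℝ) (x : EuclideanSpace ℝ (Fin (m + 2))),
      0 < a → ‖x‖ = 1 → sphW t = a • x → ‖sphW t‖⁻¹ • sphW t = x := fun t a x ha hx h => by
    rw [h, norm_smul, hx, mul_one, Real.norm_eq_abs, abs_of_pos ha, smul_smul,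
      inv_mul_cancel₀ ha.ne', one_smul]
  refine ⟨fun t => ⟨‖sphW t‖⁻¹ • sphW t, by
      rw [mem_sphere_zero_iff_norm, norm_smul, norm_inv, norm_norm, inv_mul_cancel₀ (hp t).ne']⟩,
    ⟨EuclideanSpace.single 0 1, by simp⟩, ?_, fun x => ?_, fun t ht => ?_, fun t t' h => ?_⟩
  · exact ((sphW_cont.norm.inv₀ fun t => (hp t).ne').smul sphW_cont).subtype_mk _
  · obtain ⟨t, a, ha, h⟩ := sphW_surj (x : EuclideanSpace ℝ (Fin (m + 2))) (ne_zero_of_mem_unit_sphere x)
    exact ⟨t, Subtype.ext (hq t a x ha (norm_eq_of_mem_sphere x) h)⟩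
  · refine Subtype.ext (hq t 1 _ one_pos (by simp) ?_)
    ext i
    refine Fin.cases ?_ (fun j => ?_) i
    · norm_num [sphW, (sphY_bd t).1 ht]
    · simp [sphW, (sphY_bd t).1 ht]
  · have h1 : ‖sphW t‖⁻¹ • sphW t = ‖sphW t'‖⁻¹ • sphW t' := congrArg Subtype.val h
    refine sphW_inj (a := ‖sphW t‖ * ‖sphW t'‖⁻¹) (mul_pos (hp t) (inv_pos.2 (hp t'))) ?_
    rw [← smul_smul, ← h1, smul_smul, mul_inv_cancel₀ (hp t).ne', one_smul]

theorem sext_succ {Y : Type} [TopologicalSpace Y] (X : Set Y) (n : ℕ)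
    (h : ∀ x0 : X, ∃ P : unitInterval × X → X, Continuous P ∧ (∀ x, P (0, x) = x) ∧
      ∀ g : HomotopyGroup (Fin (n + 1)) X (P (1, x0)), g = 1) : SExt (n + 2) X := by
  intro f hf hfX
  obtain ⟨q, s0, hq, hs, hb, hi⟩ := exists_cube_sphere n
  obtain ⟨g, hg⟩ : ∃ g : C(sphere (0 : EuclideanSpace ℝ (Fin (n + 2))) 1, X), ∀ x, (g x : Y) = f x :=
    ⟨⟨fun x => ⟨f x, hfX x.2⟩, (continuousOn_iff_continuous_domRestrict.1 hf).subtype_mk _⟩,
      fun _ => rfl⟩
  obtain ⟨P, hP, hP0, h1⟩ := h (g s0)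
  let γ : GenLoop (Fin (n + 1)) X (P (1, g s0)) :=
    ⟨⟨fun t => P (1, g (q t)), by fun_prop⟩, fun t ht => by
      show P (1, g (q t)) = _
      rw [hb t ht]⟩
  have hγ : GenLoop.Homotopic γ GenLoop.const :=
    Quotient.exact ((h1 (Quotient.mk _ γ)).trans (h1 (Quotient.mk _ GenLoop.const)).symm)
  obtain ⟨H⟩ := hγ
  obtain ⟨ψ, hψ, e⟩ := sph_descend (q := Prod.map id q) (continuous_id.prodMap hq)
    (Function.surjective_id.prodMap hs) (φ := H) H.continuous (by
      rintro ⟨s, t⟩ ⟨s', t'⟩ k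
      obtain ⟨k1, k2⟩ := Prod.ext_iff.1 k
      have k1' : s = s' := k1
      subst k1'
      rcases hi t t' k2 with k3 | ⟨k3, k4⟩
      · rw [k3]
      · rw [H.eq_snd s k3, H.eq_snd s k4]; rfl)
  let A : ContinuousMap.Homotopy g ⟨fun x => P (1, g x), by fun_prop⟩ :=
    ⟨⟨fun p => P (p.1, g p.2), by fun_prop⟩, fun x => hP0 _, fun x => rfl⟩
  let B : ContinuousMap.Homotopy ⟨fun x => P (1, g x), by fun_prop⟩
      (ContinuousMap.const _ (P (1, g s0))) :=
    ⟨⟨ψ, hψ⟩, fun x => by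
      obtain ⟨t, rfl⟩ := hs x
      exact (e (0, t)).trans (H.apply_zero t), fun x => by
      obtain ⟨t, rfl⟩ := hs x
      exact (e (1, t)).trans (H.apply_one t)⟩
  refine sph_cone f (A.trans B).symm (A.trans B).symm.continuous (fun x x' => ?_) fun x => ?_
  · rw [ContinuousMap.Homotopy.apply_zero, ContinuousMap.Homotopy.apply_zero]; rfl
  · rw [ContinuousMap.Homotopy.apply_one, hg]

end Pool.Agent.Lib.MP_cef6bb_co
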