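import Pool.Agent.Lib.MP_cef6bb_co.Approx
import Pool.Agent.Lib.MP_cef6bb_co.Retract
import Pool.Agent.Lib.MP_cef6bb_co.Fold
import Pool.Agent.Lib.MP_cef6bb_co.CubeCT
import Pool.Agent.Lib.MP_cef6bb_co.Sphere

/-! Vanishing of homotopy groups from combinatorial data. -/

namespace Pool.Agent.Lib.MP_cef6bb_co

open Set Metric

/-- The grid labelling attached to a labelled cube. -/
def hurW {ι : Type} {r : ℕ} (w : Cube ι r) : (Fin r → ℤ) → ι :=
  fun p => w (fun i => decide (1 ≤ p i))

theorem hurW_mem {ι : Type} [Fintype ι] [DecidableEq ι] {K : Set (Finset ι)}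
    (hK : IsLowerSet K) {r : ℕ} (w : Cube ι r) (hw : labels w ∈ K) (y : Fin r → ℝ) :
    gridmap (hurW w) y ∈ Rl K := by
  refine ⟨gm_nonneg _ _, gm_sum _ _, hK ?_ hw⟩
  intro a ha
  have ha' : gridmap (hurW w) y a ≠ 0 := by simpa [spt] using ha
  obtain ⟨t, -, ht⟩ := gm_supp _ _ _ ha'
  exact Finset.mem_image.2 ⟨_, Finset.mem_univ _, ht⟩

theorem hur_floor_int (m : ℤ) {t : ℝ} (ht : t ∈ Ioo (0 : ℝ) 1) : ⌊(m : ℝ) + t⌋ = m := by
  rw [Int.floor_eq_iff]
  constructor <;> linarith [ht.1, ht.2]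

theorem hur_floor_br (ε : Bool) {t : ℝ} (ht : t ∈ Ioo (0 : ℝ) 1) :
    decide (1 ≤ ⌊br ε + t⌋) = ε := by
  cases ε
  · have h := hur_floor_int 0 ht
    simp only [Int.cast_zero] at h
    simp [br, Int.floor_eq_zero_iff.2 (show t ∈ Ico (0 : ℝ) 1 from ⟨ht.1.le, ht.2⟩)]
  · have h := hur_floor_int 1 ht
    simp only [Int.cast_one] at h
    simp [br, h]

theorem hur_face {ι : Type} [DecidableEq ι] {r : ℕ} (w : Cube ι (r + 1)) (i : Fin (r + 1))
    (ε : Bool) (y : Fin r → ℝ) :
    gridmap (hurW w) (Fin.insertNth (α := fun _ => ℝ) i (br ε) y) =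
      gridmap (hurW (face i ε w)) y := by
  apply gm_congr
  intro t ht
  unfold hurW face
  congr 1
  funext j
  refine Fin.succAboveCases i ?_ (fun k => ?_) j
  · simp only [Fin.insertNth_apply_same]
    exact hur_floor_br ε ht
  · simp only [Fin.insertNth_apply_succAbove]

theorem hur_labels_face {ι : Type} [DecidableEq ι] {r : ℕ} (w : Cube ι (r + 1))
    (i : Fin (r + 1)) (ε : Bool) : labels (face i ε w) ⊆ labels w := by
  intro a ha
  obtain ⟨b, -, hb⟩ := Finset.mem_image.1 ha
  exact Finset.mem_image.2 ⟨_, Finset.mem_univ _, hb⟩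

theorem hur_cell {ι : Type} [DecidableEq ι] {r : ℕ} (V : (Fin r → ℤ) → ι) (q : Fin r → ℤ)
    (y : Fin r → ℝ) (hy : ∀ i, y i ∈ Icc (0 : ℝ) 1) :
    gridmap V (fun i => (q i : ℝ) + y i) = gridmap (hurW (cell V q)) y := by
  apply gm_congr
  intro t ht
  unfold hurW cell
  congr 1
  funext i
  rw [add_assoc, Int.floor_intCast_add]
  congr 1
  have h0 : 0 ≤ ⌊y i + t⌋ := Int.floor_nonneg.2 (by linarith [(hy i).1, ht.1])
  have h2 : ⌊y i + t⌋ < 2 := by
    rw [Int.floor_lt]
    push_cast
    linarith [(hy i).2, ht.2]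
  by_cases h : 1 ≤ ⌊y i + t⌋
  · simp only [h, decide_true, if_true]
    omega
  · simp only [h, decide_false, Bool.false_eq_true, if_false]
    omega

/-- Support bound when the coordinates outside `D` are integers. -/
theorem hur_card_int {ι : Type} [Fintype ι] [DecidableEq ι] {r : ℕ} (V : (Fin r → ℤ) → ι)
    (y : Fin r → ℝ) (D : Finset (Fin r)) (h : ∀ i, i ∉ D → ∃ m : ℤ, y i = m) :
    (spt (gridmap V y)).card ≤ D.card + 1 := by
  apply gm_card
  intro t ht t' ht' hD
  congr 1
  funext i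
  by_cases hi : i ∈ D
  · exact hD i hi
  · obtain ⟨m, hm⟩ := h i hi
    rw [hm, hur_floor_int m ht, hur_floor_int m ht']

theorem hur_card_degen {ι : Type} [Fintype ι] [DecidableEq ι] {r : ℕ} (w : Cube ι (r + 1))
    (hw : Degen w) (y : Fin (r + 1) → ℝ) : (spt (gridmap (hurW w) y)).card ≤ r + 1 := by
  obtain ⟨i, hi⟩ := hw
  have h := gm_card (hurW w) y (Finset.univ.erase i) (by
    intro t _ t' _ hD
    apply hi
    intro k hk
    simp only [hD k (by simp [hk])])
  simpa using h

section Deform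

variable {ι : Type} [Fintype ι] [DecidableEq ι] {K : Set (Finset ι)} {a0 : ι}
  (ha0 : vtx a0 ∈ Rl K) (G : ℝ × (ι → ℝ) → (ι → ℝ))

theorem hur_cont (hG : ContinuousOn G (Icc (0 : ℝ) 1 ×ˢ Rl K))
    (hm : MapsTo G (Icc (0 : ℝ) 1 ×ˢ Rl K) (Rl K)) {Z : Type} [TopologicalSpace Z]
    (s : Z → ℝ) (f : Z → ι → ℝ) (hs : Continuous s) (hf : Continuous f)
    (hs1 : ∀ z, s z ∈ Icc (0 : ℝ) 1) (hf1 : ∀ z, f z ∈ Rl K) :
    Continuous (fun z => toX (⟨vtx a0, ha0⟩ : Rl K) (G (s z, f z))) := by
  apply toX_cont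
  · exact hG.comp_continuous (hs.prodMk hf) (fun z => ⟨hs1 z, hf1 z⟩)
  · intro z
    exact hm ⟨hs1 z, hf1 z⟩

theorem hur_toX_base {y : ι → ℝ} (h : y = vtx a0) :
    toX (⟨vtx a0, ha0⟩ : Rl K) y = ⟨vtx a0, ha0⟩ := by
  subst h
  exact Subtype.ext (toX_val _ _ ha0)

theorem hur_deform (hG : ContinuousOn G (Icc (0 : ℝ) 1 ×ˢ Rl K))
    (hm : MapsTo G (Icc (0 : ℝ) 1 ×ˢ Rl K) (Rl K)) (h0 : ∀ x ∈ Rl K, G (0, x) = x)
    (hb : ∀ t ∈ Icc (0 : ℝ) 1, G (t, vtx a0) = vtx a0) {r : ℕ} (N : ℕ)
    (V : (Fin r → ℤ) → ι) (hV : ∀ y, gridmap V y ∈ Rl K)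
    (hVb : ∀ p : Fin r → ℤ, (∃ i, p i = 0 ∨ p i = N) → V p = a0) :
    cl (⟨vtx a0, ha0⟩ : Rl K) (fun t : Fin r → unitInterval =>
        toX (⟨vtx a0, ha0⟩ : Rl K) (gridmap V (fun i => (N : ℝ) * t i))) =
      cl (⟨vtx a0, ha0⟩ : Rl K) (fun t : Fin r → unitInterval =>
        toX (⟨vtx a0, ha0⟩ : Rl K) (G (1, gridmap V (fun i => (N : ℝ) * t i)))) := by
  have h := cl_homotopy (⟨vtx a0, ha0⟩ : Rl K)
    (fun z : unitInterval × (Fin r → unitInterval) =>
      toX (⟨vtx a0, ha0⟩ : Rl K) (G ((z.1 : ℝ), gridmap V (fun i => (N : ℝ) * z.2 i))))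
    (hur_cont ha0 G hG hm _ _ (by fun_prop) ((gm_cont V).comp (by fun_prop))
      (fun z => z.1.2) (fun z => hV _)) (by
      intro s t ht
      obtain ⟨i, hi⟩ := ht
      apply hur_toX_base
      have hc : gridmap V (fun i => (N : ℝ) * t i) = vtx a0 := by
        apply gm_const
        intro u hu
        apply hVb
        refine ⟨i, ?_⟩
        rcases hi with hi | hi
        · left
          have := hur_floor_int 0 hu
          simpa [hi] using this
        · right
          have := hur_floor_int (N : ℤ) hu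
          simpa [hi] using this
      rw [hc]
      exact hb _ s.2)
  simp only [Icc.coe_zero, Icc.coe_one] at h
  rw [← h]
  congr 1
  funext t
  rw [h0 _ (hV _)]

end Deform

/-- The labelled segment from `a` to `b`. -/
def hurE {ι : Type} (a b : ι) : Cube ι 1 := fun β => if β 0 then b else a

theorem hurE_labels {ι : Type} [DecidableEq ι] (a b : ι) : labels (hurE a b) = {a, b} := by
  ext x
  simp only [labels, Finset.mem_image, Finset.mem_univ, true_and, Finset.mem_insert,
    Finset.mem_singleton, hurE]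
  constructor
  · rintro ⟨β, rfl⟩
    by_cases h : β 0 = true <;> simp [h]
  · rintro (rfl | rfl)
    · exact ⟨fun _ => false, by simp⟩
    · exact ⟨fun _ => true, by simp⟩

theorem hurE_eq {ι : Type} (w : Cube ι 1) :
    w = hurE (w (fun _ => false)) (w (fun _ => true)) := by
  funext β
  have h : β = fun _ => β 0 := by
    funext i
    rw [Subsingleton.elim i 0]
  unfold hurE
  cases hβ : β 0
  · rw [h, hβ]
    simp
  · rw [h, hβ]
    simp

theorem pi_one {ι : Type} [Fintype ι] [DecidableEq ι] (K : Set (Finset ι))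
    (hK : IsLowerSet K) (hX : ∀ d ≤ 1, SExt d (Rl K)) (a0 : ι) (ha0 : vtx a0 ∈ Rl K)
    (hP : P2 (HomotopyGroup (Fin 1) (Rl K) ⟨vtx a0, ha0⟩) K)
    (g : HomotopyGroup (Fin 1) (Rl K) ⟨vtx a0, ha0⟩) : g = 1 := by
  classical
  obtain ⟨G, hG, hm, h0, hb, h1⟩ := exists_G K hK 1 hX a0 ha0
  let x0 : Rl K := ⟨vtx a0, ha0⟩
  let e : Cube ι 1 → HomotopyGroup (Fin 1) (Rl K) x0 := fun w =>
    cl x0 (fun t : Fin 1 → unitInterval => toX x0 (G (1, gridmap (hurW w) (fun k => (t k : ℝ)))))
  have hone : (1 : ℝ) ∈ Icc (0 : ℝ) 1 := ⟨zero_le_one, le_rfl⟩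
  have hcoc : ∀ a b d, ({a, b, d} : Finset ι) ∈ K →
      e (hurE b d) * e (hurE a b) = e (hurE a d) := by
    intro a b d habd
    let w : Cube ι 2 := fun β => if β 1 then (if β 0 then d else b) else a
    have hw : labels w ∈ K := by
      refine hK ?_ habd
      intro x hx
      obtain ⟨β, -, rfl⟩ := Finset.mem_image.1 hx
      simp only [w]
      split_ifs <;> simp
    have hF := hur_cont ha0 G hG hm (fun _ : Fin 2 → ℝ => (1 : ℝ)) (gridmap (hurW w))
      continuous_const (gm_cont _) (fun _ => hone) (hurW_mem hK w hw)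
    have hal := hal_one x0 _ hF (by
      intro y hy0 hy1
      apply hur_toX_base
      apply h1 _ (hurW_mem hK w hw y)
      have := hur_card_int (hurW w) y ∅ (by
        intro i _
        fin_cases i
        · rcases hy0 with h | h
          · exact ⟨0, by simpa using h⟩
          · exact ⟨1, by simpa using h⟩
        · rcases hy1 with h | h
          · exact ⟨0, by simpa using h⟩
          · exact ⟨1, by simpa using h⟩)
      simpa using this)
    simp only [hur_face] at hal
    have f1 : face 1 true w = hurE b d := by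
      rw [hurE_eq (face 1 true w)]
      rfl
    have f2 : face 0 false w = hurE a b := by
      rw [hurE_eq (face 0 false w)]
      rfl
    have f3 : face 0 true w = hurE a d := by
      rw [hurE_eq (face 0 true w)]
      rfl
    have f4 : face 1 false w = hurE a a := by
      rw [hurE_eq (face 1 false w)]
      rfl
    rw [f1, f2, f3, f4] at hal
    have haa : e (hurE a a) = 1 := by
      have hl : labels (hurE a a) ∈ K := by
        rw [← f4]
        exact hK (hur_labels_face w 1 false) hw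
      have hc : (fun t : Fin 1 → unitInterval =>
          toX x0 (G (1, gridmap (hurW (hurE a a)) (fun k => (t k : ℝ))))) = fun _ => x0 := by
        funext t
        apply hur_toX_base
        apply h1 _ (hurW_mem hK _ hl _)
        exact hur_card_degen (r := 0) (hurE a a) ⟨0, fun _ _ _ => by simp [hurE]⟩ _
      simp only [e]
      rw [hc]
      exact cl_const (n := 0) x0
    have hal' : e (hurE b d) * e (hurE a b) = e (hurE a d) * e (hurE a a) := hal
    rw [hal', haa, mul_one]
  obtain ⟨φ, hφ⟩ := hP.2 (fun a b => e (hurE a b)) hcoc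
  obtain ⟨N, V, hV1, hV2, hV3, rfl⟩ := loop_grid K hK a0 ha0 1 g
  rw [hur_deform ha0 G hG hm h0 hb N V hV2 hV3]
  have hF := hur_cont ha0 G hG hm (fun _ : Fin 1 → ℝ => (1 : ℝ)) (gridmap V)
    continuous_const (gm_cont _) (fun _ => hone) hV2
  have hs := subdiv_one x0 _ hF N (by
      intro m _
      apply hur_toX_base
      apply h1 _ (hV2 _)
      have := hur_card_int V (fun _ => (m : ℝ)) ∅ (fun i _ => ⟨m, by simp⟩)
      simpa using this) (fun m => φ (V (fun _ => (m : ℤ)))) (by
      intro m _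
      have hc : cell V (fun _ => (m : ℤ)) =
          hurE (V (fun _ => (m : ℤ))) (V (fun _ => ((m + 1 : ℕ) : ℤ))) := by
        rw [hurE_eq (cell V (fun _ => (m : ℤ)))]
        simp [cell]
      have hl := hV1 (fun _ => (m : ℤ))
      rw [hc, hurE_labels] at hl
      rw [← hφ _ _ hl, ← hc]
      simp only [e]
      congr 1
      funext t
      have := hur_cell V (fun _ => (m : ℤ)) (fun k => (t k : ℝ)) (fun i => (t i).2)
      simp only [Int.cast_natCast] at this
      rw [this])
  have hN : V (fun _ => (N : ℤ)) = a0 := hV3 _ ⟨0, Or.inr rfl⟩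
  have hz : V (fun _ => ((0 : ℕ) : ℤ)) = a0 := hV3 _ ⟨0, Or.inl rfl⟩
  rw [hN, hz, mul_inv_cancel] at hs
  exact hs

theorem pi_comm {ι : Type} [Fintype ι] [DecidableEq ι] (K : Set (Finset ι))
    (hK : IsLowerSet K) (n : ℕ) (hX : ∀ d ≤ n + 2, SExt d (Rl K)) (a0 : ι)
    (ha0 : vtx a0 ∈ Rl K) (hrel : ∀ T : CT ι, T.Rel K ∅ (n + 3))
    (g : HomotopyGroup (Fin (n + 2)) (Rl K) ⟨vtx a0, ha0⟩) : g = 1 := by
  classical
  obtain ⟨G, hG, hm, h0, hb, h1⟩ := exists_G K hK (n + 2) hX a0 ha0
  let x0 : Rl K := ⟨vtx a0, ha0⟩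
  let e : Cube ι (n + 2) → Additive (HomotopyGroup (Fin (n + 2)) (Rl K) x0) := fun w =>
    Additive.ofMul (cl x0 (fun t : Fin (n + 2) → unitInterval =>
      toX x0 (G (1, gridmap (hurW w) (fun k => (t k : ℝ))))))
  let c : Cube ι (n + 2) → Additive (HomotopyGroup (Fin (n + 2)) (Rl K) x0) := fun w =>
    if labels w ∈ K then e w else 0
  have hone : (1 : ℝ) ∈ Icc (0 : ℝ) 1 := ⟨zero_le_one, le_rfl⟩
  have hdeg : ∀ w, Degen w → c w = 0 := by
    intro w hw
    simp only [c]
    split_ifs with hl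
    · have hc : (fun t : Fin (n + 2) → unitInterval =>
          toX x0 (G (1, gridmap (hurW w) (fun k => (t k : ℝ))))) = fun _ => x0 := by
        funext t
        apply hur_toX_base
        exact h1 _ (hurW_mem hK _ hl _) (hur_card_degen w hw _)
      simp only [e]
      rw [hc, cl_const]
      rfl
    · rfl
  have hcoc : ∀ w : Cube ι (n + 3), labels w ∈ K →
      ∑ i : Fin (n + 3), (-1 : ℤ) ^ (i : ℕ) • (c (face i true w) - c (face i false w)) = 0 := by
    intro w hw
    have hF := hur_cont ha0 G hG hm (fun _ : Fin (n + 3) → ℝ => (1 : ℝ)) (gridmap (hurW w))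
      continuous_const (gm_cont _) (fun _ => hone) (hurW_mem hK w hw)
    have hal := hal_comm x0 _ hF (by
      intro y _ i k hik hi hk
      apply hur_toX_base
      apply h1 _ (hurW_mem hK w hw y)
      have := hur_card_int (hurW w) y ((Finset.univ.erase i).erase k) (by
        intro j hj
        have hj' : j = i ∨ j = k := by
          by_contra hcon
          push Not at hcon
          exact hj (by simp [hcon.1, hcon.2])
        rcases hj' with rfl | rfl
        · rcases hi with h | h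
          · exact ⟨0, by simpa using h⟩
          · exact ⟨1, by simpa using h⟩
        · rcases hk with h | h
          · exact ⟨0, by simpa using h⟩
          · exact ⟨1, by simpa using h⟩)
      rw [Finset.card_erase_of_mem (by simp [hik.symm]), Finset.card_erase_of_mem (by simp)]
        at this
      simpa using this)
    simp only [hur_face] at hal
    rw [← hal]
    apply Finset.sum_congr rfl
    intro i _
    have l1 : labels (face i true w) ∈ K := hK (hur_labels_face w i true) hw
    have l2 : labels (face i false w) ∈ K := hK (hur_labels_face w i false) hw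
    simp only [c, if_pos l1, if_pos l2, e]
    rfl
  obtain ⟨N, V, hV1, hV2, hV3, rfl⟩ := loop_grid K hK a0 ha0 (n + 2) g
  rw [hur_deform ha0 G hG hm h0 hb N V hV2 hV3]
  have hF := hur_cont ha0 G hG hm (fun _ : Fin (n + 2) → ℝ => (1 : ℝ)) (gridmap V)
    continuous_const (gm_cont _) (fun _ => hone) hV2
  have hs := subdiv_comm x0 _ hF N (by
      rintro y _ ⟨i, m, hi⟩
      apply hur_toX_base
      apply h1 _ (hV2 _)
      have := hur_card_int V y (Finset.univ.erase i) (by
        intro j hj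
        have hj' : j = i := by
          by_contra hcon
          exact hj (by simp [hcon])
        exact ⟨m, hj' ▸ hi⟩)
      rw [Finset.card_erase_of_mem (by simp)] at this
      simpa using this)
  obtain ⟨T, hT⟩ := exists_cubeCT ι
  have hz := hT K hK n (hrel T) _ c hdeg hcoc N V a0 hV1 hV3
  have hsum : Additive.ofMul (cl x0 (fun t : Fin (n + 2) → unitInterval =>
      toX x0 (G (1, gridmap V (fun i => (N : ℝ) * t i))))) = 0 := by
    rw [← hz]
    refine hs.trans ?_
    apply Finset.sum_congr rfl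
    intro q _
    simp only [c, if_pos (hV1 _), e]
    congr 2
    funext t
    have := hur_cell V (fun i => ((q i : ℕ) : ℤ)) (fun k => (t k : ℝ)) (fun i => (t i).2)
    simp only [Int.cast_natCast] at this
    rw [this]
  exact ofMul_eq_zero.1 hsum

end Pool.Agent.Lib.MP_cef6bb_co
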