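import Pool.Agent.Lib.MP_cef6bb_co.Defs

/-! The matching and cover theorem for bipartite multigraphs. -/

namespace Pool.Agent.Lib.MP_cef6bb_co

theorem konig {ι V₁ V₂ : Type} [DecidableEq ι] [DecidableEq V₁] [DecidableEq V₂]
    (e₁ : ι → V₁) (e₂ : ι → V₂) (S : Finset ι) :
    ∃ N : Finset ι, N ⊆ S ∧ (∀ a ∈ N, ∀ b ∈ N, a ≠ b → e₁ a ≠ e₁ b ∧ e₂ a ≠ e₂ b) ∧
      ∃ (A₁ : Finset V₁) (A₂ : Finset V₂), (∀ a ∈ S, e₁ a ∈ A₁ ∨ e₂ a ∈ A₂) ∧
        A₁.card + A₂.card ≤ N.card := by
  classical
  let L : Finset V₁ := S.image e₁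
  let nb : V₁ → Finset V₂ := fun x => (S.filter (fun a => e₁ a = x)).image e₂
  obtain ⟨X, hXL, hX⟩ := Finset.exists_max_image L.powerset
    (fun X => (X.card : ℤ) - ((X.biUnion nb).card : ℤ)) ⟨∅, by simp⟩
  have hXL' : X ⊆ L := Finset.mem_powerset.1 hXL
  have hd0 : (X.biUnion nb).card ≤ X.card := by
    have := hX ∅ (by simp)
    simp only [Finset.card_empty, Finset.biUnion_empty] at this
    omega
  obtain ⟨d, hd⟩ : ∃ d : ℕ, X.card = (X.biUnion nb).card + d := ⟨_, (Nat.add_sub_cancel' hd0).symm⟩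
  let t : L → Finset (V₂ ⊕ Fin d) := fun x => (nb x).disjSum Finset.univ
  have hall : ∀ s : Finset L, s.card ≤ (s.biUnion t).card := by
    intro s
    rcases s.eq_empty_or_nonempty with rfl | ⟨x0, hx0⟩
    · simp
    have h1 : s.biUnion t =
        ((s.map (Function.Embedding.subtype _)).biUnion nb).disjSum Finset.univ := by
      ext z
      rcases z with y | k
      · simp only [Finset.mem_biUnion, t, Finset.inl_mem_disjSum, Finset.mem_map,
          Function.Embedding.coe_subtype]
        constructor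
        · rintro ⟨x, hx, hy⟩
          exact ⟨x, ⟨x, hx, rfl⟩, hy⟩
        · rintro ⟨_, ⟨x, hx, rfl⟩, hy⟩
          exact ⟨x, hx, hy⟩
      · simp only [Finset.mem_biUnion, t, Finset.inr_mem_disjSum, Finset.mem_univ, and_true,
          iff_true]
        exact ⟨x0, hx0⟩
    have h2 := hX (s.map (Function.Embedding.subtype _)) (by
      rw [Finset.mem_powerset]
      intro x hx
      obtain ⟨y, _, rfl⟩ := Finset.mem_map.1 hx
      exact y.2)
    rw [h1, Finset.card_disjSum, Finset.card_univ, Fintype.card_fin]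
    rw [Finset.card_map] at h2
    omega
  obtain ⟨f, hf, hft⟩ := (Finset.all_card_le_biUnion_card_iff_exists_injective t).1 hall
  have hex : ∀ x : L, ∃ a ∈ S, e₁ a = x ∧ ∀ y, f x = Sum.inl y → e₂ a = y := by
    intro x
    rcases hfx : f x with y | k
    · have h := hft x
      rw [hfx] at h
      simp only [t, Finset.inl_mem_disjSum, nb, Finset.mem_image, Finset.mem_filter] at h
      obtain ⟨a, ⟨ha, hax⟩, hay⟩ := h
      refine ⟨a, ha, hax, ?_⟩
      intro y' hy'
      rw [hay]
      exact Sum.inl.inj hy'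
    · obtain ⟨a, ha, hax⟩ := Finset.mem_image.1 x.2
      refine ⟨a, ha, hax, ?_⟩
      intro y' hy'
      exact absurd hy' Sum.inr_ne_inl
  choose g hgS hg1 hg2 using hex
  have hginj : Function.Injective g := by
    intro x y hxy
    apply Subtype.ext
    rw [← hg1 x, ← hg1 y, hxy]
  let M : Finset L := Finset.univ.filter (fun x => ∃ y, f x = Sum.inl y)
  have hM : L.card ≤ M.card + d := by
    have h1 : (Finset.univ.filter (fun x : L => ¬ ∃ y, f x = Sum.inl y)).card ≤
        ((Finset.univ : Finset (Fin d)).map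
          (Function.Embedding.inr : Fin d ↪ V₂ ⊕ Fin d)).card := by
      apply Finset.card_le_card_of_injOn f
      · intro x hx
        have hx' : ¬ ∃ y, f x = Sum.inl y := (Finset.mem_filter.1 hx).2
        rcases hfx : f x with y | k
        · exact absurd ⟨y, hfx⟩ hx'
        · simp
      · exact hf.injOn
    have h2 := Finset.card_filter_add_card_filter_not (s := (Finset.univ : Finset L))
      (fun x : L => ∃ y, f x = Sum.inl y)
    rw [Finset.card_map, Finset.card_univ, Fintype.card_fin] at h1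
    rw [Finset.card_univ, Fintype.card_coe] at h2
    have h3 : M.card = (Finset.univ.filter (fun x : L => ∃ y, f x = Sum.inl y)).card := rfl
    omega
  refine ⟨M.image g, ?_, ?_, L \ X, X.biUnion nb, ?_, ?_⟩
  · intro a ha
    obtain ⟨x, _, rfl⟩ := Finset.mem_image.1 ha
    exact hgS x
  · intro a ha b hb hab
    obtain ⟨x, hx, rfl⟩ := Finset.mem_image.1 ha
    obtain ⟨y, hy, rfl⟩ := Finset.mem_image.1 hb
    have hxy : x ≠ y := fun h => hab (by rw [h])
    obtain ⟨u, hu⟩ := (Finset.mem_filter.1 hx).2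
    obtain ⟨v, hv⟩ := (Finset.mem_filter.1 hy).2
    refine ⟨?_, ?_⟩
    · rw [hg1 x, hg1 y]
      exact fun h => hxy (Subtype.ext h)
    · rw [hg2 x u hu, hg2 y v hv]
      intro h
      apply hxy
      apply hf
      rw [hu, hv, h]
  · intro a ha
    by_cases h : e₁ a ∈ X
    · right
      exact Finset.mem_biUnion.2 ⟨e₁ a, h,
        Finset.mem_image.2 ⟨a, Finset.mem_filter.2 ⟨ha, rfl⟩, rfl⟩⟩
    · left
      exact Finset.mem_sdiff.2 ⟨Finset.mem_image.2 ⟨a, ha, rfl⟩, h⟩
  · rw [Finset.card_image_of_injective _ hginj, Finset.card_sdiff_of_subset hXL']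
    have := Finset.card_le_card hXL'
    omega

end Pool.Agent.Lib.MP_cef6bb_co
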