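import Pool.Agent.Lib.MP_cef6bb_co.Chain
import Pool.Agent.Lib.MP_cef6bb_co.Konig

/-! The homological bound: imposing the colour classes one at a time. -/

namespace Pool.Agent.Lib.MP_cef6bb_co

open Set

theorem lower_Ind {ι : Type} (G : ι → ι → Prop) (S : Finset ι) : IsLowerSet (Ind G S) :=
  fun _ _ h h' => ⟨Finset.Subset.trans h h'.1, fun a ha b hb => h'.2 a (h ha) b (h hb)⟩

theorem rel_ind_cone {ι : Type} [DecidableEq ι] (T : CT ι) (G : ι → ι → Prop)
    (hs : ∀ a b, G a b → G b a) (S : Finset ι) (u : ι) (hu : u ∈ S) (hiso : ∀ w ∈ S, ¬ G u w)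
    (r : ℕ) : T.Rel (Ind G S) ∅ r := by
  refine T.rel_cone (lower_Ind G S) u (fun σ hσ => ⟨Finset.insert_subset hu hσ.1, ?_⟩) r
  intro a ha b hb
  rcases Finset.mem_insert.mp ha with h1 | h1
  · rw [h1]
    exact hiso b (Finset.insert_subset hu hσ.1 hb)
  · rcases Finset.mem_insert.mp hb with h2 | h2
    · rw [h2]
      exact fun h => hiso a (hσ.1 h1) (hs _ _ h)
    · exact hσ.2 a h1 b h2

theorem rel_ind_glue {ι : Type} [DecidableEq ι] (T : CT ι) (G : ι → ι → Prop) [DecidableRel G]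
    (hs : ∀ a b, G a b → G b a) (hi : ∀ a, ¬ G a a) (S : Finset ι) (v : ι) (hv : v ∈ S)
    (r : ℕ) (h1 : T.Rel (Ind G (S.erase v)) ∅ r)
    (h2 : T.RelP (Ind G (S.filter (fun w => w ≠ v ∧ ¬ G v w))) ∅ r) :
    T.Rel (Ind G S) ∅ r := by
  have e1 : Ind G S = Ind G (S.erase v) ∪ Ind G (S.filter (fun w => ¬ G v w)) := by
    ext σ
    constructor
    · intro h
      by_cases hvσ : v ∈ σ
      · exact Or.inr ⟨fun x hx => Finset.mem_filter.mpr ⟨h.1 hx, h.2 v hvσ x hx⟩, h.2⟩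
      · exact Or.inl ⟨fun x hx => Finset.mem_erase.mpr ⟨fun e => hvσ (e ▸ hx), h.1 hx⟩, h.2⟩
    · rintro (h | h)
      · exact ⟨Finset.Subset.trans h.1 (Finset.erase_subset v S), h.2⟩
      · exact ⟨Finset.Subset.trans h.1 (Finset.filter_subset _ S), h.2⟩
  have e2 : Ind G (S.erase v) ∩ Ind G (S.filter (fun w => ¬ G v w)) =
      Ind G (S.filter (fun w => w ≠ v ∧ ¬ G v w)) := by
    ext σ
    constructor
    · intro h
      refine ⟨fun x hx => ?_, h.1.2⟩
      have a1 := Finset.mem_erase.mp (h.1.1 hx)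
      have a2 := Finset.mem_filter.mp (h.2.1 hx)
      exact Finset.mem_filter.mpr ⟨a1.2, a1.1, a2.2⟩
    · intro h
      refine ⟨⟨fun x hx => ?_, h.2⟩, ⟨fun x hx => ?_, h.2⟩⟩
      · have a1 := Finset.mem_filter.mp (h.1 hx)
        exact Finset.mem_erase.mpr ⟨a1.2.1, a1.1⟩
      · have a1 := Finset.mem_filter.mp (h.1 hx)
        exact Finset.mem_filter.mpr ⟨a1.1, a1.2.2⟩
  rw [e1]
  refine T.rel_glue (lower_Ind G _) (lower_Ind G _) h1 ?_ (by rw [e2]; exact h2)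
  exact rel_ind_cone T G hs _ v (Finset.mem_filter.mpr ⟨hv, hi v⟩)
    (fun w hw => (Finset.mem_filter.mp hw).2) r

/-- The independent domination bound. -/
theorem rel_dom {ι : Type} [DecidableEq ι] (T : CT ι) (G : ι → ι → Prop) [DecidableRel G]
    (hs : ∀ a b, G a b → G b a) (hi : ∀ a, ¬ G a a) (k : ℕ) :
    ∀ (S N : Finset ι) (r : ℕ), S.card = k → N ⊆ S → (∀ a ∈ N, ∀ b ∈ N, ¬ G a b) →
      (∀ v, (N.filter (fun w => G v w)).card ≤ 2) → 2 * r < N.card →
      T.Rel (Ind G S) ∅ r := by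
  induction k using Nat.strong_induction_on with
  | _ k ih =>
    intro S N r hk hsub hind hdeg hr
    by_cases hSN : S ⊆ N
    · obtain ⟨u, hu⟩ : N.Nonempty := Finset.card_pos.mp (by omega)
      exact rel_ind_cone T G hs S u (hsub hu) (fun w hw => hind u hu w (hSN hw)) r
    · obtain ⟨v, hv, hvN⟩ := Finset.not_subset.mp hSN
      have hc := Finset.card_erase_add_one hv
      refine rel_ind_glue T G hs hi S v hv r ?_ ?_
      · exact ih _ (by omega) (S.erase v) N r rfl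
          (fun x hx => Finset.mem_erase.mpr ⟨fun e => hvN (e ▸ hx), hsub hx⟩) hind hdeg hr
      · intro r' hr'
        have hle : (S.filter (fun w => w ≠ v ∧ ¬ G v w)).card ≤ (S.erase v).card :=
          Finset.card_le_card (fun x hx => by
            have a1 := Finset.mem_filter.mp hx
            exact Finset.mem_erase.mpr ⟨a1.2.1, a1.1⟩)
        refine ih _ (by omega) _ (N.filter (fun w => ¬ G v w)) r' rfl ?_ ?_ ?_ ?_
        · intro x hx
          have a1 := Finset.mem_filter.mp hx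
          exact Finset.mem_filter.mpr ⟨hsub a1.1, fun e => hvN (e ▸ a1.1), a1.2⟩
        · intro a ha b hb
          exact hind a (Finset.mem_filter.mp ha).1 b (Finset.mem_filter.mp hb).1
        · intro u
          exact le_trans (Finset.card_le_card
            (Finset.filter_subset_filter _ (Finset.filter_subset _ N))) (hdeg u)
        · have a1 := Finset.card_filter_add_card_filter_not (s := N) (fun w => G v w)
          have a2 := hdeg v
          omega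

section Colour

variable {ι V₁ V₂ V₃ : Type} (e₁ : ι → V₁) (e₂ : ι → V₂) (e₃ : ι → V₃)

/-- Conflict relation in which only the third vertices in `C` are counted. -/
def GT (C : Finset V₃) (a b : ι) : Prop :=
  a ≠ b ∧ (e₁ a = e₁ b ∨ e₂ a = e₂ b ∨ (e₃ a = e₃ b ∧ e₃ a ∈ C))

/-- The third vertex `c` is repeated in `σ`. -/
def Bad (σ : Finset ι) (c : V₃) : Prop := ∃ a ∈ σ, ∃ b ∈ σ, a ≠ b ∧ e₃ a = c ∧ e₃ b = c

theorem GT_symm (C : Finset V₃) (a b : ι) (h : GT e₁ e₂ e₃ C a b) : GT e₁ e₂ e₃ C b a := by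
  refine ⟨h.1.symm, ?_⟩
  rcases h.2 with h1 | h1 | h1
  · exact Or.inl h1.symm
  · exact Or.inr (Or.inl h1.symm)
  · exact Or.inr (Or.inr ⟨h1.1.symm, h1.1 ▸ h1.2⟩)

theorem GT_irrefl (C : Finset V₃) (a : ι) : ¬ GT e₁ e₂ e₃ C a a := fun h => h.1 rfl

variable [Fintype ι]

/-- Faces in which no third vertex of `C` is repeated. -/
def KT (C : Finset V₃) : Set (Finset ι) := Ind (GT e₁ e₂ e₃ C) Finset.univ

/-- Faces of `KT C` in which some third vertex of `U` is not repeated. -/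
def QT (C U : Finset V₃) : Set (Finset ι) :=
  {σ | σ ∈ KT e₁ e₂ e₃ C ∧ ¬ ∀ c ∈ U, Bad e₃ σ c}

theorem lower_KT (C : Finset V₃) : IsLowerSet (KT e₁ e₂ e₃ C) := lower_Ind _ _

theorem lower_QT (C U : Finset V₃) : IsLowerSet (QT e₁ e₂ e₃ C U) := by
  intro σ τ hle hσ
  refine ⟨lower_KT e₁ e₂ e₃ C hle hσ.1, fun h => hσ.2 (fun c hc => ?_)⟩
  obtain ⟨a, ha, b, hb, h3⟩ := h c hc
  exact ⟨a, hle ha, b, hle hb, h3⟩

theorem mem_KT_insert [DecidableEq V₃] (C : Finset V₃) (c : V₃) (σ : Finset ι) :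
    σ ∈ KT e₁ e₂ e₃ (insert c C) ↔ σ ∈ KT e₁ e₂ e₃ C ∧ ¬ Bad e₃ σ c := by
  constructor
  · intro h
    refine ⟨⟨h.1, fun a ha b hb hG => h.2 a ha b hb ⟨hG.1, ?_⟩⟩, ?_⟩
    · rcases hG.2 with h1 | h1 | h1
      · exact Or.inl h1
      · exact Or.inr (Or.inl h1)
      · exact Or.inr (Or.inr ⟨h1.1, Finset.mem_insert_of_mem h1.2⟩)
    · rintro ⟨a, ha, b, hb, hab, h1, h2⟩
      exact h.2 a ha b hb ⟨hab, Or.inr (Or.inr ⟨h1.trans h2.symm,
        Finset.mem_insert.mpr (Or.inl h1)⟩)⟩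
  · intro h
    refine ⟨h.1.1, fun a ha b hb hG => ?_⟩
    rcases hG.2 with h1 | h1 | h1
    · exact h.1.2 a ha b hb ⟨hG.1, Or.inl h1⟩
    · exact h.1.2 a ha b hb ⟨hG.1, Or.inr (Or.inl h1)⟩
    · rcases Finset.mem_insert.mp h1.2 with h2 | h2
      · exact h.2 ⟨a, ha, b, hb, hG.1, h2, h1.1 ▸ h2⟩
      · exact h.1.2 a ha b hb ⟨hG.1, Or.inr (Or.inr ⟨h1.1, h2⟩)⟩

theorem KT_insert_sub [DecidableEq V₃] (C : Finset V₃) (c : V₃) :
    KT e₁ e₂ e₃ (insert c C) ⊆ KT e₁ e₂ e₃ C :=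
  fun σ h => ((mem_KT_insert e₁ e₂ e₃ C c σ).mp h).1

theorem QT_union [DecidableEq V₃] (C U : Finset V₃) (c : V₃) :
    QT e₁ e₂ e₃ C U ∪ KT e₁ e₂ e₃ (insert c C) = QT e₁ e₂ e₃ C (insert c U) := by
  ext σ
  simp only [mem_union, mem_KT_insert, QT, mem_setOf_eq, Finset.forall_mem_insert]
  tauto

theorem QT_inter [DecidableEq V₃] (C U : Finset V₃) (c : V₃) :
    KT e₁ e₂ e₃ (insert c C) ∩ QT e₁ e₂ e₃ C U = QT e₁ e₂ e₃ (insert c C) U := by
  ext σ
  simp only [mem_inter_iff, mem_KT_insert, QT, mem_setOf_eq]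
  tauto

theorem QT_empty (C : Finset V₃) : QT e₁ e₂ e₃ C ∅ = ∅ := by
  ext σ
  simp [QT]

omit [Fintype ι] in
theorem card_of_bad [DecidableEq V₃] (σ : Finset ι) (U : Finset V₃)
    (h : ∀ c ∈ U, Bad e₃ σ c) : 2 * U.card ≤ σ.card := by
  have h1 : (σ.filter (fun a => e₃ a ∈ U)).card =
      ∑ c ∈ U, ((σ.filter (fun a => e₃ a ∈ U)).filter (fun a => e₃ a = c)).card :=
    Finset.card_eq_sum_card_fiberwise (fun a ha => (Finset.mem_filter.mp ha).2)
  have h2 : ∑ c ∈ U, 2 ≤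
      ∑ c ∈ U, ((σ.filter (fun a => e₃ a ∈ U)).filter (fun a => e₃ a = c)).card := by
    refine Finset.sum_le_sum (fun c hc => ?_)
    obtain ⟨a, ha, b, hb, hab, h3, h4⟩ := h c hc
    exact Finset.one_lt_card.mpr ⟨a, Finset.mem_filter.mpr ⟨Finset.mem_filter.mpr
      ⟨ha, h3 ▸ hc⟩, h3⟩, b, Finset.mem_filter.mpr ⟨Finset.mem_filter.mpr ⟨hb, h4 ▸ hc⟩, h4⟩,
      hab⟩
  have h3 := Finset.card_filter_le σ (fun a => e₃ a ∈ U)
  rw [Finset.sum_const, smul_eq_mul] at h2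
  omega

variable [DecidableEq ι] [DecidableEq V₁] [DecidableEq V₂] [DecidableEq V₃] (T : CT ι) (j : ℕ)
  (hτ : ∀ (A₁ : Finset V₁) (A₂ : Finset V₂) (A₃ : Finset V₃),
    A₁.card + A₂.card + A₃.card ≤ 4 * j → ∃ a, e₁ a ∉ A₁ ∧ e₂ a ∉ A₂ ∧ e₃ a ∉ A₃)

include hτ in
theorem rel_KT (C : Finset V₃) (r : ℕ) (hr : 2 * r + C.card ≤ 4 * j) :
    T.Rel (KT e₁ e₂ e₃ C) ∅ r := by
  classical
  obtain ⟨N, hN, hmatch, A₁, A₂, hcov, hcard⟩ :=
    konig e₁ e₂ (Finset.univ.filter (fun a => e₃ a ∉ C))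
  have hNC : ∀ a ∈ N, e₃ a ∉ C := fun a ha => (Finset.mem_filter.mp (hN ha)).2
  have hbig : 2 * r < N.card := by
    by_contra hlt
    obtain ⟨a, h1, h2, h3⟩ := hτ A₁ A₂ C (by omega)
    rcases hcov a (Finset.mem_filter.mpr ⟨Finset.mem_univ a, h3⟩) with h | h
    · exact h1 h
    · exact h2 h
  refine rel_dom T (GT e₁ e₂ e₃ C) (GT_symm e₁ e₂ e₃ C) (GT_irrefl e₁ e₂ e₃ C) _
    Finset.univ N r rfl (Finset.subset_univ N) ?_ ?_ hbig
  · intro a ha b hb hG
    have h0 := hmatch a ha b hb hG.1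
    rcases hG.2 with h1 | h1 | h1
    · exact h0.1 h1
    · exact h0.2 h1
    · exact hNC a ha h1.2
  · intro v
    have hsub : N.filter (fun w => GT e₁ e₂ e₃ C v w) ⊆
        N.filter (fun w => e₁ w = e₁ v) ∪ N.filter (fun w => e₂ w = e₂ v) := by
      intro w hw
      have a1 := Finset.mem_filter.mp hw
      rcases a1.2.2 with h1 | h1 | h1
      · exact Finset.mem_union_left _ (Finset.mem_filter.mpr ⟨a1.1, h1.symm⟩)
      · exact Finset.mem_union_right _ (Finset.mem_filter.mpr ⟨a1.1, h1.symm⟩)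
      · exact absurd (h1.1 ▸ h1.2) (hNC w a1.1)
    have b1 : (N.filter (fun w => e₁ w = e₁ v)).card ≤ 1 := by
      refine Finset.card_le_one.mpr (fun a ha b hb => ?_)
      have a1 := Finset.mem_filter.mp ha
      have a2 := Finset.mem_filter.mp hb
      by_contra hab
      exact (hmatch a a1.1 b a2.1 hab).1 (a1.2.trans a2.2.symm)
    have b2 : (N.filter (fun w => e₂ w = e₂ v)).card ≤ 1 := by
      refine Finset.card_le_one.mpr (fun a ha b hb => ?_)
      have a1 := Finset.mem_filter.mp ha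
      have a2 := Finset.mem_filter.mp hb
      by_contra hab
      exact (hmatch a a1.1 b a2.1 hab).2 (a1.2.trans a2.2.symm)
    have b3 := Finset.card_le_card hsub
    have b4 := Finset.card_union_le (N.filter (fun w => e₁ w = e₁ v))
      (N.filter (fun w => e₂ w = e₂ v))
    omega

include hτ in
theorem rel_A1 (U : Finset V₃) : ∀ (C : Finset V₃) (r : ℕ), 2 * r + C.card ≤ 4 * j →
    T.Rel (KT e₁ e₂ e₃ C) (QT e₁ e₂ e₃ C U) r := by
  induction U using Finset.induction_on with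
  | empty =>
    intro C r hr
    rw [QT_empty]
    exact rel_KT e₁ e₂ e₃ T j hτ C r hr
  | insert c U _ ih =>
    intro C r hr
    rw [← QT_union]
    refine T.rel_L1 (lower_QT e₁ e₂ e₃ C U) (lower_KT e₁ e₂ e₃ _)
      (KT_insert_sub e₁ e₂ e₃ C c) (ih C r hr) ?_
    intro r' hr'
    rw [QT_inter]
    have := Finset.card_insert_le c C
    exact ih _ r' (by omega)

omit [DecidableEq V₁] [DecidableEq V₂] in
theorem rel_A2 (C U : Finset V₃) (r : ℕ) (hr : r < 2 * U.card) :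
    T.Rel (KT e₁ e₂ e₃ C) (QT e₁ e₂ e₃ C U) r := by
  refine T.rel_low (lower_QT e₁ e₂ e₃ C U) r _ _ (lower_KT e₁ e₂ e₃ C) (fun σ h => h.1) rfl ?_
  intro σ hσ hQ
  have h : ∀ c ∈ U, Bad e₃ σ c := by
    by_contra h
    exact hQ ⟨hσ, h⟩
  have := card_of_bad e₃ σ U h
  omega

include hτ in
theorem rel_A3 (C : Finset V₃) : ∀ (U : Finset V₃) (r : ℕ), r ≤ j + U.card →
    T.Rel (KT e₁ e₂ e₃ C) (QT e₁ e₂ e₃ C U) r := by
  induction C using Finset.induction_on with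
  | empty =>
    intro U r hr
    by_cases h : r ≤ 2 * j
    · exact rel_A1 e₁ e₂ e₃ T j hτ U ∅ r (by rw [Finset.card_empty]; omega)
    · exact rel_A2 e₁ e₂ e₃ T ∅ U r (by omega)
  | insert c C _ ih =>
    intro U r hr
    by_cases hc : c ∈ U
    · have e : QT e₁ e₂ e₃ (insert c C) U = KT e₁ e₂ e₃ (insert c C) := by
        ext σ
        constructor
        · exact fun h => h.1
        · exact fun h => ⟨h, fun h2 => ((mem_KT_insert e₁ e₂ e₃ C c σ).mp h).2 (h2 c hc)⟩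
      rw [e]
      exact T.rel_self _ r
    · rw [← QT_inter]
      refine T.rel_L2 (lower_QT e₁ e₂ e₃ C U) (lower_KT e₁ e₂ e₃ _)
        (KT_insert_sub e₁ e₂ e₃ C c) (ih U r hr) ?_
      rw [QT_union]
      exact ih _ _ (by rw [Finset.card_insert_of_notMem hc]; omega)

include hτ in
/-- The homological bound for every set of imposed third vertices. -/
theorem koszul (C : Finset V₃) (r : ℕ) (hr : r ≤ j) : T.Rel (KT e₁ e₂ e₃ C) ∅ r := by
  have := rel_A3 e₁ e₂ e₃ T j hτ C ∅ r (by omega)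
  rw [QT_empty] at this
  exact this

end Colour

end Pool.Agent.Lib.MP_cef6bb_co
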