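import Pool.Agent.Lib.MP_cef6bb_co.Defs

/-! Minimax and threshold rounding for cover numbers five and nine. -/

namespace Pool.Agent.Lib.MP_cef6bb_co

open Set

/-- Gram matrix of the incidence vectors of the edges. -/
def gram {ι V₁ V₂ V₃ : Type} [DecidableEq V₁] [DecidableEq V₂] [DecidableEq V₃]
    (e₁ : ι → V₁) (e₂ : ι → V₂) (e₃ : ι → V₃) (a b : ι) : ℝ :=
  (if e₁ a = e₁ b then 1 else 0) + (if e₂ a = e₂ b then 1 else 0) +
    (if e₃ a = e₃ b then 1 else 0)

theorem side_psd {ι V : Type} [Fintype ι] [DecidableEq V] (e : ι → V) (y : ι → ℝ) :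
    0 ≤ ∑ a, ∑ b, y a * (if e a = e b then (1 : ℝ) else 0) * y b := by
  have h : ∑ a, ∑ b, y a * (if e a = e b then (1 : ℝ) else 0) * y b =
      ∑ v ∈ Finset.univ.image e, (∑ a, if e a = v then y a else 0) ^ 2 := by
    simp only [sq, Finset.sum_mul_sum]
    rw [Finset.sum_comm]
    conv_rhs => rw [Finset.sum_comm]
    conv_lhs => rw [Finset.sum_comm]
    refine Finset.sum_congr rfl fun a _ => ?_
    conv_rhs => rw [Finset.sum_comm]
    refine Finset.sum_congr rfl fun b _ => ?_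
    rw [Finset.sum_eq_single (e a)]
    · by_cases hab : e a = e b
      · simp [hab]
      · have hba : ¬ e b = e a := fun h => hab h.symm
        simp [hab, hba]
    · intro v _ hv
      have : ¬ e a = v := fun h => hv h.symm
      simp [this]
    · intro hn
      exact absurd (Finset.mem_image_of_mem e (Finset.mem_univ a)) hn
  rw [h]
  exact Finset.sum_nonneg fun v _ => sq_nonneg _

theorem gram_psd {ι V₁ V₂ V₃ : Type} [Fintype ι] [DecidableEq V₁] [DecidableEq V₂]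
    [DecidableEq V₃] (e₁ : ι → V₁) (e₂ : ι → V₂) (e₃ : ι → V₃) (y : ι → ℝ) :
    0 ≤ ∑ a, ∑ b, y a * gram e₁ e₂ e₃ a b * y b := by
  have h1 := side_psd e₁ y
  have h2 := side_psd e₂ y
  have h3 := side_psd e₃ y
  have h : ∑ a, ∑ b, y a * gram e₁ e₂ e₃ a b * y b =
      ∑ a, ∑ b, y a * (if e₁ a = e₁ b then (1 : ℝ) else 0) * y b +
      ∑ a, ∑ b, y a * (if e₂ a = e₂ b then (1 : ℝ) else 0) * y b +
      ∑ a, ∑ b, y a * (if e₃ a = e₃ b then (1 : ℝ) else 0) * y b := by
    simp only [← Finset.sum_add_distrib]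
    refine Finset.sum_congr rfl fun a _ => Finset.sum_congr rfl fun b _ => ?_
    unfold gram
    ring
  rw [h]
  linarith

theorem minimax_alt {ι : Type} [Fintype ι] [Nonempty ι] (M : ι → ι → ℝ)
    (hM : ∀ a b, M a b = M b a) (j : ℝ) (hj : 0 < j)
    (hno : ¬ ∃ β : ι → ℝ, (∀ a, 0 ≤ β a) ∧ (∀ a, ∑ b, M a b * β b ≤ 1) ∧ j < ∑ a, β a) :
    ∃ α : ι → ℝ, (∀ a, 0 ≤ α a) ∧ (∀ a, 1 ≤ ∑ b, M a b * α b) ∧ ∑ a, α a ≤ j := by
  classical
  let L : (ι → ℝ) →ₗ[ℝ] (ι → ℝ) := Matrix.mulVecLin (Matrix.of M)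
  have hL : ∀ y a, L y a = ∑ b, M a b * y b := fun y a => rfl
  let O : Set (ι → ℝ) := Set.pi Set.univ (fun _ => Set.Iio (1 / j))
  have hOc : Convex ℝ O := convex_pi fun _ _ => convex_Iio _
  have hOo : IsOpen O := isOpen_set_pi Set.finite_univ fun _ _ => isOpen_Iio
  have hCc : Convex ℝ (L '' stdSimplex ℝ ι) := (convex_stdSimplex ℝ ι).linear_image L
  have hj' : 0 < 1 / j := by positivity
  have hdisj : Disjoint O (L '' stdSimplex ℝ ι) := by
    rw [Set.disjoint_left]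
    rintro z hz ⟨y, hy, rfl⟩
    apply hno
    obtain ⟨a0, -, ha0⟩ := Finset.exists_max_image Finset.univ (fun a => L y a)
      Finset.univ_nonempty
    have h0 : L y a0 < 1 / j := hz a0 (Set.mem_univ _)
    set c := max (L y a0) (1 / (2 * j)) with hc
    have hcpos : 0 < c := lt_of_lt_of_le (by positivity) (le_max_right _ _)
    have hclt : c < 1 / j := by
      refine max_lt h0 ?_
      rw [div_lt_div_iff₀ (by positivity) hj]
      linarith
    refine ⟨fun a => y a / c, fun a => div_nonneg (hy.1 a) hcpos.le, fun a => ?_, ?_⟩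
    · have h1 : ∑ b, M a b * (y b / c) = L y a / c := by
        rw [hL, Finset.sum_div]
        exact Finset.sum_congr rfl fun b _ => by ring
      rw [h1, div_le_one hcpos]
      exact (ha0 a (Finset.mem_univ _)).trans (le_max_left _ _)
    · rw [← Finset.sum_div, hy.2, lt_div_iff₀ hcpos]
      rw [lt_div_iff₀ hj] at hclt
      linarith
  obtain ⟨f, u, hfO, hfC⟩ := geometric_hahn_banach_open hOc hOo hCc hdisj
  let g : ι → ℝ := fun a => f (Pi.single a 1)
  have hf : ∀ z : ι → ℝ, f z = ∑ a, z a * g a := by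
    intro z
    conv_lhs => rw [← Finset.univ_sum_single z]
    rw [map_sum]
    refine Finset.sum_congr rfl fun a _ => ?_
    have : (Pi.single a (z a) : ι → ℝ) = z a • Pi.single a 1 := by
      ext b
      by_cases h : b = a
      · subst h; simp
      · simp [h]
    rw [this, map_smul, smul_eq_mul]
  have hu : 0 < u := by
    have := hfO 0 (fun a _ => hj')
    simpa using this
  have hg : ∀ a, 0 ≤ g a := by
    intro a
    by_contra hneg
    push Not at hneg
    have h1 := hfO ((u / g a) • Pi.single a 1) (fun b _ => by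
      have h2 : u / g a < 0 := div_neg_of_pos_of_neg hu hneg
      by_cases h : b = a
      · subst h
        simp only [Pi.smul_apply, Pi.single_eq_same, smul_eq_mul, mul_one, Set.mem_Iio]
        linarith
      · simp only [Pi.smul_apply, Pi.single_eq_of_ne h, smul_eq_mul, mul_zero, Set.mem_Iio]
        exact hj')
    rw [map_smul, smul_eq_mul] at h1
    change u / g a * g a < u at h1
    rw [div_mul_cancel₀ _ hneg.ne] at h1
    exact lt_irrefl _ h1
  have hsum : (∑ a, g a) ≤ j * u := by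
    by_contra hlt
    push Not at hlt
    have hS : 0 < ∑ a, g a := lt_trans (by positivity) hlt
    have h1 := hfO (fun _ => u / ∑ a, g a) (fun b _ => by
      simp only [Set.mem_Iio]
      rw [div_lt_div_iff₀ hS hj]
      linarith)
    rw [hf, ← Finset.mul_sum, div_mul_cancel₀ _ hS.ne'] at h1
    exact lt_irrefl _ h1
  refine ⟨fun a => g a / u, fun a => div_nonneg (hg a) hu.le, fun a => ?_, ?_⟩
  · have h1 := hfC (L (Pi.single a 1)) ⟨_, single_mem_stdSimplex ℝ a, rfl⟩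
    rw [hf] at h1
    have h2 : ∑ b, M a b * (g b / u) = (∑ b, L (Pi.single a 1) b * g b) / u := by
      rw [Finset.sum_div]
      refine Finset.sum_congr rfl fun b _ => ?_
      have : L (Pi.single a 1) b = M a b := by
        rw [hL, Finset.sum_eq_single a]
        · simp [hM a b]
        · intro c _ hc
          simp [hc]
        · intro hn
          exact absurd (Finset.mem_univ a) hn
      rw [this]
      ring
    rw [h2, le_div_iff₀ hu]
    linarith
  · rw [← Finset.sum_div, div_le_iff₀ hu]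
    exact hsum

theorem greedy_thr {ι V : Type} [Fintype ι] [DecidableEq V] (e : ι → V) (w : V → ℝ)
    (m : ℕ) : (∀ v, 0 ≤ w v) →
    ∃ (A : Finset V) (x : ℕ → ℝ) (B : ℕ → Finset V), A.card ≤ m ∧ (∀ p, 0 ≤ x p) ∧
      (∀ p < m, (B p).card ≤ p ∧ ∀ a, e a ∉ B p → w (e a) ≤ x p) ∧
      ∑ p ∈ Finset.range m, x p ≤ ∑ v ∈ A, w v := by
  classical
  intro hw
  induction m with
  | zero => exact ⟨∅, fun _ => 0, fun _ => ∅, by simp, fun _ => le_rfl, by simp, by simp⟩
  | succ m ih =>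
    obtain ⟨A, x, B, hA, hx, hB, hs⟩ := ih
    have key : ∃ (A' : Finset V) (t : ℝ), A'.card ≤ m + 1 ∧ 0 ≤ t ∧
        (∀ a, e a ∉ A → w (e a) ≤ t) ∧ ∑ v ∈ A, w v + t ≤ ∑ v ∈ A', w v := by
      by_cases hne : (Finset.univ.filter fun a => e a ∉ A).Nonempty
      · obtain ⟨a0, ha0, hmax⟩ := Finset.exists_max_image _ (fun a => w (e a)) hne
        have ha0' : e a0 ∉ A := (Finset.mem_filter.1 ha0).2
        refine ⟨insert (e a0) A, w (e a0), ?_, hw _, fun a ha => hmax a (by simp [ha]), ?_⟩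
        · rw [Finset.card_insert_of_notMem ha0']
          omega
        · rw [Finset.sum_insert ha0']
          linarith
      · refine ⟨A, 0, by omega, le_rfl, fun a ha => ?_, by simp⟩
        exact absurd ⟨a, by simp [ha]⟩ hne
    obtain ⟨A', t, hA', ht, hAt, hst⟩ := key
    refine ⟨A', fun p => if p = m then t else x p, fun p => if p = m then A else B p, hA',
      fun p => ?_, fun p hp => ?_, ?_⟩
    · dsimp only
      split_ifs
      · exact ht
      · exact hx p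
    · dsimp only
      by_cases hpm : p = m
      · subst hpm
        simp only [if_true]
        exact ⟨hA, hAt⟩
      · simp only [if_neg hpm]
        exact hB p (by omega)
    · rw [Finset.sum_range_succ]
      simp only [if_true]
      have : ∑ p ∈ Finset.range m, (if p = m then t else x p) = ∑ p ∈ Finset.range m, x p :=
        Finset.sum_congr rfl fun p hp => if_neg (Finset.mem_range.1 hp).ne
      rw [this]
      linarith

theorem side_thr {ι V : Type} [Fintype ι] [DecidableEq V] (e : ι → V) (α : ι → ℝ)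
    (hα : ∀ a, 0 ≤ α a) (m : ℕ) :
    ∃ (x : ℕ → ℝ) (B : ℕ → Finset V), (∀ p, 0 ≤ x p) ∧
      (∀ p < m, (B p).card ≤ p ∧ ∀ a, e a ∉ B p →
        ∑ b, (if e a = e b then (1 : ℝ) else 0) * α b ≤ x p) ∧
      ∑ p ∈ Finset.range m, x p ≤ ∑ a, α a := by
  obtain ⟨A, x, B, -, hx, hB, hs⟩ := greedy_thr e
    (fun v => ∑ b, (if v = e b then (1 : ℝ) else 0) * α b) m
    (fun v => Finset.sum_nonneg fun b _ => mul_nonneg (by split_ifs <;> norm_num) (hα b))
  refine ⟨x, B, hx, hB, hs.trans ?_⟩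
  rw [Finset.sum_comm]
  refine Finset.sum_le_sum fun b _ => ?_
  rw [← Finset.sum_mul, Finset.sum_ite_eq']
  split_ifs
  · simp
  · simpa using hα b

theorem exists_beta {ι V₁ V₂ V₃ : Type} [Fintype ι] [DecidableEq V₁] [DecidableEq V₂]
    [DecidableEq V₃] (e₁ : ι → V₁) (e₂ : ι → V₂) (e₃ : ι → V₃) (j : ℕ) (hj : j ≤ 2)
    (hτ : ∀ (A₁ : Finset V₁) (A₂ : Finset V₂) (A₃ : Finset V₃),
      A₁.card + A₂.card + A₃.card ≤ 4 * j → ∃ a, e₁ a ∉ A₁ ∧ e₂ a ∉ A₂ ∧ e₃ a ∉ A₃) :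
    ∃ β : ι → ℝ, (∀ a, 0 ≤ β a) ∧ (∀ a, ∑ b, gram e₁ e₂ e₃ a b * β b ≤ 1) ∧
      (j : ℝ) < ∑ a, β a := by
  classical
  obtain ⟨a0, -⟩ := hτ ∅ ∅ ∅ (by simp)
  have : Nonempty ι := ⟨a0⟩
  rcases Nat.eq_zero_or_pos j with h0 | hpos
  · subst h0
    refine ⟨fun b => if b = a0 then 1 / 3 else 0, fun a => by dsimp only; split_ifs <;> norm_num,
      fun a => ?_, ?_⟩
    · rw [Finset.sum_eq_single a0]
      · unfold gram
        simp only [if_true]
        split_ifs <;> norm_num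
      · intro b _ hb
        simp [hb]
      · intro hn
        exact absurd (Finset.mem_univ _) hn
    · simp
  by_contra hno
  have hsym : ∀ a b, gram e₁ e₂ e₃ a b = gram e₁ e₂ e₃ b a := by
    intro a b
    unfold gram
    simp only [eq_comm]
  obtain ⟨α, hα, hM, hsum⟩ := minimax_alt (gram e₁ e₂ e₃) hsym j (by exact_mod_cast hpos) hno
  obtain ⟨x, B₁, hx, hB₁, hs₁⟩ := side_thr e₁ α hα (4 * j + 1)
  obtain ⟨y, B₂, hy, hB₂, hs₂⟩ := side_thr e₂ α hα (4 * j + 1)
  obtain ⟨z, B₃, hz, hB₃, hs₃⟩ := side_thr e₃ α hα (4 * j + 1)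
  have key : ∀ p q r : ℕ, p + q + r = 4 * j → 1 ≤ x p + y q + z r := by
    intro p q r h
    obtain ⟨c1, d1⟩ := hB₁ p (by omega)
    obtain ⟨c2, d2⟩ := hB₂ q (by omega)
    obtain ⟨c3, d3⟩ := hB₃ r (by omega)
    obtain ⟨a, h1, h2, h3⟩ := hτ (B₁ p) (B₂ q) (B₃ r) (by omega)
    have h4 := hM a
    have h5 : ∑ b, gram e₁ e₂ e₃ a b * α b =
        ∑ b, (if e₁ a = e₁ b then (1 : ℝ) else 0) * α b +
        ∑ b, (if e₂ a = e₂ b then (1 : ℝ) else 0) * α b +
        ∑ b, (if e₃ a = e₃ b then (1 : ℝ) else 0) * α b := by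
      simp only [← Finset.sum_add_distrib]
      refine Finset.sum_congr rfl fun b _ => ?_
      unfold gram
      ring
    have := d1 a h1
    have := d2 a h2
    have := d3 a h3
    linarith
  have hx' := hs₁.trans hsum
  have hy' := hs₂.trans hsum
  have hz' := hs₃.trans hsum
  clear hs₁ hs₂ hs₃ hB₁ hB₂ hB₃ hM hno hsum
  interval_cases j
  · simp only [Finset.sum_range_succ, Finset.sum_range_zero, Nat.cast_one] at hx' hy' hz'
    linarith [key 0 0 4 rfl, key 0 1 3 rfl, key 0 2 2 rfl, key 0 3 1 rfl, key 0 4 0 rfl,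
      key 1 0 3 rfl, key 1 1 2 rfl, key 1 2 1 rfl, key 1 3 0 rfl, key 2 0 2 rfl,
      key 2 1 1 rfl, key 2 2 0 rfl, key 3 0 1 rfl, key 3 1 0 rfl, key 4 0 0 rfl, hx 0, hx 1,
      hx 2, hx 3, hx 4, hy 0, hy 1, hy 2, hy 3, hy 4, hz 0, hz 1, hz 2, hz 3, hz 4]
  · simp only [Finset.sum_range_succ, Finset.sum_range_zero, Nat.cast_ofNat] at hx' hy' hz'
    linarith [key 0 0 8 rfl, key 0 1 7 rfl, key 0 2 6 rfl, key 0 3 5 rfl, key 0 4 4 rfl,
      key 0 5 3 rfl, key 0 6 2 rfl, key 0 7 1 rfl, key 0 8 0 rfl, key 1 0 7 rfl,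
      key 1 1 6 rfl, key 1 2 5 rfl, key 1 3 4 rfl, key 1 4 3 rfl, key 1 5 2 rfl,
      key 1 6 1 rfl, key 1 7 0 rfl, key 2 0 6 rfl, key 2 1 5 rfl, key 2 2 4 rfl,
      key 2 3 3 rfl, key 2 4 2 rfl, key 2 5 1 rfl, key 2 6 0 rfl, key 3 0 5 rfl,
      key 3 1 4 rfl, key 3 2 3 rfl, key 3 3 2 rfl, key 3 4 1 rfl, key 3 5 0 rfl,
      key 4 0 4 rfl, key 4 1 3 rfl, key 4 2 2 rfl, key 4 3 1 rfl, key 4 4 0 rfl,
      key 5 0 3 rfl, key 5 1 2 rfl, key 5 2 1 rfl, key 5 3 0 rfl, key 6 0 2 rfl,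
      key 6 1 1 rfl, key 6 2 0 rfl, key 7 0 1 rfl, key 7 1 0 rfl, key 8 0 0 rfl, hx 0, hx 1,
      hx 2, hx 3, hx 4, hx 5, hx 6, hx 7, hx 8, hy 0, hy 1, hy 2, hy 3, hy 4, hy 5, hy 6,
      hy 7, hy 8, hz 0, hz 1, hz 2, hz 3, hz 4, hz 5, hz 6, hz 7, hz 8]

end Pool.Agent.Lib.MP_cef6bb_co
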