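import Pool.Agent.Lib.MP_cef6bb_co.Koszul
import Pool.Agent.Lib.MP_cef6bb_co.Hur
import Pool.Agent.Lib.MP_cef6bb_co.Game
import Pool.Agent.Lib.MP_cef6bb_co.Comb
import Pool.Agent.Lib.MP_cef6bb_co.LP

/-! Assembly: spheres of dimension below `j` bound balls when the cover number exceeds `4 j`. -/

namespace Pool.Agent.Lib.MP_cef6bb_co

open Set Metric

theorem spt_vtx {ι : Type} [Fintype ι] [DecidableEq ι] (a : ι) : spt (vtx a) = {a} := by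
  ext b
  by_cases h : b = a
  · simp [spt, vtx, h]
  · simp [spt, vtx, h]

theorem vtx_mem {ι : Type} [Fintype ι] [DecidableEq ι] {K : Set (Finset ι)} {a : ι}
    (h : ({a} : Finset ι) ∈ K) : vtx a ∈ Rl K := by
  refine ⟨fun b => ?_, ?_, ?_⟩
  · by_cases hb : b = a
    · simp [vtx, hb]
    · simp [vtx, hb]
  · simp [vtx]
  · rw [spt_vtx]; exact h

section

variable {ι V₁ V₂ V₃ : Type} [Fintype ι] [DecidableEq ι] [DecidableEq V₁] [DecidableEq V₂]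
  [DecidableEq V₃] (e₁ : ι → V₁) (e₂ : ι → V₂) (e₃ : ι → V₃)

theorem low_level (Γ : Type) [Group Γ] (C : Finset V₃) (j : ℕ) (hj : j ≤ 2)
    (hτ : ∀ (A₁ : Finset V₁) (A₂ : Finset V₂) (A₃ : Finset V₃),
      A₁.card + A₂.card + A₃.card ≤ 4 * j → ∃ a, e₁ a ∉ A₁ ∧ e₂ a ∉ A₂ ∧ e₃ a ∉ A₃) :
    PL Γ (GT e₁ e₂ e₃ C) j Finset.univ := by
  classical
  obtain ⟨β, h0, h1, h2⟩ := exists_beta e₁ e₂ e₃ j hj hτ
  refine gamma_game (GT e₁ e₂ e₃ C) (GT_irrefl e₁ e₂ e₃ C) (PL Γ (GT e₁ e₂ e₃ C))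
    (fun m S u hu hiso => PL_cone Γ _ (GT_symm e₁ e₂ e₃ C) (GT_irrefl e₁ e₂ e₃ C) m S u hu hiso)
    (fun m S v hv a1 a2 => PL_glue Γ _ (GT_symm e₁ e₂ e₃ C) (GT_irrefl e₁ e₂ e₃ C) m S v hv a1 a2)
    Finset.univ (gram e₁ e₂ e₃) β ?_ (gram_psd e₁ e₂ e₃) ?_ ?_ (fun a _ => h0 a)
    (fun a _ => h1 a) j h2
  · intro a b
    simp only [gram, eq_comm]
  · intro a _ b _
    unfold gram
    split_ifs <;> norm_num
  · intro a _ b _ hG
    unfold gram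
    rcases hG.2 with h | h | h
    · rw [if_pos h]
      split_ifs <;> norm_num
    · rw [if_pos h]
      split_ifs <;> norm_num
    · rw [if_pos h.1]
      split_ifs <;> norm_num

theorem main_sext (C : Finset V₃) (j : ℕ)
    (hτ : ∀ (A₁ : Finset V₁) (A₂ : Finset V₂) (A₃ : Finset V₃),
      A₁.card + A₂.card + A₃.card ≤ 4 * j → ∃ a, e₁ a ∉ A₁ ∧ e₂ a ∉ A₂ ∧ e₃ a ∉ A₃)
    (d : ℕ) : d ≤ j → SExt d (Rl (KT e₁ e₂ e₃ C)) := by
  have hK := lower_KT e₁ e₂ e₃ C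
  have hτ' : ∀ i ≤ j, ∀ (A₁ : Finset V₁) (A₂ : Finset V₂) (A₃ : Finset V₃),
      A₁.card + A₂.card + A₃.card ≤ 4 * i → ∃ a, e₁ a ∉ A₁ ∧ e₂ a ∉ A₂ ∧ e₃ a ∉ A₃ :=
    fun i hi A₁ A₂ A₃ h => hτ A₁ A₂ A₃ (by omega)
  induction d using Nat.strong_induction_on with
  | _ d ih =>
    intro hd
    match d, ih, hd with
    | 0, _, _ =>
      obtain ⟨a, ha⟩ : P0 (KT e₁ e₂ e₃ C) :=
        low_level e₁ e₂ e₃ PUnit C 0 (by omega) (hτ' 0 (by omega))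
      exact sext_zero _ ⟨vtx a, vtx_mem ha⟩
    | 1, _, hd =>
      have h : P1 (KT e₁ e₂ e₃ C) := low_level e₁ e₂ e₃ PUnit C 1 (by omega) (hτ' 1 hd)
      exact sext_one _ (pathConnected_of_P1 _ hK h)
    | 2, ih, hd =>
      refine sext_succ _ 0 (fun x0 => ?_)
      obtain ⟨a0, P, hP, hP0, hP1⟩ := exists_move _ hK x0
      refine ⟨P, hP, hP0, ?_⟩
      have ha0 : vtx a0 ∈ Rl (KT e₁ e₂ e₃ C) := hP1 ▸ (P (1, x0)).2
      have e : P (1, x0) = ⟨vtx a0, ha0⟩ := Subtype.ext hP1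
      rw [e]
      exact pi_one _ hK (fun d' hd' => ih d' (by omega) (by omega)) a0 ha0
        (low_level e₁ e₂ e₃ _ C 2 le_rfl (hτ' 2 hd))
    | n + 3, ih, hd =>
      refine sext_succ _ (n + 1) (fun x0 => ?_)
      obtain ⟨a0, P, hP, hP0, hP1⟩ := exists_move _ hK x0
      refine ⟨P, hP, hP0, ?_⟩
      have ha0 : vtx a0 ∈ Rl (KT e₁ e₂ e₃ C) := hP1 ▸ (P (1, x0)).2
      have e : P (1, x0) = ⟨vtx a0, ha0⟩ := Subtype.ext hP1
      rw [e]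
      exact pi_comm _ hK n (fun d' hd' => ih d' (by omega) (by omega)) a0 ha0
        (fun T => koszul e₁ e₂ e₃ T j hτ C (n + 3) hd)

end

/-- Bundled form of the extension property. -/
theorem bundled_of_sext {ι : Type} (d : ℕ) (X : Set (ι → ℝ)) (h : SExt d X)
    (f : C(sphere (0 : EuclideanSpace ℝ (Fin d)) 1, X)) :
    ∃ F : C(closedBall (0 : EuclideanSpace ℝ (Fin d)) 1, X),
      ∀ x : sphere (0 : EuclideanSpace ℝ (Fin d)) 1,
        F ⟨x, sphere_subset_closedBall x.2⟩ = f x := by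
  classical
  let f' : EuclideanSpace ℝ (Fin d) → (ι → ℝ) :=
    fun y => if hy : y ∈ sphere (0 : EuclideanSpace ℝ (Fin d)) 1 then (f ⟨y, hy⟩ : ι → ℝ) else 0
  have hf' : ∀ x : sphere (0 : EuclideanSpace ℝ (Fin d)) 1, f' x = f x := by
    intro x
    simp only [f']
    rw [dif_pos x.2]
  obtain ⟨F, hF, hm, he⟩ := h f' (by
    rw [continuousOn_iff_continuous_restrict]
    exact (continuous_subtype_val.comp f.continuous).congr (fun x => (hf' x).symm)) (by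
    intro y hy
    rw [hf' ⟨y, hy⟩]
    exact (f ⟨y, hy⟩).2)
  refine ⟨⟨fun y => ⟨F y, hm y.2⟩, ?_⟩, ?_⟩
  · exact (continuousOn_iff_continuous_restrict.mp hF).subtype_mk _
  · intro x
    apply Subtype.ext
    exact (he x.2).trans (hf' x)

end Pool.Agent.Lib.MP_cef6bb_co
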