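import Pool.Agent.Lib.MP_cef6bb_co.Defs

/-! Extension over a simplex, and over a subcomplex of bounded dimension. -/

namespace Pool.Agent.Lib.MP_cef6bb_co

open Set Metric

theorem simplex_mem_spt {ι : Type} [Fintype ι] {x : ι → ℝ} {a : ι} : a ∈ spt x ↔ x a ≠ 0 := by
  simp [spt]

theorem isClosed_Rl {ι : Type} [Fintype ι] (K : Set (Finset ι)) (hK : IsLowerSet K) :
    IsClosed (Rl K) := by
  have h1 : Rl K = ({x : ι → ℝ | ∀ a, 0 ≤ x a} ∩ {x | ∑ a, x a = 1}) ∩
      ⋃ σ ∈ K, {x : ι → ℝ | ∀ a, a ∉ σ → x a = 0} := by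
    ext x
    simp only [Rl, mem_ofPred_eq, mem_inter_iff, mem_iUnion, exists_prop, and_assoc]
    refine and_congr_right fun _ => and_congr_right fun _ => ⟨fun h => ⟨_, h, fun a ha => ?_⟩, ?_⟩
    · by_contra h0
      exact ha (simplex_mem_spt.mpr h0)
    · rintro ⟨σ, hσ, h⟩
      refine hK (fun a ha => ?_) hσ
      by_contra h0
      exact simplex_mem_spt.mp ha (h a h0)
  rw [h1]
  refine (IsClosed.inter ?_ ?_).inter ((Set.toFinite K).isClosed_biUnion fun σ _ => ?_)
  · simp only [ofPred_forall]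
    exact isClosed_iInter fun a => isClosed_le continuous_const (continuous_apply a)
  · exact isClosed_eq (continuous_finsetSum _ fun a _ => continuous_apply a) continuous_const
  · simp only [ofPred_forall]
    exact isClosed_iInter fun a => isClosed_iInter fun _ =>
      isClosed_eq (continuous_apply a) continuous_const

/-- Barycentric coordinates of a point of Euclidean space. -/
noncomputable def simplexBary {d : ℕ} (y : EuclideanSpace ℝ (Fin d)) : Fin (d + 1) → ℝ :=
  Fin.cons (1 - ∑ i, y i) fun i => y i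

theorem simplexBary_zero {d : ℕ} (y : EuclideanSpace ℝ (Fin d)) :
    simplexBary y 0 = 1 - ∑ i, y i := rfl

theorem simplexBary_succ {d : ℕ} (y : EuclideanSpace ℝ (Fin d)) (i : Fin d) :
    simplexBary y i.succ = y i := rfl

theorem simplexBary_sum {d : ℕ} (y : EuclideanSpace ℝ (Fin d)) : ∑ j, simplexBary y j = 1 := by
  rw [Fin.sum_univ_succ]
  simp only [simplexBary_zero, simplexBary_succ]
  ring

theorem simplexBary_cont {d : ℕ} (j : Fin (d + 1)) :
    Continuous fun y : EuclideanSpace ℝ (Fin d) => simplexBary y j := by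
  refine Fin.cases ?_ (fun i => ?_) j
  · simp only [simplexBary_zero]
    fun_prop
  · simp only [simplexBary_succ]
    fun_prop

theorem simplexBary_combo {d : ℕ} (y z : EuclideanSpace ℝ (Fin d)) {a b : ℝ} (h : a + b = 1)
    (j : Fin (d + 1)) :
    simplexBary (a • y + b • z) j = a * simplexBary y j + b * simplexBary z j := by
  refine Fin.cases ?_ (fun i => ?_) j
  · simp only [simplexBary_zero, PiLp.add_apply, PiLp.smul_apply, smul_eq_mul,
      Finset.sum_add_distrib, ← Finset.mul_sum]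
    linear_combination (-1 : ℝ) * h
  · simp only [simplexBary_succ, PiLp.add_apply, PiLp.smul_apply, smul_eq_mul]

/-- The standard simplex is a ball, its boundary a sphere. -/
theorem simplex_ball (d : ℕ) :
    ∃ h : EuclideanSpace ℝ (Fin d) ≃ₜ EuclideanSpace ℝ (Fin d),
      (∀ y, (∀ j, 0 ≤ simplexBary y j) → h y ∈ closedBall 0 1) ∧
      ∀ y, h y ∈ sphere 0 1 ↔ (∀ j, 0 ≤ simplexBary y j) ∧ ∃ j, simplexBary y j = 0 := by
  set s : Set (EuclideanSpace ℝ (Fin d)) := {y | ∀ j, 0 < simplexBary y j} with hs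
  have hopen : IsOpen s := by
    simp only [hs, ofPred_forall]
    exact isOpen_iInter_of_finite fun j => isOpen_lt continuous_const (simplexBary_cont j)
  have hconv : Convex ℝ s := by
    intro y hy z hz a b ha hb hab j
    rw [simplexBary_combo y z hab]
    have h1 := hy j
    have h2 := hz j
    rcases ha.eq_or_lt with h0 | h0
    · have hb1 : b = 1 := by linarith
      rw [← h0, hb1]
      linarith
    · nlinarith [mul_pos h0 h1, mul_nonneg hb h2.le]
  have hd : (0 : ℝ) < (d : ℝ) + 1 := by positivity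
  set y₀ : EuclideanSpace ℝ (Fin d) := WithLp.toLp 2 fun _ => 1 / ((d : ℝ) + 1) with hy₀
  have hy₀s : y₀ ∈ s := by
    intro j
    refine Fin.cases ?_ (fun i => ?_) j
    · simp only [simplexBary_zero, hy₀, Finset.sum_const, Finset.card_univ, Fintype.card_fin,
        nsmul_eq_mul]
      rw [sub_pos, mul_one_div, div_lt_one hd]
      linarith
    · simp only [simplexBary_succ, hy₀]
      positivity
  have hb : Bornology.IsBounded s := by
    refine (isBounded_closedBall (x := 0) (r := 1)).subset fun y hy => ?_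
    rw [mem_closedBall_zero_iff, ← abs_norm, ← sq_le_one_iff_abs_le_one,
      EuclideanSpace.real_norm_sq_eq]
    have h0 : ∑ i, y i < 1 := sub_pos.mp (hy 0)
    have h1 : ∀ i, 0 < y i := fun i => hy i.succ
    refine le_trans (Finset.sum_le_sum fun i _ => ?_) h0.le
    have h2 : y i ≤ ∑ i, y i := Finset.single_le_sum (fun k _ => (h1 k).le) (Finset.mem_univ i)
    nlinarith [h1 i]
  have hcl : closure s = {y | ∀ j, 0 ≤ simplexBary y j} := by
    apply Subset.antisymm
    · refine closure_minimal (fun y hy j => (hy j).le) ?_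
      simp only [ofPred_forall]
      exact isClosed_iInter fun j => isClosed_le continuous_const (simplexBary_cont j)
    · intro y hy
      have hc : Continuous fun t : ℝ => (1 - t) • y + t • y₀ := by fun_prop
      have ht : Filter.Tendsto (fun t : ℝ => (1 - t) • y + t • y₀) (nhdsWithin 0 (Ioi 0))
          (nhds y) := by
        have h1 := hc.tendsto 0
        simp only [sub_zero, one_smul, zero_smul, add_zero] at h1
        exact h1.mono_left nhdsWithin_le_nhds
      refine mem_closure_of_tendsto ht ?_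
      filter_upwards [Ioo_mem_nhdsGT (zero_lt_one' ℝ)] with t ht j
      rw [simplexBary_combo y y₀ (by ring)]
      nlinarith [mul_pos ht.1 (hy₀s j), mul_nonneg (sub_pos.mpr ht.2).le (hy j)]
  obtain ⟨h, -, h2, h3⟩ := exists_homeomorph_image_interior_closure_frontier_eq_unitBall hconv
    ⟨y₀, by rwa [hopen.interior_eq]⟩ hb
  refine ⟨h, fun y hy => ?_, fun y => ?_⟩
  · rw [← h2, hcl]
    exact mem_image_of_mem _ hy
  · rw [← h3, h.injective.mem_set_image, hopen.frontier_eq, hcl]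
    refine and_congr_right fun hy => ?_
    simp only [hs, mem_ofPred_eq, not_forall, not_lt]
    exact exists_congr fun j => ⟨fun h0 => le_antisymm h0 (hy j), fun h0 => h0.le⟩

theorem simplex_ext {ι : Type} [Fintype ι] [DecidableEq ι] {Y : Type} [TopologicalSpace Y]
    (X : Set Y) (S : Finset ι) (d : ℕ) (hS : S.card = d + 1) (hX : SExt d X)
    (f : (ι → ℝ) → Y) (hf : ContinuousOn f (Rl {σ | σ ⊂ S}))
    (hm : MapsTo f (Rl {σ | σ ⊂ S}) X) :
    ∃ F : (ι → ℝ) → Y, ContinuousOn F (Rl {σ | σ ⊆ S}) ∧ MapsTo F (Rl {σ | σ ⊆ S}) X ∧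
      EqOn F f (Rl {σ | σ ⊂ S}) := by
  let v : Fin (d + 1) → ι := fun j => ((S.equivFinOfCardEq hS).symm j : ι)
  have hv : Function.Injective v := fun i j h =>
    (S.equivFinOfCardEq hS).symm.injective (Subtype.ext h)
  have hvS : ∀ j, v j ∈ S := fun j => ((S.equivFinOfCardEq hS).symm j).2
  have hSv : ∀ a ∈ S, ∃ j, v j = a := fun a ha =>
    ⟨S.equivFinOfCardEq hS ⟨a, ha⟩, by simp [v]⟩
  let φ : (ι → ℝ) → EuclideanSpace ℝ (Fin d) := fun x => WithLp.toLp 2 fun i => x (v i.succ)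
  let ψ : EuclideanSpace ℝ (Fin d) → ι → ℝ := fun y a =>
    ∑ j, if v j = a then simplexBary y j else 0
  have hφ : Continuous φ := by fun_prop
  have hψ : Continuous ψ := continuous_pi fun a => continuous_finsetSum _ fun j _ => by
    split_ifs
    · exact simplexBary_cont j
    · exact continuous_const
  have ψv : ∀ y j, ψ y (v j) = simplexBary y j := by
    intro y j
    simp only [ψ, hv.eq_iff, Finset.sum_ite_eq', Finset.mem_univ, if_true]
  have ψS : ∀ y a, a ∉ S → ψ y a = 0 := fun y a ha =>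
    Finset.sum_eq_zero fun j _ => if_neg fun (h : v j = a) => ha (h ▸ hvS j)
  have ψsum : ∀ y, ∑ a, ψ y a = 1 := by
    intro y
    rw [← simplexBary_sum y, Finset.sum_comm]
    simp only [Finset.sum_ite_eq, Finset.mem_univ, if_true]
  have φv : ∀ x ∈ Rl {σ | σ ⊆ S}, ∀ j, simplexBary (φ x) j = x (v j) := by
    intro x hx j
    refine Fin.cases ?_ (fun i => rfl) j
    have h1 : ∑ j, x (v j) = 1 := by
      rw [← hx.2.1, ← Finset.sum_image (s := Finset.univ) (g := v) (f := x)
        fun i _ j _ h => hv h]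
      refine Finset.sum_subset (Finset.subset_univ _) fun a _ ha => ?_
      by_contra h0
      obtain ⟨j, rfl⟩ := hSv a (hx.2.2 (simplex_mem_spt.mpr h0))
      exact ha (Finset.mem_image_of_mem _ (Finset.mem_univ _))
    rw [Fin.sum_univ_succ] at h1
    rw [simplexBary_zero]
    linarith
  have ψφ : ∀ x ∈ Rl {σ | σ ⊆ S}, ψ (φ x) = x := by
    intro x hx
    funext a
    by_cases ha : a ∈ S
    · obtain ⟨j, rfl⟩ := hSv a ha
      rw [ψv, φv x hx]
    · rw [ψS _ a ha]
      by_contra h0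
      exact ha (hx.2.2 (simplex_mem_spt.mpr (Ne.symm h0)))
  obtain ⟨h, h1, h2⟩ := simplex_ball d
  have hmaps : MapsTo (fun z => ψ (h.symm z)) (sphere 0 1) (Rl {σ | σ ⊂ S}) := by
    intro z hz
    obtain ⟨h3, j, h4⟩ := (h2 (h.symm z)).mp (by rwa [h.apply_symm_apply])
    refine ⟨fun a => ?_, ψsum _, ?_⟩
    · exact Finset.sum_nonneg fun j _ => by
        split_ifs
        · exact h3 j
        · exact le_rfl
    · refine Finset.ssubset_iff_subset_ne.mpr ⟨fun a ha => ?_, fun h5 => ?_⟩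
      · by_contra h0
        exact simplex_mem_spt.mp ha (ψS _ a h0)
      · have h6 := hvS j
        rw [← h5] at h6
        exact simplex_mem_spt.mp h6 ((ψv _ j).trans h4)
  obtain ⟨G, hG1, hG2, hG3⟩ := hX (fun z => f (ψ (h.symm z)))
    (hf.comp (hψ.comp h.symm.continuous).continuousOn hmaps) (hm.comp hmaps)
  have hin : MapsTo (fun x => h (φ x)) (Rl {σ | σ ⊆ S}) (closedBall 0 1) := fun x hx =>
    h1 _ fun j => by rw [φv x hx]; exact hx.1 _
  refine ⟨fun x => G (h (φ x)), hG1.comp (h.continuous.comp hφ).continuousOn hin,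
    hG2.comp hin, fun x hx => ?_⟩
  have hx' : x ∈ Rl {σ | σ ⊆ S} := ⟨hx.1, hx.2.1, (show spt x ⊂ S from hx.2.2).subset⟩
  have h3 : h (φ x) ∈ sphere 0 1 := by
    refine (h2 _).mpr ⟨fun j => by rw [φv x hx']; exact hx.1 _, ?_⟩
    obtain ⟨a, ha, ha'⟩ := Finset.exists_of_ssubset hx.2.2
    obtain ⟨j, rfl⟩ := hSv a ha
    refine ⟨j, ?_⟩
    rw [φv x hx']
    by_contra h0
    exact ha' (simplex_mem_spt.mpr h0)
  show G (h (φ x)) = f x
  rw [hG3 h3]
  show f (ψ (h.symm (h (φ x)))) = f x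
  rw [h.symm_apply_apply, ψφ x hx']

/-- Attaching one face. -/
theorem simplex_step {ι : Type} [Fintype ι] [DecidableEq ι] {Y : Type} [TopologicalSpace Y]
    (X : Set Y) (n : ℕ) (hX : ∀ d ≤ n, SExt d X) (L' : Set (Finset ι)) (hL' : IsLowerSet L')
    (σ : Finset ι) (hσ : σ ∉ L') (hlow : ∀ τ, τ ⊂ σ → τ ∈ L') (hcard : σ.card ≤ n + 1)
    (f : (ι → ℝ) → Y) (hf : ContinuousOn f (Rl L')) (hm : MapsTo f (Rl L') X) :
    ∃ F : (ι → ℝ) → Y, ContinuousOn F (Rl (insert σ L')) ∧ MapsTo F (Rl (insert σ L')) X ∧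
      EqOn F f (Rl L') := by
  classical
  have hsub : Rl {τ | τ ⊂ σ} ⊆ Rl L' := fun x hx => ⟨hx.1, hx.2.1, hlow _ hx.2.2⟩
  obtain ⟨F₀, h1, h2, h3⟩ : ∃ F₀ : (ι → ℝ) → Y, ContinuousOn F₀ (Rl {τ | τ ⊆ σ}) ∧
      MapsTo F₀ (Rl {τ | τ ⊆ σ}) X ∧ EqOn F₀ f (Rl {τ | τ ⊂ σ}) := by
    rcases Nat.eq_zero_or_eq_succ_pred σ.card with h0 | h0
    · have he : Rl {τ | τ ⊆ σ} = ∅ := by
        refine eq_empty_of_forall_notMem fun x hx => ?_
        have h4 : ∑ a, x a = 0 := Finset.sum_eq_zero fun a _ => by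
          by_contra h5
          have h6 := hx.2.2 (simplex_mem_spt.mpr h5)
          rw [Finset.card_eq_zero.mp h0] at h6
          exact Finset.notMem_empty a h6
        exact zero_ne_one (h4.symm.trans hx.2.1)
      rw [he]
      exact ⟨f, continuousOn_empty f, mapsTo_empty _ _, fun _ _ => rfl⟩
    · exact simplex_ext X σ σ.card.pred h0 (hX _ (Nat.pred_le_iff.mpr hcard)) f (hf.mono hsub)
        (hm.mono_left hsub)
  let F : (ι → ℝ) → Y := fun x => if x ∈ Rl L' then f x else F₀ x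
  have e1 : EqOn F f (Rl L') := fun x hx => if_pos hx
  have e2 : EqOn F F₀ (Rl {τ | τ ⊆ σ}) := by
    intro x hx
    by_cases hx' : x ∈ Rl L'
    · rw [e1 hx']
      refine (h3 ⟨hx.1, hx.2.1, Finset.ssubset_iff_subset_ne.mpr ⟨hx.2.2, fun h4 => ?_⟩⟩).symm
      exact hσ (h4 ▸ hx'.2.2)
    · exact if_neg hx'
  have e3 : Rl (insert σ L') ⊆ Rl L' ∪ Rl {τ | τ ⊆ σ} := by
    intro x hx
    rcases hx.2.2 with h4 | h4
    · exact Or.inr ⟨hx.1, hx.2.1, h4.subset⟩
    · exact Or.inl ⟨hx.1, hx.2.1, h4⟩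
  refine ⟨F, ((hf.congr e1).union_of_isClosed (h1.congr e2) (isClosed_Rl _ hL')
    (isClosed_Rl _ fun _ _ hab ha => Finset.Subset.trans hab ha)).mono e3, fun x hx => ?_, e1⟩
  rcases e3 hx with h4 | h4
  · rw [e1 h4]
    exact hm h4
  · rw [e2 h4]
    exact h2 h4

theorem cw_ext {ι : Type} [Fintype ι] [DecidableEq ι] {Y : Type} [TopologicalSpace Y]
    (X : Set Y) (n : ℕ) (hX : ∀ d ≤ n, SExt d X) (L L' : Set (Finset ι))
    (hL : IsLowerSet L) (hL' : IsLowerSet L') (hsub : L' ⊆ L)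
    (hcard : ∀ σ ∈ L, σ ∉ L' → σ.card ≤ n + 1)
    (f : (ι → ℝ) → Y) (hf : ContinuousOn f (Rl L')) (hm : MapsTo f (Rl L') X) :
    ∃ F : (ι → ℝ) → Y, ContinuousOn F (Rl L) ∧ MapsTo F (Rl L) X ∧ EqOn F f (Rl L') := by
  induction hk : (L \ L').ncard using Nat.strong_induction_on generalizing L' f with
  | _ k ih =>
    rcases (L \ L').eq_empty_or_nonempty with h0 | h0
    · have h1 : L = L' := Subset.antisymm (sdiff_eq_empty.mp h0) hsub
      rw [h1]
      exact ⟨f, hf, hm, fun _ _ => rfl⟩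
    · obtain ⟨σ, hσ, hmin⟩ := Set.exists_min_image (L \ L') Finset.card (Set.toFinite _) h0
      have hlow : ∀ τ, τ ⊂ σ → τ ∈ L' := by
        intro τ hτ
        by_contra h1
        exact absurd (hmin τ ⟨hL hτ.subset hσ.1, h1⟩) (not_le.mpr (Finset.card_lt_card hτ))
      obtain ⟨F₁, h1, h2, h3⟩ := simplex_step X n hX L' hL' σ hσ.2 hlow (hcard σ hσ.1 hσ.2)
        f hf hm
      have hL'' : IsLowerSet (insert σ L') := by
        intro a b hab ha
        rcases ha with rfl | ha
        · rcases lt_or_eq_of_le hab with h4 | h4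
          · exact Or.inr (hlow _ h4)
          · exact Or.inl h4
        · exact Or.inr (hL' hab ha)
      have hlt : (L \ insert σ L').ncard < k := by
        rw [← hk]
        refine Set.ncard_lt_ncard ⟨sdiff_subset_sdiff_right (subset_insert _ _), fun h4 => ?_⟩
          (Set.toFinite _)
        exact (h4 hσ).2 (mem_insert _ _)
      obtain ⟨F, h4, h5, h6⟩ := ih _ hlt (insert σ L') hL'' (insert_subset hσ.1 hsub)
        (fun τ hτ hτ' => hcard τ hτ fun h7 => hτ' (Or.inr h7)) F₁ h1 h2 rfl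
      exact ⟨F, h4, h5, fun x hx => (h6 ⟨hx.1, hx.2.1, Or.inr hx.2.2⟩).trans (h3 hx)⟩

end Pool.Agent.Lib.MP_cef6bb_co
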